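import Pool.Agent.Run7.h135.Q4C
import Pool.Agent.Run7.h843.Q5
import Pool.Agent.Run7.h555.Q4.S

/-!
The analytic input for the quartic twists `y² = x³ + 2 m x`.
-/

set_option autoImplicit false

namespace Pool.Agent.Run7.h135.Q4L

open Pool.Agent.Y699

/-- **the analytic input** -/
theorem ana4 : _root_.Run7.h843.Quart.Ana4 := by
  intro m hm h1 hk
  obtain ⟨L, Ω, h⟩ := _root_.Run7.h555.Q4.exists_GS
  obtain ⟨B, h2⟩ := exists_val
  exact Lfun_of h.g.lat (_root_.Run7.h555.Q4.lim8' h) h2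
    (fun {κ'} _ _ {pr} hp V _ => _root_.Run7.h555.Q4.QG_cg h2 h hp V) m hm h1 hk

end Pool.Agent.Run7.h135.Q4L
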