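import Pool.Agent.Y703.CT.StmB
import Pool.Agent.Y696.CT.LQ
import Pool.Agent.Y350.CT.REC
import Pool.Agent.Y715.T.RecC

/-!
# The cubic character modulo nine and the complementary law for three
-/

set_option autoImplicit false

namespace Pool.Agent.Run7.h135.Kx

open Pool.Agent.Y692.QS hiding ns_unit ns_one chi
open Pool.Agent.Y715.T.Rec (cs nn)
open Pool.Agent.Y715.T.RecG (Pq cs_of cs_spec cs_congr cs_mul cs_one cs_neg cs_neg_one cs_pow)
open Pool.Agent.Y696.CT (ns_prim ns_assoc ns_unit ns_of_assoc ns_of_prim pq_star star_dvd' cs_inert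
  exists_pq inert)
open scoped Classical

/-- the exponent of the character -/
def kx (α : Ei) : ZMod 3 := (((ns α).im / 3 : ℤ) : ZMod 3)

lemma three_dvd {α : Ei} (h : (3 : Ei) ∣ α) : (3 : ℤ) ∣ α.re ∧ (3 : ℤ) ∣ α.im := by
  have h1 : (((3 : ℤ) : Ei)) ∣ α := by exact_mod_cast h
  exact int_dvd.1 h1

lemma prim_form {α : Ei} (h : (3 : Ei) ∣ α - 1) :
    ∃ m n : ℤ, α.re = 1 + 3 * m ∧ α.im = 3 * n := by
  obtain ⟨h1, h2⟩ := three_dvd h
  rw [QuadraticAlgebra.re_sub, QuadraticAlgebra.re_one] at h1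
  rw [QuadraticAlgebra.im_sub, QuadraticAlgebra.im_one, sub_zero] at h2
  obtain ⟨m, hm⟩ := h1
  obtain ⟨n, hn⟩ := h2
  exact ⟨m, n, by omega, hn⟩

lemma kx_prim {α : Ei} (h : (3 : Ei) ∣ α - 1) {n : ℤ} (hn : α.im = 3 * n) :
    kx α = (n : ZMod 3) := by
  unfold kx
  rw [ns_of_prim h, hn, Int.mul_ediv_cancel_left _ (by norm_num)]

lemma kx_ns {α : Ei} (h : ¬ (3 : ℤ) ∣ nr α) : kx (ns α) = kx α := by
  unfold kx
  rw [ns_of_prim (ns_prim h)]

lemma three_ne_zmod : ((3 : ℤ) : ZMod 3) = 0 := by decide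

lemma kx_mul {α β : Ei} (hα : ¬ (3 : ℤ) ∣ nr α) (hβ : ¬ (3 : ℤ) ∣ nr β) :
    kx (α * β) = kx α + kx β := by
  obtain ⟨m, n, h1, h2⟩ := prim_form (ns_prim hα)
  obtain ⟨m', n', h3, h4⟩ := prim_form (ns_prim hβ)
  unfold kx
  rw [ns_mul, mul_im, h1, h2, h3, h4]
  have e : (1 + 3 * m) * (3 * n') + 3 * n * (1 + 3 * m') - 3 * n * (3 * n') =
      3 * (n + n' + 3 * (m * n' + n * m' - n * n')) := by ring
  rw [e, Int.mul_ediv_cancel_left _ (by norm_num), Int.mul_ediv_cancel_left _ (by norm_num),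
    Int.mul_ediv_cancel_left _ (by norm_num)]
  push_cast
  have h3 : (3 : ZMod 3) = 0 := by decide
  rw [h3]
  ring

lemma kx_unit {u : Ei} (hu : IsUnit u) : kx u = 0 := by
  unfold kx
  rw [ns_unit hu]
  rfl

lemma kx_one : kx 1 = 0 := kx_unit isUnit_one

lemma nr_unit3 {u : Ei} (hu : IsUnit u) : ¬ (3 : ℤ) ∣ nr u := by
  rw [isUnit_iff.1 hu]
  decide

lemma kx_neg {α : Ei} (hα : ¬ (3 : ℤ) ∣ nr α) : kx (-α) = kx α := by
  rw [← neg_one_mul, kx_mul (nr_unit3 isUnit_one.neg) hα, kx_unit isUnit_one.neg, zero_add]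

lemma kx_per {α β : Ei} (h : (9 : Ei) ∣ α - β) : kx α = kx β := by
  have h3 : (3 : Ei) ∣ α - β := dvd_trans ⟨3, by norm_num⟩ h
  have h1 : (9 : Ei) ∣ ns α - ns β := by
    unfold ns
    rw [ep_per h3, ← mul_sub]
    exact Dvd.dvd.mul_left h _
  have h2 : (((9 : ℤ) : Ei)) ∣ ns α - ns β := by exact_mod_cast h1
  obtain ⟨-, c, hc⟩ := int_dvd.1 h2
  rw [QuadraticAlgebra.im_sub] at hc
  unfold kx
  have e : (ns α).im = (ns β).im + 3 * (3 * c) := by omega
  rw [e, Int.add_mul_ediv_left _ _ (by norm_num)]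
  push_cast
  have h3 : (3 : ZMod 3) = 0 := by decide
  rw [h3]
  ring

/-! ### the symbol for composite moduli -/

/-- the sum of the symbols over the prime factors -/
noncomputable def J (α x : Ei) : ZMod 3 :=
  ((UniqueFactorizationMonoid.factors α).map fun ρ => cs ρ x).sum

lemma dvd_assoc {ρ σ x : Ei} (h : Associated ρ σ) : ρ ∣ x ↔ σ ∣ x := h.dvd_iff_dvd_left

lemma cs_assoc {ρ σ : Ei} (h : Associated ρ σ) (x : Ei) : cs ρ x = cs σ x := by
  have h1 : nn ρ = nn σ := by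
    unfold nn
    rw [(ns_of_assoc h).2]
  unfold cs
  have h2 : ∀ c : ZMod 3, (ρ ∣ x ^ nn ρ - w ^ c.val) = (σ ∣ x ^ nn σ - w ^ c.val) := by
    intro c
    rw [h1]
    exact propext (dvd_assoc h)
  simp only [h2]

lemma rel_sum {s t : Multiset Ei} (h : Multiset.Rel Associated s t) (x : Ei) :
    (s.map fun ρ => cs ρ x).sum = (t.map fun ρ => cs ρ x).sum := by
  induction h with
  | zero => rfl
  | cons hab _ ih =>
    rw [Multiset.map_cons, Multiset.map_cons, Multiset.sum_cons, Multiset.sum_cons, ih,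
      cs_assoc hab]

lemma J_mul {α β : Ei} (hα : α ≠ 0) (hβ : β ≠ 0) (x : Ei) : J (α * β) x = J α x + J β x := by
  unfold J
  rw [rel_sum (UniqueFactorizationMonoid.factors_mul hα hβ), Multiset.map_add, Multiset.sum_add]

lemma J_unit {u : Ei} (hu : IsUnit u) (x : Ei) : J u x = 0 := by
  unfold J
  have h : UniqueFactorizationMonoid.factors u = 0 := by
    have h1 := UniqueFactorizationMonoid.factors_one (α := Ei)
    have h2 := UniqueFactorizationMonoid.factors_rel_of_associated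
      (associated_one_iff_isUnit.2 hu)
    rw [h1, Multiset.rel_zero_right] at h2
    exact h2
  rw [h, Multiset.map_zero, Multiset.sum_zero]

lemma J_prime {ρ : Ei} (hρ : Prime ρ) (x : Ei) : J ρ x = cs ρ x := by
  unfold J
  obtain ⟨σ, h1, hσ⟩ := UniqueFactorizationMonoid.factors_eq_singleton_of_irreducible
    hρ.irreducible
  rw [hσ, Multiset.map_singleton, Multiset.sum_singleton, cs_assoc h1.symm]

lemma mem_factors {α ρ : Ei} (h : ρ ∈ UniqueFactorizationMonoid.factors α) :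
    Prime ρ ∧ ρ ∣ α :=
  ⟨UniqueFactorizationMonoid.prime_of_factor ρ h, UniqueFactorizationMonoid.dvd_of_mem_factors h⟩

lemma ndvd_three {α ρ : Ei} (h3 : ¬ (3 : ℤ) ∣ nr α) (hρ : Prime ρ) (h : ρ ∣ α) :
    ¬ ρ ∣ 3 ∧ ¬ (3 : ℤ) ∣ nr ρ := by
  have h1 : ¬ (3 : ℤ) ∣ nr ρ := fun h1 => h3 (by
    obtain ⟨c, rfl⟩ := h
    rw [nr_mul]
    exact Dvd.dvd.mul_right h1 _)
  refine ⟨fun h2 => ?_, h1⟩
  obtain ⟨c, hc⟩ := h2
  have h4 : nr ρ * nr c = 9 := by
    rw [← nr_mul, ← hc]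
    decide
  have h5 : nr ρ ∣ (3 : ℤ) ^ 2 := ⟨nr c, by rw [h4]; norm_num⟩
  have h6 : IsCoprime (nr ρ) ((3 : ℤ) ^ 2) := by
    refine IsCoprime.pow_right ?_
    rw [isCoprime_comm]
    exact (Int.prime_three.coprime_iff_not_dvd).2 h1
  have h7 : IsUnit (nr ρ) := h6.isUnit_of_dvd' dvd_rfl h5
  have h8 := nr_nonneg ρ
  rcases Int.isUnit_iff.1 h7 with h9 | h9
  · exact hρ.not_isUnit (isUnit_iff.2 h9)
  · omega

lemma cop_ndvd {α x ρ : Ei} (h : IsCoprime α x) (hρ : Prime ρ) (hd : ρ ∣ α) : ¬ ρ ∣ x :=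
  fun h1 => hρ.not_isUnit (h.isUnit_of_dvd' hd h1)

lemma J_mul_right {α x y : Ei} (h3 : ¬ (3 : ℤ) ∣ nr α) (hx : IsCoprime α x)
    (hy : IsCoprime α y) : J α (x * y) = J α x + J α y := by
  unfold J
  rw [← Multiset.sum_map_add]
  congr 1
  refine Multiset.map_congr rfl fun ρ hρ => ?_
  obtain ⟨h1, h2⟩ := mem_factors hρ
  exact cs_mul h1 (ndvd_three h3 h1 h2).1 (cop_ndvd hx h1 h2) (cop_ndvd hy h1 h2)

lemma J_congr {α x y : Ei} (h3 : ¬ (3 : ℤ) ∣ nr α) (hx : IsCoprime α x) (h : α ∣ x - y) :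
    J α x = J α y := by
  unfold J
  congr 1
  refine Multiset.map_congr rfl fun ρ hρ => ?_
  obtain ⟨h1, h2⟩ := mem_factors hρ
  exact cs_congr h1 (ndvd_three h3 h1 h2).1 (cop_ndvd hx h1 h2) (dvd_trans h2 h)

lemma J_neg {α x : Ei} (h3 : ¬ (3 : ℤ) ∣ nr α) (hx : IsCoprime α x) : J α (-x) = J α x := by
  unfold J
  congr 1
  refine Multiset.map_congr rfl fun ρ hρ => ?_
  obtain ⟨h1, h2⟩ := mem_factors hρ
  exact cs_neg h1 (ndvd_three h3 h1 h2).1 (cop_ndvd hx h1 h2)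

/-- a primary element is the product of its primary prime factors -/
lemma prod_ns {β : Ei} (hβ : (3 : Ei) ∣ β - 1) (h0 : β ≠ 0) :
    ((UniqueFactorizationMonoid.factors β).map ns).prod = β := by
  obtain ⟨u, hu⟩ := UniqueFactorizationMonoid.factors_prod h0
  have h1 : ∀ s : Multiset Ei, (s.map ns).prod = ns s.prod := by
    intro s
    induction s using Multiset.induction_on with
    | empty =>
      rw [Multiset.map_zero, Multiset.prod_zero, ns_unit isUnit_one]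
    | cons a s ih => rw [Multiset.map_cons, Multiset.prod_cons, Multiset.prod_cons, ih, ns_mul]
  rw [h1]
  have h2 : ns β = β := ns_of_prim hβ
  conv_rhs => rw [← h2, ← hu, ns_mul, ns_unit u.isUnit, mul_one]

lemma cs_multiset {ρ : Ei} (hρ : Prime ρ) (h3 : ¬ ρ ∣ 3) (s : Multiset Ei)
    (hs : ∀ x ∈ s, ¬ ρ ∣ x) : cs ρ s.prod = (s.map fun x => cs ρ x).sum := by
  induction s using Multiset.induction_on with
  | empty => rw [Multiset.prod_zero, Multiset.map_zero, Multiset.sum_zero, cs_one hρ h3]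
  | cons a s ih =>
    rw [Multiset.prod_cons, Multiset.map_cons, Multiset.sum_cons, cs_mul hρ h3, ih]
    · exact fun x hx => hs x (Multiset.mem_cons_of_mem hx)
    · exact hs a (Multiset.mem_cons_self a s)
    · intro h
      rw [Multiset.prod_eq_foldr] at h
      have h5 : ρ ∣ s.prod := by rwa [Multiset.prod_eq_foldr]
      obtain ⟨x, hx, hd⟩ := hρ.exists_mem_multiset_dvd h5
      exact hs x (Multiset.mem_cons_of_mem hx) hd

lemma prim_nr {α : Ei} (h : (3 : Ei) ∣ α - 1) : ¬ (3 : ℤ) ∣ nr α := by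
  obtain ⟨m, n, h1, h2⟩ := prim_form h
  unfold nr
  rw [h1, h2]
  intro h3
  have h4 : (1 + 3 * m) ^ 2 - (1 + 3 * m) * (3 * n) + (3 * n) ^ 2 =
      3 * (2 * m + 3 * m ^ 2 - (1 + 3 * m) * n + 3 * n ^ 2) + 1 := by ring
  rw [h4] at h3
  omega

/-- **reciprocity** -/
theorem J_comm {α β : Ei} (hα : (3 : Ei) ∣ α - 1) (hβ : (3 : Ei) ∣ β - 1) (hc : IsCoprime α β)
    (hα0 : α ≠ 0) (hβ0 : β ≠ 0) : J α β = J β α := by
  have key : ∀ {α β : Ei}, (3 : Ei) ∣ α - 1 → (3 : Ei) ∣ β - 1 → IsCoprime α β → β ≠ 0 →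
      J α β = ((UniqueFactorizationMonoid.factors α).map fun ρ =>
        ((UniqueFactorizationMonoid.factors β).map fun σ => cs ρ (ns σ)).sum).sum := by
    intro α β hα hβ hc hβ0
    unfold J
    congr 1
    refine Multiset.map_congr rfl fun ρ hρ => ?_
    obtain ⟨h1, h2⟩ := mem_factors hρ
    have h3 := (ndvd_three (prim_nr hα) h1 h2).1
    conv_lhs => rw [← prod_ns hβ hβ0]
    rw [cs_multiset h1 h3, Multiset.map_map]
    · rfl
    · intro x hx
      obtain ⟨σ, hσ, rfl⟩ := Multiset.mem_map.1 hx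
      obtain ⟨h4, h5⟩ := mem_factors hσ
      have h6 := (ndvd_three (prim_nr hβ) h4 h5).2
      intro h7
      exact cop_ndvd hc h1 h2 ((h7.trans (ns_assoc h6).dvd).trans h5)
  rw [key hα hβ hc hβ0, key hβ hα hc.symm hα0]
  have hswap := Multiset.sum_map_sum_map (UniqueFactorizationMonoid.factors β)
    (UniqueFactorizationMonoid.factors α) (f := fun (σ ρ : Ei) => cs σ (ns ρ))
  rw [hswap]
  congr 1
  refine Multiset.map_congr rfl fun ρ hρ => ?_
  congr 1
  refine Multiset.map_congr rfl fun σ hσ => ?_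
  obtain ⟨h1, h2⟩ := mem_factors hρ
  obtain ⟨h4, h5⟩ := mem_factors hσ
  have h3 := (ndvd_three (prim_nr hα) h1 h2).2
  have h6 := (ndvd_three (prim_nr hβ) h4 h5).2
  have p1 : Pq (ns ρ) := ⟨(ns_assoc h3).symm.prime h1, ns_prim h3⟩
  have p2 : Pq (ns σ) := ⟨(ns_assoc h6).symm.prime h4, ns_prim h6⟩
  have hn : ¬ ns ρ ∣ ns σ := by
    intro h7
    exact cop_ndvd hc h1 h2 (((ns_assoc h3).symm.dvd.trans h7).trans
      ((ns_assoc h6).dvd.trans h5))
  have hr := Pool.Agent.Y350.CT.rec (ns σ) (ns ρ) p2 p1 hn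
  rw [← cs_assoc (ns_assoc h3), ← cs_assoc (ns_assoc h6), hr]

lemma star_star' (x : Ei) : star (star x) = x := star_star x

lemma star_prime {ρ : Ei} (h : Prime ρ) : Prime (star ρ) :=
  (MulEquiv.prime_iff (starMulAut : Ei ≃* Ei)).2 h

lemma cs_star {ρ x : Ei} (hρ : Prime ρ) (h3 : ¬ ρ ∣ 3) (hx : ¬ ρ ∣ x) :
    cs (star ρ) (star x) = -cs ρ x := by
  have hs3 : ¬ star ρ ∣ 3 := by
    intro h
    apply h3
    have h1 := star_dvd' h
    rw [star_star] at h1
    have h2 : star (3 : Ei) = 3 := by decide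
    rwa [h2] at h1
  apply cs_of (star_prime hρ) hs3
  have h1 := star_dvd' (cs_spec hρ h3 hx)
  have h2 : nn (star ρ) = nn ρ := by
    unfold nn
    rw [nr_star]
  have h4 : ∀ c : ZMod 3, star (w ^ c.val : Ei) = w ^ (-c).val := by
    intro c
    rw [star_pow, star_w]
    revert c
    decide
  rw [star_sub, star_pow, h4] at h1
  rw [h2]
  exact h1

lemma J_star {α : Ei} (h0 : α ≠ 0) (h3 : ¬ (3 : ℤ) ∣ nr α) {x : Ei} (hx : IsCoprime α x) :
    J (star α) (star x) = -J α x := by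
  induction α using UniqueFactorizationMonoid.induction_on_prime with
  | h₁ => exact absurd rfl h0
  | h₂ u hu =>
    have hsu : IsUnit (star u) := hu.map (starMulAut : Ei ≃* Ei)
    rw [J_unit hu, J_unit hsu, neg_zero]
  | h₃ a p ha hp ih =>
    have hsa : star a ≠ 0 := by rwa [Ne, star_eq_zero]
    have hpn : ¬ (3 : ℤ) ∣ nr p := fun h => h3 (by rw [nr_mul]; exact Dvd.dvd.mul_right h _)
    have han : ¬ (3 : ℤ) ∣ nr a := fun h => h3 (by rw [nr_mul]; exact Dvd.dvd.mul_left h _)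
    rw [star_mul', J_mul (star_prime hp).ne_zero hsa, J_mul hp.ne_zero ha,
      ih ha han hx.of_mul_left_right, J_prime (star_prime hp), J_prime hp,
      cs_star hp (ndvd_three hpn hp dvd_rfl).1 (cop_ndvd hx.of_mul_left_left hp dvd_rfl)]
    ring

/-- rational integers -/
lemma J_int {a b : ℤ} (ha : ¬ (3 : ℤ) ∣ a) (hab : IsCoprime a b) : J (a : Ei) (b : Ei) = 0 := by
  have h0 : ((a : ℤ) : Ei) ≠ 0 := by
    intro h
    apply ha
    have h1 := congrArg QuadraticAlgebra.re h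
    rw [QuadraticAlgebra.re_intCast, QuadraticAlgebra.re_zero] at h1
    have h2 : a = 0 := h1
    rw [h2]
    exact dvd_zero 3
  have h3 : ¬ (3 : ℤ) ∣ nr ((a : ℤ) : Ei) := by
    rw [nr_int]
    exact fun h => ha (Int.prime_three.dvd_of_dvd_pow h)
  have hc : IsCoprime ((a : ℤ) : Ei) ((b : ℤ) : Ei) := by
    have := hab.map (Int.castRingHom Ei)
    simpa using this
  have h1 := J_star h0 h3 hc
  have e : ∀ n : ℤ, star ((n : ℤ) : Ei) = (n : Ei) := by
    intro n
    rw [eta (star (n : Ei)), star_re, star_im, QuadraticAlgebra.re_intCast,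
      QuadraticAlgebra.im_intCast]
    simp
  rw [e, e] at h1
  have : ∀ t : ZMod 3, t = -t → t = 0 := by decide
  exact this _ h1

/-- the value at the root of unity -/
lemma J_w {α : Ei} (h0 : α ≠ 0) (h3 : ¬ (3 : ℤ) ∣ nr α) :
    ∃ k : ℤ, nr α = 1 + 3 * k ∧ J α w = (k : ZMod 3) := by
  induction α using UniqueFactorizationMonoid.induction_on_prime with
  | h₁ => exact absurd rfl h0
  | h₂ u hu => exact ⟨0, by rw [isUnit_iff.1 hu]; rfl, by rw [J_unit hu, Int.cast_zero]⟩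
  | h₃ a p ha hp ih =>
    have hpn : ¬ (3 : ℤ) ∣ nr p := fun h => h3 (by rw [nr_mul]; exact Dvd.dvd.mul_right h _)
    have han : ¬ (3 : ℤ) ∣ nr a := fun h => h3 (by rw [nr_mul]; exact Dvd.dvd.mul_left h _)
    obtain ⟨k, hk, hJ⟩ := ih ha han
    have hp3 := (ndvd_three hpn hp dvd_rfl).1
    have h5 := Pool.Agent.Y715.T.RecC.nr_nn hp hp3
    have h6 := nr_nonneg p
    have h7 : nr p = 1 + 3 * (nn p : ℤ) := by omega
    have hw : cs p w = ((nn p : ℕ) : ZMod 3) := by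
      apply cs_of hp hp3
      have e : w ^ nn p = w ^ (((nn p : ℕ) : ZMod 3)).val := by
        rw [ZMod.val_natCast]
        conv_lhs => rw [← Nat.div_add_mod (nn p) 3]
        rw [pow_add, pow_mul, w_cube, one_pow, one_mul]
      rw [← e, sub_self]
      exact dvd_zero _
    refine ⟨nn p + k + 3 * (nn p * k), ?_, ?_⟩
    · rw [nr_mul, h7, hk]
      ring
    · rw [J_mul hp.ne_zero ha, J_prime hp, hw, hJ]
      push_cast
      have h3 : (3 : ZMod 3) = 0 := by decide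
      rw [h3]
      ring

lemma int_prim {a : ℤ} (h : ∃ m, a = 1 + 3 * m) : (3 : Ei) ∣ (a : Ei) - 1 := by
  obtain ⟨m, rfl⟩ := h
  refine ⟨(m : Ei), ?_⟩
  push_cast
  ring

lemma mk_form {α : Ei} {a b : ℤ} (ha : α.re = a) (hb : α.im = b) : α = (a : Ei) + b * w := by
  rw [eta α, ha, hb]

/-- **The law for three**, first case. -/
lemma law1 {α : Ei} (h : (3 : Ei) ∣ α - 1) {a n : ℤ} (ha : α.re = a) (hn : α.im = 3 * n)
    (hab : IsCoprime a (3 * n)) (hn3 : ¬ (3 : ℤ) ∣ n) : J α 3 = (n : ZMod 3) := by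
  obtain ⟨m, n', hm, hn'⟩ := prim_form h
  have ham : a = 1 + 3 * m := by rw [← ha, hm]
  have h3a : ¬ (3 : ℤ) ∣ a := by omega
  have h3α := prim_nr h
  have e0 : α = (a : Ei) + ((3 * n : ℤ) : Ei) * w := mk_form ha hn
  have hα0 : α ≠ 0 := by
    rintro rfl
    exact h3α (by rw [nr_zero_iff.2 rfl]; exact dvd_zero 3)
  have ha0 : ((a : ℤ) : Ei) ≠ 0 := by
    intro h0
    have h1 := congrArg QuadraticAlgebra.re h0
    rw [QuadraticAlgebra.re_intCast, QuadraticAlgebra.re_zero] at h1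
    have h2 : a = 0 := h1
    rw [h2] at h3a
    exact h3a (dvd_zero 3)
  have hwu : IsUnit (w : Ei) := isUnit_iff.2 (by decide)
  have hca : IsCoprime ((a : ℤ) : Ei) (((3 * n : ℤ) : Ei)) := by
    have := hab.map (Int.castRingHom Ei)
    simpa using this
  have hcaw : IsCoprime ((a : ℤ) : Ei) (((3 * n : ℤ) : Ei) * w) :=
    (isCoprime_mul_unit_right_right hwu _ _).2 hca
  have hca1 : IsCoprime ((a : ℤ) : Ei) w := (isCoprime_one_right (x := ((a : ℤ) : Ei))).of_isCoprime_of_dvd_right hwu.dvd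
  have c1 : IsCoprime ((a : ℤ) : Ei) α := by
    rw [e0, add_comm, ← mul_one ((a : ℤ) : Ei), mul_one ((a : ℤ) : Ei)]
    have := (IsCoprime.add_mul_left_right_iff (z := 1)).2 hcaw
    rwa [mul_one] at this
  have hαb : IsCoprime α (((3 * n : ℤ) : Ei)) := by
    rw [e0]
    have := (IsCoprime.add_mul_left_left_iff (z := (w : Ei))).2 hca
    exact this
  have hαw : IsCoprime α w := by
    have h1 : IsCoprime α 1 := isCoprime_one_right
    exact h1.of_isCoprime_of_dvd_right hwu.dvd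
  have hαbw : IsCoprime α (((3 * n : ℤ) : Ei) * w) := hαb.mul_right hαw
  have h3n : ((3 * n : ℤ) : Ei) = 3 * (n : Ei) := by push_cast; ring
  have hα3 : IsCoprime α 3 := by
    rw [h3n] at hαb
    exact hαb.of_mul_right_left
  have hαn : IsCoprime α (n : Ei) := by
    rw [h3n] at hαb
    exact hαb.of_mul_right_right
  have h3a' : ¬ (3 : ℤ) ∣ nr ((a : ℤ) : Ei) := by
    rw [nr_int]
    exact fun h => h3a (Int.prime_three.dvd_of_dvd_pow h)
  have z3 : (3 : ZMod 3) = 0 := by decide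
  -- the value modulo `a`
  have s1 : J ((a : ℤ) : Ei) α = J ((a : ℤ) : Ei) (((3 * n : ℤ) : Ei) * w) :=
    J_congr h3a' c1 ⟨1, by rw [e0]; ring⟩
  rw [J_mul_right h3a' hca hca1, J_int h3a hab, zero_add] at s1
  obtain ⟨k, hk, hk'⟩ := J_w ha0 h3a'
  rw [hk'] at s1
  have e1 : k = 2 * m + 3 * m ^ 2 := by
    rw [nr_int, ham] at hk
    linarith
  -- the value modulo `α`
  have s2 : J α ((a : ℤ) : Ei) = J α (-(((3 * n : ℤ) : Ei) * w)) := by
    refine J_congr h3α c1.symm ⟨1, ?_⟩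
    rw [mul_one, sub_neg_eq_add, ← e0]
  rw [J_neg h3α hαbw, J_mul_right h3α hαb hαw, h3n, J_mul_right h3α hα3 hαn] at s2
  obtain ⟨k', hk1, hk2⟩ := J_w hα0 h3α
  rw [hk2] at s2
  have e2 : k' = 2 * m + 3 * m ^ 2 - n - 3 * m * n + 3 * n ^ 2 := by
    have e3 : nr α = (1 + 3 * m) ^ 2 - (1 + 3 * m) * (3 * n) + (3 * n) ^ 2 := by
      unfold nr
      rw [hm, hn]
    rw [e3] at hk1
    linarith
  -- the value at `n`
  have s3 : J α (n : Ei) = 0 := by
    have key : ∀ n1 : ℤ, (∃ c, n1 = 1 + 3 * c) → n1 ∣ n → IsCoprime α (n1 : Ei) →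
        J α (n1 : Ei) = 0 := by
      intro n1 hn1 hd hc
      have hp1 := int_prim hn1
      have h31 : ¬ (3 : ℤ) ∣ n1 := by
        obtain ⟨c, hc⟩ := hn1
        omega
      have h10 : ((n1 : ℤ) : Ei) ≠ 0 := by
        intro h0
        have h1 := congrArg QuadraticAlgebra.re h0
        rw [QuadraticAlgebra.re_intCast, QuadraticAlgebra.re_zero] at h1
        have h2 : n1 = 0 := h1
        rw [h2] at h31
        exact h31 (dvd_zero 3)
      have h3n1 : ¬ (3 : ℤ) ∣ nr ((n1 : ℤ) : Ei) := by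
        rw [nr_int]
        exact fun h => h31 (Int.prime_three.dvd_of_dvd_pow h)
      rw [J_comm h hp1 hc hα0 h10]
      have t1 : J ((n1 : ℤ) : Ei) α = J ((n1 : ℤ) : Ei) ((a : ℤ) : Ei) := by
        refine J_congr h3n1 hc.symm ?_
        obtain ⟨d, hd⟩ := hd
        refine ⟨3 * (d : Ei) * w, ?_⟩
        rw [e0, hd]
        push_cast
        ring
      rw [t1]
      refine J_int h31 ?_
      have h2 : IsCoprime a n := hab.of_mul_right_right
      exact (h2.of_isCoprime_of_dvd_right hd).symm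
    have h0 : n % 3 = 1 ∨ n % 3 = 2 := by omega
    have h1 : (∃ c, n = 1 + 3 * c) ∨ ∃ c, -n = 1 + 3 * c := by
      rcases h0 with h0 | h0
      · exact Or.inl ⟨n / 3, by omega⟩
      · exact Or.inr ⟨(-n) / 3, by omega⟩
    rcases h1 with h1 | h1
    · exact key n h1 dvd_rfl hαn
    · rw [← J_neg h3α hαn]
      have h2 := key (-n) h1 (by rw [neg_dvd]) (by push_cast; exact hαn.neg_right)
      push_cast at h2
      exact h2
  rw [s3, add_zero] at s2
  have s4 := J_comm h (int_prim ⟨m, ham⟩) c1.symm hα0 ha0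
  rw [s4, s1, e1, e2] at s2
  push_cast at s2
  rw [z3] at s2
  linear_combination -s2

/-- two primary elements of norms `7` and `13` -/
lemma J_seven : J (1 + 3 * w) 3 = 1 ∧ J (4 + 3 * w) 3 = 1 := by
  constructor
  · have h := law1 (α := 1 + 3 * w) (a := 1) (n := 1) ⟨w, by ring⟩ (by decide) (by decide)
      isCoprime_one_left (by decide)
    rw [h]
    decide
  · have h := law1 (α := 4 + 3 * w) (a := 4) (n := 1) ⟨1 + w, by ring⟩ (by decide) (by decide)
      ⟨1, -1, by norm_num⟩ (by decide)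
    rw [h]
    decide

lemma cop_re_im {γ : Ei} (h : ∀ l : ℕ, l.Prime → ¬ ((l : ℤ) ^ 2) ∣ nr γ) :
    IsCoprime γ.re γ.im := by
  rw [Int.isCoprime_iff_gcd_eq_one]
  by_contra hg
  obtain ⟨l, hl, hd⟩ := Nat.exists_prime_and_dvd hg
  have h1 : (l : ℤ) ∣ γ.re := (Int.natCast_dvd_natCast.2 hd).trans (Int.gcd_dvd_left ..)
  have h2 : (l : ℤ) ∣ γ.im := (Int.natCast_dvd_natCast.2 hd).trans (Int.gcd_dvd_right ..)
  apply h l hl
  obtain ⟨a, ha⟩ := h1
  obtain ⟨b, hb⟩ := h2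
  refine ⟨a ^ 2 - a * b + b ^ 2, ?_⟩
  unfold nr
  rw [ha, hb]
  ring

lemma law2 {γ : Ei} (h3 : (3 : Ei) ∣ γ - 1) (h : ∀ l : ℕ, l.Prime → ¬ ((l : ℤ) ^ 2) ∣ nr γ)
    (hk : kx γ ≠ 0) : J γ 3 = kx γ := by
  obtain ⟨m, n, hm, hn⟩ := prim_form h3
  have h1 := cop_re_im h
  rw [hn] at h1
  rw [kx_prim h3 hn] at hk ⊢
  refine law1 h3 rfl hn h1 fun hd => hk ?_
  exact (ZMod.intCast_zmod_eq_zero_iff_dvd n 3).2 (by exact_mod_cast hd)

lemma kx_aux : kx (1 + 3 * w) = 1 ∧ kx (4 + 3 * w) = 1 := by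
  constructor
  · rw [kx_prim (n := 1) ⟨w, by ring⟩ (by decide)]
    decide
  · rw [kx_prim (n := 1) ⟨1 + w, by ring⟩ (by decide)]
    decide

/-- **The law for three.** -/
theorem law {π : Ei} (hπ : Pq π) {p : ℕ} (hp : p.Prime) (hn : nr π = p) : cs π 3 = kx π := by
  rw [← J_prime hπ.prime]
  have h3π := prim_nr hπ.three
  by_cases hk : kx π ≠ 0
  · refine law2 hπ.three (fun l hl hd => ?_) hk
    rw [hn] at hd
    have h1 : l ^ 2 ∣ p := by exact_mod_cast hd
    have h2 := (Nat.dvd_prime hp).1 h1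
    have h3 := hl.one_lt
    rcases h2 with h2 | h2
    · nlinarith
    · rw [← h2] at hp
      exact (Nat.Prime.prime hl).irreducible.not_isUnit (by
        have := hp.prime.irreducible.isUnit_or_isUnit (pow_two l)
        rcases this with h | h <;> exact h)
  · push Not at hk
    have key : ∀ (β : Ei) (q : ℕ), q.Prime → nr β = q → q ≠ p → (3 : Ei) ∣ β - 1 →
        kx β = 1 → J β 3 = 1 → J π 3 = kx π := by
      intro β q hq hq' hne hβ3 hkβ hJβ
      have hβ0 : β ≠ 0 := by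
        rintro rfl
        rw [nr_zero_iff.2 rfl] at hq'
        exact hq.ne_zero (by exact_mod_cast hq'.symm)
      have hγ3 : (3 : Ei) ∣ π * β - 1 := by
        have e : π * β - 1 = (π - 1) * β + (β - 1) := by ring
        rw [e]
        exact dvd_add (Dvd.dvd.mul_right hπ.three _) hβ3
      have hk1 : kx (π * β) = 1 := by
        rw [kx_mul h3π (prim_nr hβ3), hk, hkβ, zero_add]
      have h1 : J (π * β) 3 = kx (π * β) := by
        refine law2 hγ3 (fun l hl hd => ?_) (by rw [hk1]; decide)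
        rw [nr_mul, hn, hq'] at hd
        have h1 : l ^ 2 ∣ p * q := by exact_mod_cast hd
        have h2 : Squarefree (p * q) := by
          rw [Nat.squarefree_mul ((Nat.coprime_primes hp hq).2 (Ne.symm hne))]
          exact ⟨hp.prime.squarefree, hq.prime.squarefree⟩
        rw [pow_two] at h1
        exact hl.prime.not_isUnit (h2 l h1)
      rw [J_mul hπ.prime.ne_zero hβ0, hJβ, hk1] at h1
      rw [hk]
      linear_combination h1
    by_cases hp7 : p = 7
    · exact key (4 + 3 * w) 13 (by norm_num) (by decide) (by omega) ⟨1 + w, by ring⟩ kx_aux.2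
        J_seven.2
    · exact key (1 + 3 * w) 7 (by norm_num) (by decide) (by omega) ⟨w, by ring⟩ kx_aux.1
        J_seven.1

end Pool.Agent.Run7.h135.Kx
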