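import Pool.Agent.Run7.h135.Q4L1

/-!
Regularized sums over the Gaussian integers for the quartic characters times the symbol of `-2`
(after `Y699/Reg2` and `Run7/h26/CN/Th`).
-/

set_option autoImplicit false
set_option linter.unusedSectionVars false

open Filter Complex
open scoped Topology PeriodPair
open H667R3 hiding sq
open Pool.Agent.TH936.CM Pool.Agent.W192.HK

namespace Pool.Agent.Run7.h135.Q4L

open Pool.Agent.Y699
open H385 (ZI RQ im1 nrm)
open Pool.Agent.H304R3.HK (tc)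
open Pool.Agent.W164.RC (tc_mul tc_star two2 prim_iff_dvd)
open Pool.Agent.H304R2.EC.A1 (prim prim_mul prim_cancel prim_one prim_norm_odd prim_star eq_one_of_prim
  norm_def' re_mul' im_mul' eq_of_dvd prim_ne_zero)

variable {L : PeriodPair} {Ω : ℂ} {ι : Type} [DecidableEq ι] {pr : ι → ZI}

open Classical in
/-- the character with conditions -/
noncomputable def cqt (pr : ι → ZI) (S T : Finset ι) (a : ZI) : ℂ :=
  if prim a ∧ ∀ i ∈ T, ¬ pr i ∣ a then tc (mu a * c4 pr S e1 a) else 0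

lemma cqt_empty (S : Finset ι) : cqt pr S ∅ = cq pr S := by
  classical
  funext a
  unfold cqt cq
  by_cases h : prim a
  · rw [if_pos h, if_pos ⟨h, by simp⟩]
  · rw [if_neg h, if_neg fun h' => h h'.1]

lemma cqt_zero {S T : Finset ι} {a : ZI} (h : ¬ (prim a ∧ ∀ i ∈ T, ¬ pr i ∣ a)) :
    cqt pr S T a = 0 := by
  unfold cqt
  rw [if_neg h]

lemma cqt_eq {S T : Finset ι} {a : ZI} (h : prim a ∧ ∀ i ∈ T, ¬ pr i ∣ a) :
    cqt pr S T a = tc (mu a * c4 pr S e1 a) := by
  unfold cqt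
  rw [if_pos h]

lemma norm_tc_unit {u : ZI} (h : u.norm = 1) : ‖tc u‖ = 1 := unit_tc h

lemma cqt_bd (hp : PF pr) (S T : Finset ι) (a : ZI) : ‖cqt pr S T a‖ ≤ 1 := by
  classical
  by_cases h : prim a ∧ ∀ i ∈ T, ¬ pr i ∣ a
  · rw [cqt_eq h]
    by_cases hc : ∃ i ∈ S, pr i ∣ a
    · obtain ⟨i, hi, hd⟩ := hc
      rw [c4_zero e1 hi hd, mul_zero, tc_zero, norm_zero]
      exact zero_le_one
    · push Not at hc
      rw [unit_tc (mu_c4_norm hp S hc)]
  · rw [cqt_zero h, norm_zero]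
    exact zero_le_one

lemma RSq_insert (h : IsLat L RG Ω) (hp : PF pr) (S T : Finset ι) (i : ι) (hi : i ∉ T) {δ : ℝ}
    (hδ : 0 < δ) : RS (cqt pr S (insert i T)) δ = RS (cqt pr S T) δ -
      tc (mu (pr i) * c4 pr S e1 (pr i)) / tc (pr i) *
        RS (cqt pr S T) (δ * Complex.normSq (tc (pr i))) := by
  classical
  have e1' : (fun b => cqt pr S T (pr i * b)) =
      fun b => tc (mu (pr i) * c4 pr S e1 (pr i)) * cqt pr S T b := by
    funext b
    have h1 : (prim (pr i * b) ∧ ∀ j ∈ T, ¬ pr j ∣ pr i * b) ↔ (prim b ∧ ∀ j ∈ T, ¬ pr j ∣ b) := by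
      rw [prim_mul_iff (hp.pp i).prm]
      refine and_congr_right fun _ => forall₂_congr fun j hj => ?_
      rw [hp.dvd_mul (fun h' : i = j => hi (by rw [h']; exact hj))]
    by_cases h2 : prim b ∧ ∀ j ∈ T, ¬ pr j ∣ b
    · rw [cqt_eq h2, cqt_eq (h1.2 h2), c4_mul hp, mu_mul (hp.pp i).prm h2.1, ← tc_mul]
      congr 1
      ring
    · rw [cqt_zero h2, cqt_zero (fun h => h2 (h1.1 h)), mul_zero]
  have e2 := RS_dvd (hp.pp i).ne (cqt pr S T) δ
  rw [e1'] at e2
  have e3 : RS (fun b => tc (mu (pr i) * c4 pr S e1 (pr i)) * cqt pr S T b)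
      (δ * Complex.normSq (tc (pr i))) =
      tc (mu (pr i) * c4 pr S e1 (pr i)) * RS (cqt pr S T) (δ * Complex.normSq (tc (pr i))) := by
    unfold RS
    rw [← tsum_mul_left]
    exact tsum_congr fun b => by ring
  rw [e3] at e2
  have e4 : RS (cqt pr S (insert i T)) δ = RS (cqt pr S T) δ -
      RS (fun a => if pr i ∣ a then cqt pr S T a else 0) δ := by
    have s1 := summ_bd h hδ (cqt_bd hp S T)
    have s2 := summ_bd h hδ (f := fun a => if pr i ∣ a then cqt pr S T a else 0) (C := 1) (by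
      intro a
      split_ifs
      · exact cqt_bd hp S T a
      · simp)
    unfold RS
    rw [← s1.tsum_sub s2]
    refine tsum_congr fun a => ?_
    rw [← sub_mul]
    congr 1
    by_cases h1 : pr i ∣ a
    · rw [cqt_zero (T := insert i T), if_pos h1, sub_self]
      rintro ⟨-, h2⟩
      exact h2 i (Finset.mem_insert_self _ _) h1
    · rw [if_neg h1, sub_zero]
      unfold cqt
      refine if_congr (and_congr_right fun _ => ?_) rfl rfl
      constructor
      · intro h2 j hj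
        exact h2 j (Finset.mem_insert_of_mem hj)
      · intro h2 j hj
        rcases Finset.mem_insert.1 hj with rfl | hj
        · exact h1
        · exact h2 j hj
  rw [e4, e2]
  ring

theorem lim_cqt (h : IsLat L RG Ω) (hp : PF pr) (S : Finset ι) {l : ℂ}
    (hl : Tendsto (RS (cqt pr S ∅)) (𝓝[>] 0) (𝓝 l)) (T : Finset ι) :
    Tendsto (RS (cqt pr S T)) (𝓝[>] 0)
      (𝓝 (l * ∏ i ∈ T, (1 - tc (mu (pr i) * c4 pr S e1 (pr i)) / tc (pr i)))) := by
  induction T using Finset.induction_on with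
  | empty => rw [Finset.prod_empty, mul_one]; exact hl
  | insert i T hi ih =>
    have hn : 0 < Complex.normSq (tc (pr i)) := Complex.normSq_pos.2 (tc_ne (hp.pp i).ne)
    have h1 := ih.sub ((tendsto_scale ih hn).const_mul
      (tc (mu (pr i) * c4 pr S e1 (pr i)) / tc (pr i)))
    rw [Finset.prod_insert hi]
    have e : l * ∏ i ∈ T, (1 - tc (mu (pr i) * c4 pr S e1 (pr i)) / tc (pr i)) -
        tc (mu (pr i) * c4 pr S e1 (pr i)) /
        tc (pr i) * (l * ∏ i ∈ T, (1 - tc (mu (pr i) * c4 pr S e1 (pr i)) / tc (pr i))) =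
        l * ((1 - tc (mu (pr i) * c4 pr S e1 (pr i)) / tc (pr i)) *
          ∏ i ∈ T, (1 - tc (mu (pr i) * c4 pr S e1 (pr i)) / tc (pr i))) := by ring
    rw [e] at h1
    refine h1.congr' ?_
    filter_upwards [self_mem_nhdsWithin] with δ (hδ : 0 < δ)
    exact (RSq_insert h hp S T i hi hδ).symm

open Classical in
/-- one plus the quartic symbol, zero at the multiples -/
noncomputable def W1 (π a : ZI) : ℂ := if π ∣ a then 0 else 1 + tc (q4 π a)

lemma W1_of_dvd {π a : ZI} (h : π ∣ a) : W1 π a = 0 := by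
  unfold W1
  rw [if_pos h]

lemma W1_of_not {π a : ZI} (h : ¬ π ∣ a) : W1 π a = 1 + tc (q4 π a) := by
  unfold W1
  rw [if_neg h]

lemma W1_per {π : ZI} (h : PP π) {a b : ZI} (hab : π ∣ a - b) : W1 π a = W1 π b := by
  have h1 : π ∣ a ↔ π ∣ b := by
    constructor
    · intro h'; have := dvd_sub h' hab; rwa [sub_sub_cancel] at this
    · intro h'; have := dvd_add hab h'; rwa [sub_add_cancel] at this
  by_cases hb : π ∣ b
  · rw [W1_of_dvd hb, W1_of_dvd (h1.2 hb)]
  · rw [W1_of_not hb, W1_of_not (fun h' => hb (h1.1 h')), q4_per h hab]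

lemma W1_norm {π : ZI} (h : PP π) (a : ZI) : ‖W1 π a‖ ≤ 2 := by
  by_cases ha : π ∣ a
  · rw [W1_of_dvd ha, norm_zero]
    norm_num
  · rw [W1_of_not ha]
    refine (norm_add_le _ _).trans ?_
    rw [norm_one, unit_tc (q4_norm h ha)]
    norm_num

open Classical in
/-- the weight of a primary element -/
noncomputable def kq (pr : ι → ZI) (V : Finset ι) (a : ZI) : ℂ :=
  if prim a then tc (mu a) * ∏ i ∈ V, W1 (pr i) a else 0

lemma kq_of {V : Finset ι} {a : ZI} (h : prim a) : kq pr V a = tc (mu a) * ∏ i ∈ V, W1 (pr i) a := by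
  unfold kq
  rw [if_pos h]

lemma kq_of_not {V : Finset ι} {a : ZI} (h : ¬ prim a) : kq pr V a = 0 := by
  unfold kq
  rw [if_neg h]

lemma prod_W1_norm (hp : PF pr) (V : Finset ι) (f : ι → ZI) :
    ‖∏ i ∈ V, W1 (pr i) (f i)‖ ≤ 2 ^ V.card := by
  rw [norm_prod, ← Finset.prod_const]
  exact Finset.prod_le_prod (fun i _ => norm_nonneg _) fun i _ => W1_norm (hp.pp i) _

lemma kq_bd (hp : PF pr) (V : Finset ι) (a : ZI) : ‖kq pr V a‖ ≤ 2 ^ V.card := by
  by_cases h : prim a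
  · rw [kq_of h, norm_mul, unit_tc (mu_norm a), one_mul]
    exact prod_W1_norm hp V fun _ => a
  · rw [kq_of_not h, norm_zero]
    positivity

theorem sum_cqt (V : Finset ι) (a : ZI) :
    ∑ S ∈ V.powerset, cqt pr S (V \ S) a = kq pr V a := by
  classical
  by_cases ha : prim a
  · rw [kq_of ha]
    by_cases hc : ∃ i ∈ V, pr i ∣ a
    · obtain ⟨i, hi, hia⟩ := hc
      rw [Finset.prod_eq_zero hi (W1_of_dvd hia), mul_zero]
      refine Finset.sum_eq_zero fun S _ => ?_
      by_cases hS : i ∈ S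
      · unfold cqt
        rw [c4_zero e1 hS hia, mul_zero, tc_zero, ite_self]
      · rw [cqt_zero]
        rintro ⟨-, h2⟩
        exact h2 i (Finset.mem_sdiff.2 ⟨hi, hS⟩) hia
    · push Not at hc
      have h1 : ∀ S ∈ V.powerset, cqt pr S (V \ S) a = tc (mu a) * ∏ i ∈ S, tc (q4 (pr i) a) := by
        intro S hS
        rw [Finset.mem_powerset] at hS
        rw [cqt_eq ⟨ha, fun i hi => hc i (Finset.mem_sdiff.1 hi).1⟩, tc_mul]
        congr 1
        unfold c4
        rw [tc_prod]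
        refine Finset.prod_congr rfl fun i hi => ?_
        unfold fe
        rw [if_neg (hc i (hS hi)), pow_one]
      rw [Finset.sum_congr rfl h1, ← Finset.mul_sum, ← Finset.prod_one_add]
      congr 1
      exact Finset.prod_congr rfl fun i hi => (W1_of_not (hc i hi)).symm
  · rw [kq_of_not ha]
    exact Finset.sum_eq_zero fun S _ => cqt_zero (fun h => ha h.1)

lemma RS_sum_cqt (h : IsLat L RG Ω) (hp : PF pr) (V : Finset ι) {δ : ℝ} (hδ : 0 < δ) :
    ∑ S ∈ V.powerset, RS (cqt pr S (V \ S)) δ = RS (kq pr V) δ := by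
  unfold RS
  rw [← Summable.tsum_finsetSum]
  · refine tsum_congr fun a => ?_
    rw [← sum_cqt V a, Finset.sum_mul]
  · intro S _
    exact summ_bd h hδ (cqt_bd hp S (V \ S))

/-! ### The classes modulo eight -/

/-- the primary classes modulo eight -/
def U8 : Finset ZI := {⟨1, 0⟩, ⟨5, 0⟩, ⟨3, 2⟩, ⟨7, 2⟩, ⟨1, 4⟩, ⟨5, 4⟩, ⟨3, 6⟩, ⟨7, 6⟩}

lemma U8_prim {u : ZI} (h : u ∈ U8) : prim u := by
  unfold U8 at h
  simp only [Finset.mem_insert, Finset.mem_singleton] at h
  rcases h with h | h | h | h | h | h | h | h <;> rw [h] <;> exact ⟨by decide, by decide⟩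

lemma eight_dvd {a : ZI} (h1 : a.re % 8 = 0) (h2 : a.im % 8 = 0) : (8 : ZI) ∣ a := by
  refine ⟨⟨a.re / 8, a.im / 8⟩, ?_⟩
  apply Zsqrtd.ext
  · rw [re_mul']
    have e1 : (8 : ZI).re = 8 := rfl
    have e2 : (8 : ZI).im = 0 := rfl
    rw [e1, e2]
    simp only
    omega
  · rw [im_mul']
    have e1 : (8 : ZI).re = 8 := rfl
    have e2 : (8 : ZI).im = 0 := rfl
    rw [e1, e2]
    simp only
    omega

lemma of_eight_dvd {a : ZI} (h : (8 : ZI) ∣ a) : a.re % 8 = 0 ∧ a.im % 8 = 0 := by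
  obtain ⟨c, rfl⟩ := h
  rw [re_mul', im_mul']
  have e1 : (8 : ZI).re = 8 := rfl
  have e2 : (8 : ZI).im = 0 := rfl
  rw [e1, e2]
  omega

/-- a primary element is congruent to a class modulo eight -/
lemma exists_U8 {a : ZI} (h : prim a) : ∃ u ∈ U8, (8 : ZI) ∣ a - u := by
  obtain ⟨h1, h2⟩ := h
  have key : ∀ x y : ℤ, (⟨x, y⟩ : ZI) ∈ U8 → a.re % 8 = x % 8 → a.im % 8 = y % 8 →
      ∃ u ∈ U8, (8 : ZI) ∣ a - u := by
    intro x y hm h3 h4
    refine ⟨⟨x, y⟩, hm, eight_dvd ?_ ?_⟩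
    · rw [Zsqrtd.re_sub]; simp only; omega
    · rw [Zsqrtd.im_sub]; simp only; omega
  have h5 : a.im % 8 = 0 ∨ a.im % 8 = 2 ∨ a.im % 8 = 4 ∨ a.im % 8 = 6 := by omega
  rcases h5 with h5 | h5 | h5 | h5
  · have h6 : a.re % 8 = 1 ∨ a.re % 8 = 5 := by omega
    rcases h6 with h6 | h6
    · exact key 1 0 (by decide) (by omega) (by omega)
    · exact key 5 0 (by decide) (by omega) (by omega)
  · have h6 : a.re % 8 = 3 ∨ a.re % 8 = 7 := by omega
    rcases h6 with h6 | h6
    · exact key 3 2 (by decide) (by omega) (by omega)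
    · exact key 7 2 (by decide) (by omega) (by omega)
  · have h6 : a.re % 8 = 1 ∨ a.re % 8 = 5 := by omega
    rcases h6 with h6 | h6
    · exact key 1 4 (by decide) (by omega) (by omega)
    · exact key 5 4 (by decide) (by omega) (by omega)
  · have h6 : a.re % 8 = 3 ∨ a.re % 8 = 7 := by omega
    rcases h6 with h6 | h6
    · exact key 3 6 (by decide) (by omega) (by omega)
    · exact key 7 6 (by decide) (by omega) (by omega)

/-- the classes are different modulo eight -/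
lemma U8_unique {u w : ZI} (hu : u ∈ U8) (hw : w ∈ U8) (h : (8 : ZI) ∣ u - w) : u = w := by
  have h1 := of_eight_dvd h
  rw [Zsqrtd.re_sub, Zsqrtd.im_sub] at h1
  have hr : ∀ x ∈ U8, 0 ≤ x.re ∧ x.re < 8 ∧ 0 ≤ x.im ∧ x.im < 8 := by decide
  have h2 := hr u hu
  have h3 := hr w hw
  apply Zsqrtd.ext
  · omega
  · omega

lemma eight_cop {D : ZI} (hD : prim D) : IsCoprime (8 : ZI) D := by
  have h5 : IsCoprime D pi1 := prim_cop hD
  have h6 : IsCoprime (pi1 ^ 6) D := (h5.symm).pow_left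
  have e6 : (8 : ZI) = pi1 ^ 6 * ⟨0, 1⟩ := by decide
  rw [e6]
  refine IsCoprime.mul_left h6 ?_
  exact ⟨⟨0, -1⟩, 0, by rw [zero_mul, add_zero]; decide⟩

/-- the class of `a` relative to `D` -/
lemma exists_class {D a : ZI} (hD : prim D) (ha : prim a) : ∃ u ∈ U8, (8 : ZI) ∣ a - D * u := by
  obtain ⟨x, y, hxy⟩ := eight_cop hD
  -- `y D = 1` modulo eight
  set b : ZI := a * y with hb
  have h1 : (8 : ZI) ∣ a - D * b := ⟨a * x, by rw [hb]; linear_combination (-a) * hxy⟩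
  have hpb : prim b := by
    have h2 : two2 ∣ D * b - 1 := by
      have h3 := (prim_iff_dvd a).1 ha
      have h4 := dvd_sub h3 (two2_dvd_eight.trans h1)
      have e : a - 1 - (a - D * b) = D * b - 1 := by ring
      rwa [e] at h4
    have h3 : prim (D * b) := (prim_iff_dvd _).2 h2
    exact (prim_mul_iff hD).1 h3
  obtain ⟨u, hu, hd⟩ := exists_U8 hpb
  refine ⟨u, hu, ?_⟩
  have := dvd_add h1 (hd.mul_left D)
  have e : a - D * b + D * (b - u) = a - D * u := by ring
  rwa [e] at this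

lemma class_unique {D a u w : ZI} (hD : prim D) (hu : u ∈ U8) (hw : w ∈ U8)
    (h1 : (8 : ZI) ∣ a - D * u) (h2 : (8 : ZI) ∣ a - D * w) : u = w := by
  apply U8_unique hu hw
  have h3 := dvd_sub h2 h1
  have e : a - D * w - (a - D * u) = D * (u - w) := by ring
  rw [e] at h3
  exact (eight_cop hD).dvd_of_dvd_mul_left h3

lemma eight_ne : (8 : ZI) ≠ 0 := by decide

lemma tc_eight : tc (8 : ZI) = 8 := by
  have := tc_int 8
  push_cast at this
  exact this

lemma prim_eight {a : ZI} (ha : prim a) (t : ZI) : prim (a + 8 * t) := by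
  rw [prim_iff_dvd] at ha ⊢
  have e : a + 8 * t - 1 = (a - 1) + 8 * t := by ring
  rw [e]
  exact dvd_add ha (two2_dvd_eight.mul_right _)

/-- the weight of a division point -/
noncomputable def WW (pr : ι → ZI) (V : Finset ι) (t : ZI) : ℂ := ∏ i ∈ V, W1 (pr i) (8 * t)

lemma WW_per (hp : PF pr) (V : Finset ι) {a b : ZI} (hab : DD pr V ∣ a - b) :
    WW pr V a = WW pr V b := by
  unfold WW
  refine Finset.prod_congr rfl fun i hi => W1_per (hp.pp i) ?_
  rw [← mul_sub]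
  exact ((dvd_DD hi).trans hab).mul_left _

lemma WW_norm (hp : PF pr) (V : Finset ι) (t : ZI) : ‖WW pr V t‖ ≤ 2 ^ V.card :=
  prod_W1_norm hp V fun _ => 8 * t

lemma kq_shift (hp : PF pr) (V : Finset ι) {u : ZI} (hu : prim u) (t : ZI) :
    kq pr V (DD pr V * u + 8 * t) = tc (mu (DD pr V)) * tc (mu u) * WW pr V t := by
  have h1 : prim (DD pr V * u + 8 * t) := prim_eight (prim_mul (DD_prim hp V) hu) t
  have h2 : mu (DD pr V * u + 8 * t) = mu (DD pr V) * mu u := by
    rw [← mu_mul (DD_prim hp V) hu]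
    apply mu_per
    exact ⟨t, by ring⟩
  rw [kq_of h1, h2, tc_mul]
  congr 1
  unfold WW
  refine Finset.prod_congr rfl fun i hi => W1_per (hp.pp i) ?_
  have e : DD pr V * u + 8 * t - 8 * t = DD pr V * u := by ring
  rw [e]
  exact (dvd_DD hi).mul_right _

/-- the sum over one class modulo eight -/
noncomputable def RU8 (pr : ι → ZI) (V : Finset ι) (u : ZI) (δ : ℝ) : ℂ :=
  ∑' t : ZI, WW pr V t * fd δ (tc (DD pr V * u + 8 * t))

lemma inj_eight (a : ZI) : Function.Injective (fun t : ZI => a + 8 * t) := by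
  intro x y hxy
  have h1 : a + 8 * x = a + 8 * y := hxy
  have h2 : (8 : ZI) * x = 8 * y := by linear_combination h1
  exact mul_left_cancel₀ eight_ne h2

theorem RU8_eq (h : IsLat L RG Ω) (hp : PF pr) (V : Finset ι) [Fintype (RQ (DD pr V))] (u : ZI) {δ : ℝ}
    (hδ : 0 < δ) : RU8 pr V u δ = Ω / (8 * tc (DD pr V)) *
      ∑ q : RQ (DD pr V), WW pr V q.out *
        EG Ω (δ * Complex.normSq (tc (DD pr V) * 8 / Ω)) (Ω * tc u / 8 + zq Ω (DD pr V) q.out) := by
  set D := DD pr V with hD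
  have hD0 : D ≠ 0 := DD_ne hp V
  have hDc := tc_ne hD0
  have hΩ := h.ne
  have hs1 : Summable (fun t : ZI => WW pr V t * fd δ (tc (D * u + 8 * t))) := by
    have h1 := (summ_tc h hδ).comp_injective (inj_eight (D * u))
    refine Summable.of_norm_bounded (h1.norm.mul_left (2 ^ V.card)) fun t => ?_
    rw [norm_mul]
    exact mul_le_mul_of_nonneg_right (WW_norm hp V t) (norm_nonneg _)
  set c : ℂ := tc D * 8 / Ω with hc
  have hc0 : c ≠ 0 := div_ne_zero (mul_ne_zero hDc (by norm_num)) hΩ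
  have hs2 : Summable (fun p : RQ D × ZI =>
      WW pr V (prt' D hD0 p) * fd δ (tc (D * u + 8 * prt' D hD0 p))) :=
    ((prt' D hD0).summable_iff (f := fun t => WW pr V t * fd δ (tc (D * u + 8 * t)))).2 hs1
  have e1 : RU8 pr V u δ = ∑' t : ZI, WW pr V t * fd δ (tc (D * u + 8 * t)) := rfl
  rw [e1, ← (prt' D hD0).tsum_eq, hs2.tsum_prod' (fun q => hs2.prod_factor q), tsum_fintype,
    Finset.mul_sum]
  refine Finset.sum_congr (by ext; simp) fun q _ => ?_
  unfold EG
  rw [← tsum_mul_left, ← tsum_mul_left]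
  refine tsum_congr fun b => ?_
  have e2 : WW pr V (prt' D hD0 (q, b)) = WW pr V q.out := by
    apply WW_per hp
    rw [prt'_apply]
    exact ⟨b, by ring⟩
  have e3 : tc (D * u + 8 * prt' D hD0 (q, b)) =
      c * (Ω * tc u / 8 + zq Ω D q.out + Ω * tc b) := by
    rw [prt'_apply, tc_add, tc_mul, tc_mul, tc_add, tc_mul, tc_eight, hc]
    unfold zq
    field_simp
    ring
  rw [e2, e3, fd_mul, hc, inv_div]
  ring

/-- the regularized sum in terms of the classes -/
theorem RS_kq_classes (h : IsLat L RG Ω) (hp : PF pr) (V : Finset ι) {δ : ℝ} (hδ : 0 < δ) :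
    RS (kq pr V) δ = tc (mu (DD pr V)) * ∑ u ∈ U8, tc (mu u) * RU8 pr V u δ := by
  classical
  set D := DD pr V with hD
  have hDp : prim D := DD_prim hp V
  have hs := summ_bd h hδ (kq_bd hp V)
  have hsf : ∀ u ∈ U8, Summable (fun a : ZI =>
      if (8 : ZI) ∣ a - D * u then kq pr V a * fd δ (tc a) else 0) := by
    intro u _
    refine Summable.of_norm_bounded hs.norm fun a => ?_
    split_ifs
    · exact le_rfl
    · rw [norm_zero]; exact norm_nonneg _
  have e : ∀ a, kq pr V a * fd δ (tc a) =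
      ∑ u ∈ U8, (if (8 : ZI) ∣ a - D * u then kq pr V a * fd δ (tc a) else 0) := by
    intro a
    by_cases ha : prim a
    · obtain ⟨u, hu, hd⟩ := exists_class hDp ha
      rw [Finset.sum_eq_single u]
      · rw [if_pos hd]
      · intro w hw hwu
        rw [if_neg]
        intro hd2
        exact hwu (class_unique hDp hw hu hd2 hd)
      · exact fun h' => absurd hu h'
    · rw [kq_of_not ha, zero_mul]
      simp
  have key : ∀ u ∈ U8, ∑' a, (if (8 : ZI) ∣ a - D * u then kq pr V a * fd δ (tc a) else 0) =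
      tc (mu D) * (tc (mu u) * RU8 pr V u δ) := by
    intro u hu
    unfold RU8
    rw [← tsum_mul_left, ← tsum_mul_left, ← (inj_eight (D * u)).tsum_eq]
    · refine tsum_congr fun t => ?_
      rw [if_pos ⟨t, by ring⟩, kq_shift hp V (U8_prim hu) t]
      ring
    · intro a ha
      rw [Function.mem_support] at ha
      by_contra hc
      apply ha
      rw [if_neg]
      rintro ⟨t, ht⟩
      exact hc ⟨t, by
        show D * u + 8 * t = a
        rw [← ht]; ring⟩
  unfold RS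
  rw [tsum_congr e, Summable.tsum_finsetSum hsf, Finset.sum_congr rfl key, Finset.mul_sum]

theorem RS_kq (h : IsLat L RG Ω) (hp : PF pr) (V : Finset ι) [Fintype (RQ (DD pr V))] {δ : ℝ}
    (hδ : 0 < δ) : RS (kq pr V) δ = tc (mu (DD pr V)) * (Ω / (8 * tc (DD pr V)) *
      ∑ q : RQ (DD pr V), WW pr V q.out * ∑ u ∈ U8, tc (mu u) *
        EG Ω (δ * Complex.normSq (tc (DD pr V) * 8 / Ω)) (Ω * tc u / 8 + zq Ω (DD pr V) q.out)) := by
  rw [RS_kq_classes h hp V hδ]
  congr 1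
  rw [Finset.sum_congr rfl fun u _ => by rw [RU8_eq h hp V u hδ]]
  have e : ∀ q : RQ (DD pr V), WW pr V q.out * ∑ u ∈ U8, tc (mu u) *
      EG Ω (δ * Complex.normSq (tc (DD pr V) * 8 / Ω)) (Ω * tc u / 8 + zq Ω (DD pr V) q.out) =
      ∑ u ∈ U8, tc (mu u) * (WW pr V q.out *
        EG Ω (δ * Complex.normSq (tc (DD pr V) * 8 / Ω)) (Ω * tc u / 8 + zq Ω (DD pr V) q.out)) := by
    intro q
    rw [Finset.mul_sum]
    exact Finset.sum_congr rfl fun u _ => by ring
  rw [Finset.sum_congr rfl fun q _ => e q, Finset.sum_comm, Finset.mul_sum]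
  refine Finset.sum_congr rfl fun u _ => ?_
  rw [← Finset.mul_sum]
  ring

/-! ### The limits -/

/-- the division points are not in the lattice -/
lemma nm8 (h : IsLat L RG Ω) {D : ZI} (hD : prim D) (t : ZI) :
    (1 + I) ^ 3 * (Ω / 8 + zq Ω D t) ∉ L.lattice := by
  intro h'
  have hΩ := h.ne
  have hDc := tc_ne (prim_ne_zero hD)
  obtain ⟨c, hc⟩ := (mem_lat h).1 h'
  have e1 : tc (pi1 ^ 3 * (D + 8 * t)) = tc (8 * D * c) := by
    have e2 : tc pi1 = 1 + I := by
      unfold tc pi1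
      simp
    have e3 : tc (pi1 ^ 3) = (1 + I) ^ 3 := by
      rw [pow_succ, pow_two, tc_mul, tc_mul, e2]
      ring
    rw [tc_mul, e3, tc_add, tc_mul, tc_mul, tc_mul, tc_eight]
    unfold zq at hc
    have e4 : (1 + I) ^ 3 * (Ω / 8 + Ω * tc t / tc D) =
        Ω * ((1 + I) ^ 3 * (tc D + 8 * tc t)) / (8 * tc D) := by
      field_simp
    rw [e4, div_eq_iff (mul_ne_zero (by norm_num) hDc)] at hc
    have h5 : Ω * ((1 + I) ^ 3 * (tc D + 8 * tc t)) = Ω * (8 * tc D * tc c) := by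
      rw [hc]; ring
    exact mul_left_cancel₀ hΩ h5
  have h2 := tc_inj e1
  have e8 : (8 : ZI) = pi1 ^ 3 * (pi1 ^ 3 * ⟨0, 1⟩) := by decide
  have h3 : D + 8 * t = pi1 ^ 3 * ⟨0, 1⟩ * D * c := by
    have h4 : pi1 ^ 3 * (D + 8 * t) = pi1 ^ 3 * (pi1 ^ 3 * ⟨0, 1⟩ * D * c) := by
      rw [h2]
      conv_lhs => rw [e8]
      ring
    exact mul_left_cancel₀ (pow_ne_zero 3 (by decide)) h4
  have h4 : pi1 ∣ D := by
    have h5 : pi1 ∣ D + 8 * t := by
      rw [h3]
      exact (((dvd_pow_self pi1 (by norm_num)).mul_right _).mul_right _).mul_right _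
    have h6 : pi1 ∣ 8 * t := (show pi1 ∣ (8 : ZI) from ⟨⟨4, -4⟩, by decide⟩).mul_right _
    have := dvd_sub h5 h6
    rwa [add_sub_cancel_right] at this
  exact (norm_odd_iff D).1 (prim_norm_odd hD) h4

/-- the combination of values of a function -/
noncomputable def QG (G : ℂ → ℂ) (Ω : ℂ) (pr : ι → ZI) (V : Finset ι)
    [Fintype (RQ (DD pr V))] : ℂ :=
  ∑ q : RQ (DD pr V), WW pr V q.out * G (Ω / 8 + zq Ω (DD pr V) q.out)

/-- the limit of the sums of the Eisenstein series over the classes modulo eight -/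
def Lim8 (G : ℂ → ℂ) (L : PeriodPair) (Ω : ℂ) : Prop :=
  ∀ z : ℂ, (1 + I) ^ 3 * (Ω / 8 + z) ∉ L.lattice →
    Tendsto (fun δ : ℝ => ∑ u ∈ U8, tc (mu u) * EG Ω δ (Ω * tc u / 8 + z)) (𝓝[>] 0)
      (𝓝 (G (Ω / 8 + z)))

theorem lim_kq {G : ℂ → ℂ} (h : IsLat L RG Ω) (hG : Lim8 G L Ω) (hp : PF pr) (V : Finset ι)
    [Fintype (RQ (DD pr V))] : Tendsto (RS (kq pr V)) (𝓝[>] 0)
      (𝓝 (tc (mu (DD pr V)) * (Ω / (8 * tc (DD pr V)) * QG G Ω pr V))) := by
  have hD := DD_prim hp V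
  have hDc := tc_ne (prim_ne_zero hD)
  have hΩ := h.ne
  have hc : 0 < Complex.normSq (tc (DD pr V) * 8 / Ω) :=
    Complex.normSq_pos.2 (div_ne_zero (mul_ne_zero hDc (by norm_num)) hΩ)
  have key : Tendsto (fun δ : ℝ => ∑ q : RQ (DD pr V), WW pr V q.out *
      ∑ u ∈ U8, tc (mu u) * EG Ω δ (Ω * tc u / 8 + zq Ω (DD pr V) q.out))
      (𝓝[>] 0) (𝓝 (QG G Ω pr V)) := by
    unfold QG
    exact tendsto_finsetSum _ fun q _ => Tendsto.const_mul _ (hG _ (nm8 h hD _))
  have key2 := ((tendsto_scale key hc).const_mul (Ω / (8 * tc (DD pr V)))).const_mul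
    (tc (mu (DD pr V)))
  refine key2.congr' ?_
  filter_upwards [self_mem_nhdsWithin] with δ (hδ : 0 < δ)
  exact (RS_kq h hp V hδ).symm

/-- existence of the limits -/
theorem exists_lim {G : ℂ → ℂ} (h : IsLat L RG Ω) (hG : Lim8 G L Ω) (hp : PF pr) :
    ∀ S : Finset ι, ∃ l : ℂ, Tendsto (RS (cqt pr S ∅)) (𝓝[>] 0) (𝓝 l) := by
  intro S
  induction S using Finset.strongInduction with
  | H V ih =>
    have hfin := H385.he1_finite (DD_ne hp V)
    letI := Fintype.ofFinite (RQ (DD pr V))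
    have h1 := lim_kq h hG hp V
    have h2 : ∀ S : Finset ι, ∃ l : ℂ, S ∈ V.powerset.erase V →
        Tendsto (RS (cqt pr S (V \ S))) (𝓝[>] 0) (𝓝 l) := by
      intro S
      by_cases hS : S ∈ V.powerset.erase V
      · rw [Finset.mem_erase, Finset.mem_powerset] at hS
        obtain ⟨l, hl⟩ := ih S (Finset.ssubset_iff_subset_ne.2 ⟨hS.2, hS.1⟩)
        exact ⟨_, fun _ => lim_cqt h hp S hl (V \ S)⟩
      · exact ⟨0, fun h' => absurd h' hS⟩
    choose l hl using h2
    have h3 : Tendsto (fun δ => RS (kq pr V) δ -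
        ∑ S ∈ V.powerset.erase V, RS (cqt pr S (V \ S)) δ) (𝓝[>] 0)
        (𝓝 (tc (mu (DD pr V)) * (Ω / (8 * tc (DD pr V)) * QG G Ω pr V) -
        ∑ S ∈ V.powerset.erase V, l S)) := by
      refine h1.sub (tendsto_finsetSum _ fun S hS => ?_)
      exact hl S hS
    refine ⟨_, h3.congr' ?_⟩
    filter_upwards [self_mem_nhdsWithin] with δ (hδ : 0 < δ)
    rw [← RS_sum_cqt h hp V hδ, ← Finset.add_sum_erase V.powerset _ (Finset.mem_powerset_self V),
      add_sub_cancel_right, Finset.sdiff_self]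

/-- the normalized limit -/
noncomputable def Mq (Ω : ℂ) (pr : ι → ZI) (l : Finset ι → ℂ) (S : Finset ι) : ℂ :=
  8 * (l S / Ω) * tc (DD pr S) / (1 + I) ^ S.card

lemma one_add_I_ne : (1 + I : ℂ) ≠ 0 := by
  intro h0
  have := congrArg Complex.re h0
  simp at this

/-- **the recursion** -/
theorem recur {G : ℂ → ℂ} (h : IsLat L RG Ω) (hG : Lim8 G L Ω) (hp : PF pr) {l : Finset ι → ℂ}
    (hl : ∀ S, Tendsto (RS (cqt pr S ∅)) (𝓝[>] 0) (𝓝 (l S))) (V : Finset ι)
    [Fintype (RQ (DD pr V))] :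
    ∑ S ∈ V.powerset, Mq Ω pr l S *
      ∏ i ∈ V \ S, ((tc (pr i) - tc (mu (pr i) * c4 pr S e1 (pr i))) / (1 + I)) =
      tc (mu (DD pr V)) * QG G Ω pr V / (1 + I) ^ V.card := by
  have hDc := tc_ne (DD_ne hp V)
  have hΩ := h.ne
  have hI := one_add_I_ne
  have h1 : Tendsto (fun δ => ∑ S ∈ V.powerset, RS (cqt pr S (V \ S)) δ)
      (𝓝[>] 0) (𝓝 (∑ S ∈ V.powerset,
        (l S * ∏ i ∈ V \ S, (1 - tc (mu (pr i) * c4 pr S e1 (pr i)) / tc (pr i))))) := by
    refine tendsto_finsetSum _ fun S _ => ?_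
    exact lim_cqt h hp S (hl S) (V \ S)
  have h2 : Tendsto (fun δ => ∑ S ∈ V.powerset, RS (cqt pr S (V \ S)) δ)
      (𝓝[>] 0) (𝓝 (tc (mu (DD pr V)) * (Ω / (8 * tc (DD pr V)) * QG G Ω pr V))) := by
    refine (lim_kq h hG hp V).congr' ?_
    filter_upwards [self_mem_nhdsWithin] with δ (hδ : 0 < δ)
    exact (RS_sum_cqt h hp V hδ).symm
  have h3 := tendsto_nhds_unique h1 h2
  have h4 : tc (mu (DD pr V)) * QG G Ω pr V / (1 + I) ^ V.card =
      (8 * tc (DD pr V) / Ω / (1 + I) ^ V.card) *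
      (tc (mu (DD pr V)) * (Ω / (8 * tc (DD pr V)) * QG G Ω pr V)) := by
    field_simp
  rw [h4, ← h3, Finset.mul_sum]
  refine Finset.sum_congr rfl fun S hS => ?_
  rw [Finset.mem_powerset] at hS
  unfold Mq
  have h5 : tc (DD pr V) = tc (DD pr S) * ∏ i ∈ V \ S, tc (pr i) := by
    unfold DD
    rw [← tc_prod, ← tc_mul]
    congr 1
    rw [mul_comm]
    exact (Finset.prod_sdiff hS).symm
  have h6 : V.card = S.card + (V \ S).card := by
    have := Finset.card_sdiff_add_card_eq_card hS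
    omega
  have h7 : ∏ i ∈ V \ S, ((tc (pr i) - tc (mu (pr i) * c4 pr S e1 (pr i))) / (1 + I)) =
      (∏ i ∈ V \ S, tc (pr i)) / (1 + I) ^ (V \ S).card *
        ∏ i ∈ V \ S, (1 - tc (mu (pr i) * c4 pr S e1 (pr i)) / tc (pr i)) := by
    rw [← Finset.prod_const, ← Finset.prod_div_distrib, ← Finset.prod_mul_distrib]
    refine Finset.prod_congr rfl fun i _ => ?_
    have := tc_ne (hp.pp i).ne
    field_simp
  rw [h5, h6, h7, pow_add]
  ring

end Pool.Agent.Run7.h135.Q4L
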