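import Pool.Agent.Run7.h135.Q4A
import Pool.Agent.Y699.Nv

/-!
The identity for the grounded Laplacians modulo two, and the induction for the leading terms of the
central values of the quartic twists.
-/

set_option autoImplicit false
set_option linter.unusedSectionVars false

open Filter Complex
open scoped Topology PeriodPair
open H667R3 hiding sq
open Pool.Agent.TH936.CM Pool.Agent.W192.HK

namespace Pool.Agent.Run7.h135.Q4L

open Pool.Agent.Y699
open H385 (ZI RQ im1 nrm)
open Pool.Agent.H304R3.HK (tc)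
open Pool.Agent.W164.RC (tc_mul tc_star two2 prim_iff_dvd)
open Pool.Agent.H304R2.EC.A1 (prim prim_mul prim_cancel prim_one prim_norm_odd prim_star eq_one_of_prim
  norm_def' re_mul' im_mul' eq_of_dvd prim_ne_zero)

section alg

open Finset

variable {ι : Type*} [Fintype ι] [DecidableEq ι]

/-- the determinant of the grounded Laplacian -/
def Dx (x : ι → ZMod 2) (e : ι → ι → ZMod 2) (S : Finset ι) : ZMod 2 := (Ff.MM x e S S).det

/-- the product of the degrees -/
def Px (x : ι → ZMod 2) (e : ι → ι → ZMod 2) (V S : Finset ι) : ZMod 2 :=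
  ∏ v ∈ V \ S, (x v + ∑ u ∈ S, e u v)

lemma Dx_empty (x : ι → ZMod 2) (e : ι → ι → ZMod 2) : Dx x e ∅ = 1 := by
  unfold Dx
  have h1 : Ff.MM x e ∅ ∅ = 1 := by
    ext i j
    unfold Ff.MM
    simp [Matrix.one_apply]
  rw [h1, Matrix.det_one]

theorem sum_Dx (x : ι → ZMod 2) (e : ι → ι → ZMod 2) (he : ∀ v, e v v = 0) {V : Finset ι}
    (hV : V.Nonempty) : ∑ S ∈ V.powerset, Dx x e S * Px x e V S = 0 := by
  rw [← Ff.sum_det x e he V hV]
  refine Finset.sum_congr rfl fun S hS => ?_
  rw [Ff.det_MM x e (mem_powerset.1 hS)]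
  rfl

lemma MM_symm (x : ι → ZMod 2) (e : ι → ι → ZMod 2) (hs : ∀ u v, e u v = e v u) (S : Finset ι) :
    (Ff.MM x e S S).transpose = Ff.MM x e S S := by
  ext u v
  rw [Matrix.transpose_apply]
  unfold Ff.MM
  by_cases huv : u = v
  · subst huv; rfl
  · have hvu : ¬ v = u := fun h => huv h.symm
    by_cases hu : u ∈ S <;> by_cases hv : v ∈ S <;> simp [hu, hv, huv, hvu, hs]

lemma two_z (a : ZMod 2) : a + a = 0 := CharTwo.add_self_eq_zero a

/-- the Laplacian applied to the indicator -/
lemma MM_mulVec (x : ι → ZMod 2) (e : ι → ι → ZMod 2) (he : ∀ v, e v v = 0)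
    (hs : ∀ u v, e u v = e v u) (S : Finset ι) :
    (Ff.MM x e S S).mulVec (fun v => if v ∈ S then 1 else 0) = fun v => if v ∈ S then x v else 0 := by
  funext u
  rw [Matrix.mulVec, dotProduct]
  have e1 : ∀ v, Ff.MM x e S S u v * (if v ∈ S then 1 else 0) =
      if v ∈ S then Ff.MM x e S S u v else 0 := by
    intro v
    split_ifs <;> simp
  rw [Finset.sum_congr rfl fun v _ => e1 v, Finset.sum_ite_mem, Finset.univ_inter]
  by_cases hu : u ∈ S
  · rw [if_pos hu, ← Finset.add_sum_erase S _ hu]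
    have e2 : ∑ v ∈ S.erase u, Ff.MM x e S S u v = ∑ v ∈ S.erase u, e v u := by
      refine Finset.sum_congr rfl fun v hv => ?_
      rw [mem_erase] at hv
      unfold Ff.MM
      rw [if_pos hv.2, if_neg (fun h => hv.1 h.symm), if_pos hu, hs]
    have e3 : Ff.MM x e S S u u = x u + (e u u + ∑ v ∈ S.erase u, e v u) := by
      unfold Ff.MM Ff.dg
      rw [if_pos hu, if_pos rfl, Finset.add_sum_erase S (fun v => e v u) hu]
    rw [e2, e3, he, zero_add, add_assoc, two_z, add_zero]
  · rw [if_neg hu]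
    refine Finset.sum_eq_zero fun v hv => ?_
    unfold Ff.MM
    rw [if_pos hv, if_neg (fun h => hu (by rw [h]; exact hv)), if_neg hu]

lemma quad_sym (B : Matrix ι ι (ZMod 2)) (hB : ∀ i j, B i j = B j i) (x : ι → ZMod 2)
    (S : Finset ι) : ∑ i ∈ S, ∑ u ∈ S, x i * (B i u * x u) = ∑ i ∈ S, x i * B i i := by
  induction S using Finset.induction_on with
  | empty => simp
  | insert a S ha ih =>
    rw [Finset.sum_insert ha, Finset.sum_insert ha, Finset.sum_insert ha]
    have e1 : ∑ i ∈ S, ∑ u ∈ insert a S, x i * (B i u * x u) =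
        ∑ i ∈ S, x i * (B i a * x a) + ∑ i ∈ S, ∑ u ∈ S, x i * (B i u * x u) := by
      rw [← Finset.sum_add_distrib]
      exact Finset.sum_congr rfl fun i _ => Finset.sum_insert ha
    have e2 : ∑ i ∈ S, x i * (B i a * x a) = ∑ u ∈ S, x a * (B a u * x u) := by
      refine Finset.sum_congr rfl fun i _ => ?_
      rw [hB a i]; ring
    have e3 : x a * (B a a * x a) = x a * B a a := by
      have : ∀ s t : ZMod 2, s * (t * s) = s * t := by decide
      exact this _ _
    rw [e1, e2, ih, e3]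
    have := two_z (∑ u ∈ S, x a * (B a u * x u))
    linear_combination this

/-- the diagonal entry of the adjugate -/
lemma adj_diag (x : ι → ZMod 2) (e : ι → ι → ZMod 2) {S : Finset ι} {j : ι} (hj : j ∈ S) :
    (Ff.MM x e S S).adjugate j j = Dx (fun v => x v + e j v) e (S.erase j) := by
  rw [Matrix.adjugate_apply]
  unfold Dx
  refine Matrix.det_eq_of_forall_row_eq_smul_add_const
    (fun u => if u = j then 0 else Ff.MM x e S S u j) j (by simp) ?_
  intro u v
  have hjn : j ∉ S.erase j := by simp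
  by_cases huj : u = j
  · subst huj
    rw [Matrix.updateRow_self, if_pos rfl, zero_mul, add_zero]
    unfold Ff.MM
    by_cases hv : v ∈ S.erase u
    · have hvu : v ≠ u := (mem_erase.1 hv).1
      rw [if_pos hv, if_neg (fun h => hvu h.symm), if_neg hjn, Pi.single_eq_of_ne hvu]
    · rw [if_neg hv]
      by_cases hvu : v = u
      · subst hvu
        rw [if_pos rfl, Pi.single_eq_same]
      · rw [if_neg (fun h => hvu h.symm), Pi.single_eq_of_ne hvu]
  · rw [Matrix.updateRow_ne huj, if_neg huj]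
    by_cases hvj : v = j
    · subst hvj
      have e1 : Ff.MM (fun w => x w + e v w) e (S.erase v) (S.erase v) u v = 0 := by
        unfold Ff.MM
        rw [if_neg hjn, if_neg huj]
      have e2 : Ff.MM (fun w => x w + e v w) e (S.erase v) (S.erase v) v v = 1 := by
        unfold Ff.MM
        rw [if_neg hjn, if_pos rfl]
      rw [e1, e2, zero_add, mul_one]
    · have e2 : Ff.MM (fun w => x w + e j w) e (S.erase j) (S.erase j) j v = 0 := by
        unfold Ff.MM
        by_cases hv : v ∈ S.erase j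
        · rw [if_pos hv, if_neg (fun h => hvj h.symm), if_neg hjn]
        · rw [if_neg hv, if_neg (fun h => hvj h.symm)]
      rw [e2, mul_zero, add_zero]
      unfold Ff.MM Ff.dg
      by_cases hv : v ∈ S
      · have hv' : v ∈ S.erase j := mem_erase.2 ⟨hvj, hv⟩
        rw [if_pos hv, if_pos hv']
        by_cases huv : u = v
        · rw [if_pos huv, if_pos huv, ← Finset.add_sum_erase S (fun t => e t v) hj]
          ring
        · rw [if_neg huv, if_neg huv]
          by_cases hu : u ∈ S
          · rw [if_pos hu, if_pos (mem_erase.2 ⟨huj, hu⟩)]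
          · rw [if_neg hu, if_neg (fun h => hu (mem_erase.1 h).2)]
      · rw [if_neg hv, if_neg (fun h => hv (mem_erase.1 h).2)]

/-- Euler's relation modulo two -/
theorem euler_Dx (x : ι → ZMod 2) (e : ι → ι → ZMod 2) (he : ∀ v, e v v = 0)
    (hs : ∀ u v, e u v = e v u) (S : Finset ι) :
    (∑ j ∈ S, x j) * Dx x e S = ∑ j ∈ S, x j * Dx (fun v => x v + e j v) e (S.erase j) := by
  set M := Ff.MM x e S S with hM
  have h1 := MM_mulVec x e he hs S
  rw [← hM] at h1
  have h2 : M.adjugate.mulVec (M.mulVec (fun v => if v ∈ S then 1 else 0)) =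
      M.det • (fun v => if v ∈ S then (1 : ZMod 2) else 0) := by
    rw [Matrix.mulVec_mulVec, Matrix.adjugate_mul, Matrix.smul_mulVec, Matrix.one_mulVec]
  rw [h1] at h2
  have h3 : ∀ i ∈ S, ∑ u ∈ S, M.adjugate i u * x u = Dx x e S := by
    intro i hi
    have h4 := congrFun h2 i
    rw [Matrix.mulVec, dotProduct] at h4
    have e1 : ∀ u, M.adjugate i u * (if u ∈ S then x u else 0) =
        if u ∈ S then M.adjugate i u * x u else 0 := by
      intro u
      split_ifs <;> simp
    rw [Finset.sum_congr rfl fun u _ => e1 u, Finset.sum_ite_mem, Finset.univ_inter] at h4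
    rw [h4, Pi.smul_apply, if_pos hi, smul_eq_mul, mul_one]
    rfl
  have hB : ∀ i j, M.adjugate i j = M.adjugate j i := by
    intro i j
    have h5 : M.adjugate.transpose = M.adjugate := by
      rw [Matrix.adjugate_transpose, hM, MM_symm x e hs S]
    conv_lhs => rw [← h5]
    rw [Matrix.transpose_apply]
  rw [Finset.sum_mul]
  have h6 : ∑ i ∈ S, x i * Dx x e S = ∑ i ∈ S, ∑ u ∈ S, x i * (M.adjugate i u * x u) := by
    refine Finset.sum_congr rfl fun i hi => ?_
    rw [← Finset.mul_sum, h3 i hi]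
  rw [h6, quad_sym _ hB]
  refine Finset.sum_congr rfl fun j hj => ?_
  rw [hM, adj_diag x e hj]

/-- the right side of the recursion -/
def FF (x : ι → ZMod 2) (V : Finset ι) : ZMod 2 :=
  if V.card = 0 then 1 else if V.card = 1 then ∑ j ∈ V, x j else 0

theorem sum_h_Dx (x : ι → ZMod 2) (e : ι → ι → ZMod 2) (he : ∀ v, e v v = 0)
    (hs : ∀ u v, e u v = e v u) (V : Finset ι) :
    ∑ S ∈ V.powerset, (∑ j ∈ S, x j) * Dx x e S * Px x e V S =
      if V.card = 1 then ∑ j ∈ V, x j else 0 := by
  have h1 : ∑ S ∈ V.powerset, (∑ j ∈ S, x j) * Dx x e S * Px x e V S =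
      ∑ j ∈ V, ∑ S ∈ V.powerset.filter (fun S => j ∈ S),
        x j * (Dx (fun v => x v + e j v) e (S.erase j) * Px x e V S) := by
    have h2 : ∀ S ∈ V.powerset, (∑ j ∈ S, x j) * Dx x e S * Px x e V S =
        ∑ j ∈ S, x j * (Dx (fun v => x v + e j v) e (S.erase j) * Px x e V S) := by
      intro S _
      rw [euler_Dx x e he hs S, Finset.sum_mul]
      exact Finset.sum_congr rfl fun j _ => by ring
    rw [Finset.sum_congr rfl h2]
    refine Finset.sum_comm' fun S r => ?_
    rw [mem_powerset, mem_filter, mem_powerset]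
    constructor
    · rintro ⟨h1, h2⟩
      exact ⟨⟨h1, h2⟩, h1 h2⟩
    · rintro ⟨⟨h1, h2⟩, h3⟩
      exact ⟨h1, h2⟩
  rw [h1]
  have h2 : ∀ j ∈ V, ∑ S ∈ V.powerset.filter (fun S => j ∈ S),
      x j * (Dx (fun v => x v + e j v) e (S.erase j) * Px x e V S) =
      x j * (if V.card = 1 then 1 else 0) := by
    intro j hj
    rw [← Finset.mul_sum]
    congr 1
    have h3 : ∑ S ∈ V.powerset.filter (fun S => j ∈ S),
        Dx (fun v => x v + e j v) e (S.erase j) * Px x e V S =
        ∑ J ∈ (V.erase j).powerset, Dx (fun v => x v + e j v) e J *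
          Px (fun v => x v + e j v) e (V.erase j) J := by
      refine Finset.sum_bij' (fun S _ => S.erase j) (fun J _ => insert j J) ?_ ?_ ?_ ?_ ?_
      · intro S hS
        rw [mem_filter, mem_powerset] at hS
        rw [mem_powerset]
        exact erase_subset_erase j hS.1
      · intro J hJ
        rw [mem_powerset] at hJ
        rw [mem_filter, mem_powerset]
        exact ⟨insert_subset hj (hJ.trans (erase_subset _ _)), mem_insert_self _ _⟩
      · intro S hS
        rw [mem_filter] at hS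
        exact insert_erase hS.2
      · intro J hJ
        rw [mem_powerset] at hJ
        refine erase_insert ?_
        intro h'
        have := hJ h'
        simp at this
      · intro S hS
        rw [mem_filter, mem_powerset] at hS
        congr 1
        unfold Px
        have h4 : V.erase j \ S.erase j = V \ S := by
          ext v
          simp only [Finset.mem_sdiff, Finset.mem_erase]
          constructor
          · rintro ⟨⟨h1, h2⟩, h3⟩
            exact ⟨h2, fun h => h3 ⟨h1, h⟩⟩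
          · rintro ⟨h1, h2⟩
            exact ⟨⟨fun h => h2 (h ▸ hS.2), h1⟩, fun h => h2 h.2⟩
        rw [h4]
        refine Finset.prod_congr rfl fun v _ => ?_
        rw [← Finset.add_sum_erase S (fun u => e u v) hS.2]
        ring
    rw [h3]
    by_cases hc : V.card = 1
    · rw [if_pos hc]
      have h4 : V.erase j = ∅ := by
        rw [← Finset.card_eq_zero, Finset.card_erase_of_mem hj, hc]
      rw [h4, Finset.powerset_empty, Finset.sum_singleton, Dx_empty, one_mul]
      unfold Px
      simp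
    · rw [if_neg hc]
      refine sum_Dx _ _ he ?_
      rw [← Finset.card_pos, Finset.card_erase_of_mem hj]
      have := Finset.card_pos.2 ⟨j, hj⟩
      omega
  rw [Finset.sum_congr rfl h2, ← Finset.sum_mul]
  split_ifs <;> simp

/-- **the identity** -/
theorem sum_FF (x : ι → ZMod 2) (e : ι → ι → ZMod 2) (he : ∀ v, e v v = 0)
    (hs : ∀ u v, e u v = e v u) (V : Finset ι) :
    ∑ S ∈ V.powerset, (1 + ∑ j ∈ S, x j) * Dx x e S * Px x e V S = FF x V := by
  have h1 := sum_h_Dx x e he hs V
  have h2 : ∑ S ∈ V.powerset, (1 + ∑ j ∈ S, x j) * Dx x e S * Px x e V S =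
      ∑ S ∈ V.powerset, Dx x e S * Px x e V S +
        ∑ S ∈ V.powerset, (∑ j ∈ S, x j) * Dx x e S * Px x e V S := by
    rw [← Finset.sum_add_distrib]
    exact Finset.sum_congr rfl fun S _ => by ring
  rw [h2, h1]
  unfold FF
  rcases V.eq_empty_or_nonempty with rfl | hV
  · rw [Finset.powerset_empty, Finset.sum_singleton, Dx_empty]
    unfold Px
    simp
  · have h3 := Finset.card_pos.2 hV
    rw [sum_Dx x e he hV, if_neg (show ¬ V.card = 0 by omega), zero_add]

/-- trivial kernel -/
theorem Dx_one (x : ι → ZMod 2) (e : ι → ι → ZMod 2) (he : ∀ v, e v v = 0) {V : Finset ι}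
    (hker : ∀ z : ι → ZMod 2, (∀ v ∈ V, ∑ u ∈ V, e u v * (z u + z v) + x v * z v = 0) →
      ∀ v ∈ V, z v = 0) : Dx x e V = 1 := by
  by_contra hne
  have h0 : Dx x e V = 0 := by
    have : ∀ a : ZMod 2, a ≠ 1 → a = 0 := by decide
    exact this _ hne
  unfold Dx at h0
  obtain ⟨y, hy0, hy⟩ := Matrix.exists_vecMul_eq_zero_iff.2 h0
  have h1 : ∀ v, v ∉ V → y v = 0 := by
    intro v hv
    have := congrFun hy v
    rw [Matrix.vecMul, dotProduct] at this
    unfold Ff.MM at this
    simpa [hv] using this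
  apply hy0
  funext v
  by_cases hv : v ∈ V
  · refine hker y (fun v hv => ?_) v hv
    have h3 := congrFun hy v
    rw [Matrix.vecMul, dotProduct, Pi.zero_apply] at h3
    rw [← h3]
    have h4 : ∀ u, y u * Ff.MM x e V V u v =
        (if u ∈ V then e u v * y u else 0) + (if u = v then (x v + ∑ u ∈ V, e u v) * y v else 0) := by
      intro u
      unfold Ff.MM Ff.dg
      rw [if_pos hv]
      by_cases huv : u = v
      · subst huv
        rw [if_pos rfl, if_pos rfl, he]
        simp [mul_comm]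
      · rw [if_neg huv, if_neg huv]
        split_ifs <;> ring
    simp_rw [h4, mul_add]
    rw [Finset.sum_add_distrib, Finset.sum_add_distrib, Finset.sum_ite_eq', if_pos (mem_univ v),
      ← Finset.sum_mul, Finset.sum_ite_mem, Finset.univ_inter]
    ring
  · exact h1 v hv

end alg

variable {L : PeriodPair} {Ω : ℂ} {ι : Type} [Fintype ι] [DecidableEq ι] {pr : ι → ZI}

section val

variable {Γ : Type*} [LinearOrderedCommGroupWithZero Γ] {v : Valuation ℂ Γ} (h2 : v 2 < 1)

lemma tc_list {u : ZI} (h : u.norm = 1) : tc u = 1 ∨ tc u = I ∨ tc u = -1 ∨ tc u = -I := by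
  rcases Pool.Agent.W164.RC.unit_cases h with h | h | h | h
  · left; rw [h, tc_one]
  · right; left; rw [h, tc_im1]
  · right; right; left
    have : (im1 : ZI) ^ 2 = -1 := by decide
    rw [h, this, tc_neg, tc_one]
  · right; right; right
    have : (im1 : ZI) ^ 3 = -im1 := by decide
    rw [h, this, tc_neg, tc_im1]

include h2 in
/-- a fourth root of unity is congruent to one -/
lemma unit_cg {u : ZI} (h : u.norm = 1) : Cg v (tc u) 1 := by
  have hpi := v_pi_lt h2
  have hone : v (1 : ℂ) ≤ 1 := by rw [map_one]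
  rcases tc_list h with h | h | h | h <;> rw [h]
  · exact Cg.refl hone
  · refine ⟨by rw [v_I], hone, ?_⟩
    have : (I - 1 : ℂ) = I * (1 + I) := by linear_combination -I_sq
    rw [this, map_mul, v_I, one_mul]
    exact hpi
  · refine ⟨by rw [Valuation.map_neg, map_one], hone, ?_⟩
    have : (-1 - 1 : ℂ) = -2 := by norm_num
    rw [this, Valuation.map_neg]
    exact h2
  · refine ⟨by rw [Valuation.map_neg, v_I], hone, ?_⟩
    have : (-I - 1 : ℂ) = -(1 + I) := by ring
    rw [this, Valuation.map_neg]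
    exact hpi

include h2 in
/-- one minus a fourth root of unity over the uniformizer -/
lemma unit_half {u : ZI} (h : u.norm = 1) {a : ZMod 2} (ha : u ^ 2 = if a = 0 then 1 else -1) :
    Cg v ((1 - tc u) / (1 + I)) (uu a) := by
  have hpi := v_pi_lt h2
  have hI := one_add_I_ne
  have hone : v (1 : ℂ) ≤ 1 := by rw [map_one]
  have h0 : ∀ a : ZMod 2, a = 0 ∨ a = 1 := by decide
  have hsq : tc u ^ 2 = if a = 0 then 1 else -1 := by
    have h3 := congrArg tc ha
    rw [pow_two, tc_mul] at h3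
    rw [pow_two, h3]
    split_ifs
    · rw [tc_one]
    · rw [tc_neg, tc_one]
  have hz : (0 : Γ) ≤ 1 := zero_le_one
  rcases h0 a with ha | ha <;> rw [ha] at hsq ⊢
  · rw [if_pos rfl] at hsq
    rw [uu_zero]
    rcases sq_eq_one_iff.1 hsq with h3 | h3 <;> rw [h3]
    · rw [sub_self, zero_div]
      exact Cg.refl (by rw [map_zero]; exact zero_le_one)
    · have e : (1 - -1 : ℂ) / (1 + I) = (1 + I) * -I := by
        rw [div_eq_iff hI]
        linear_combination (2 + I) * I_sq
      rw [e]
      apply Cg.zero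
      rw [map_mul, Valuation.map_neg, v_I, mul_one]
      exact hpi
  · rw [if_neg (by decide)] at hsq
    rw [uu_one]
    have h3 : (tc u - I) * (tc u + I) = 0 := by linear_combination hsq - I_sq
    rcases mul_eq_zero.1 h3 with h4 | h4
    · have h5 : tc u = I := by linear_combination h4
      rw [h5]
      have e : (1 - I : ℂ) / (1 + I) = -I := by
        rw [div_eq_iff hI]
        linear_combination I_sq
      rw [e]
      refine ⟨by rw [Valuation.map_neg, v_I], hone, ?_⟩
      have : (-I - 1 : ℂ) = -(1 + I) := by ring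
      rw [this, Valuation.map_neg]
      exact hpi
    · have h5 : tc u = -I := by linear_combination h4
      rw [h5, sub_neg_eq_add, div_self hI]
      exact Cg.refl hone

lemma mu_sq {a : ZI} (ha : prim a) : mu a ^ 2 = if a.norm % 8 = 5 then -1 else 1 := by
  obtain ⟨h1, h2⟩ := ha
  obtain ⟨c, hc⟩ : ∃ c, a.im = 2 * c := ⟨a.im / 2, by omega⟩
  obtain ⟨s, hs⟩ : ∃ s, a.re = 1 - 2 * c + 4 * s := ⟨(a.re - 1 + 2 * c) / 4, by omega⟩
  have hn : a.norm = 1 + 4 * (c * c) + 4 * ((2 * s - c) * (2 * s - c + 1)) := by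
    rw [norm_def', hc, hs]; ring
  obtain ⟨w, hw⟩ : ∃ w, (2 * s - c) * (2 * s - c + 1) = 2 * w := by
    have h0 : (2 * s - c) * (2 * s - c + 1) % 2 = 0 := by
      rw [Int.mul_emod, Int.add_emod]
      rcases Int.emod_two_eq_zero_or_one (2 * s - c) with h | h <;> rw [h] <;> norm_num
    exact ⟨(2 * s - c) * (2 * s - c + 1) / 2, by omega⟩
  rw [hw] at hn
  have hq : a.im / 2 = c := by omega
  unfold mu
  rw [hq, ← pow_mul]
  rcases Int.emod_two_eq_zero_or_one c with h | h
  · have hcc : c * c % 2 = 0 := by rw [Int.mul_emod, h]; norm_num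
    rw [if_neg (by omega)]
    have : (c % 4).toNat * 2 = 0 ∨ (c % 4).toNat * 2 = 4 := by omega
    rcases this with h5 | h5 <;> rw [h5] <;> decide
  · have hcc : c * c % 2 = 1 := by rw [Int.mul_emod, h]; norm_num
    rw [if_pos (by omega)]
    have : (c % 4).toNat * 2 = 2 ∨ (c % 4).toNat * 2 = 6 := by omega
    rcases this with h5 | h5 <;> rw [h5] <;> decide

lemma c4_sq (hp : PF pr) {S : Finset ι} {i : ι} (hi : i ∉ S) :
    c4 pr S e1 (pr i) ^ 2 = if ∑ u ∈ S, em pr u i = 0 then 1 else -1 := by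
  unfold c4
  rw [← Finset.prod_pow]
  induction S using Finset.induction_on with
  | empty => simp
  | insert j S hj ih =>
    rw [Finset.mem_insert, not_or] at hi
    have hne : ¬ pr j ∣ pr i := fun h => hi.1 (hp.inj ((hp.pp j).eq_of_dvd (hp.pp i) h)).symm
    rw [Finset.prod_insert hj, Finset.sum_insert hj, ih hi.2]
    have h1 : fe (pr j) (e1 j) (pr i) ^ 2 = (qr (pr j) (pr i) : ZI) := by
      unfold fe
      rw [if_neg hne, pow_one, q4_sq (hp.pp j)]
    have h3 : em pr j i = if qr (pr j) (pr i) = -1 then 1 else 0 := by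
      unfold Pool.Agent.Y699.em
      rw [qr_rec (hp.pp i) (hp.pp j)]
    rw [h1, h3]
    generalize ∑ u ∈ S, em pr u i = t
    have h0 : ∀ a : ZMod 2, a = 0 ∨ a = 1 := by decide
    have e11 : (1 : ZMod 2) + 1 = 0 := by decide
    have e10 : ¬ (1 : ZMod 2) = 0 := by decide
    rcases qr_cases hne with h4 | h4 <;> rcases h0 t with h5 | h5 <;> rw [h4, h5]
    · simp
    · simp
    · rw [if_pos rfl, if_pos rfl, add_zero, if_neg e10]
      push_cast
      ring
    · rw [if_pos rfl, if_neg e10, e11, if_pos rfl]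
      push_cast
      ring

include h2 in
/-- the factors of the recursion -/
theorem half_cg (hp : PF pr) {S : Finset ι} {i : ι} (hi : i ∉ S) :
    Cg v ((tc (pr i) - tc (mu (pr i) * c4 pr S e1 (pr i))) / (1 + I))
      (uu (wt pr i + ∑ u ∈ S, em pr u i)) := by
  have hI := one_add_I_ne
  have hn : (mu (pr i) * c4 pr S e1 (pr i)).norm = 1 := by
    apply mu_c4_norm hp
    intro j hj h
    exact hi ((hp.inj ((hp.pp j).eq_of_dvd (hp.pp i) h)) ▸ hj)
  have h1 : Cg v ((tc (pr i) - 1) / (1 + I)) 0 := by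
    apply Cg.zero
    have h3 := half_le h2 (hp.pp i).prm
    have e : (tc (pr i) - 1) / (1 + I) = ((tc (pr i) - 1) / 2) * (1 - I) := by
      rw [div_eq_iff hI]
      linear_combination ((tc (pr i) - 1) / 2) * I_sq
    have e2 : (1 - I : ℂ) = (1 + I) * -I := by linear_combination I_sq
    rw [e, map_mul]
    have h4 : v (1 - I) < 1 := by
      rw [e2, map_mul, Valuation.map_neg, v_I, mul_one]
      exact v_pi_lt h2
    calc v ((tc (pr i) - 1) / 2) * v (1 - I) ≤ 1 * v (1 - I) :=
          mul_le_mul_left (h3.trans (v_pi_lt h2).le) _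
      _ < 1 := by rw [one_mul]; exact h4
  have h3 : (mu (pr i) * c4 pr S e1 (pr i)) ^ 2 =
      if wt pr i + ∑ u ∈ S, em pr u i = 0 then 1 else -1 := by
    rw [mul_pow, mu_sq (hp.pp i).prm, c4_sq hp hi]
    unfold wt
    generalize ∑ u ∈ S, em pr u i = t
    have h0 : ∀ a : ZMod 2, a = 0 ∨ a = 1 := by decide
    have e11 : (1 : ZMod 2) + 1 = 0 := by decide
    have e10 : ¬ (1 : ZMod 2) = 0 := by decide
    by_cases h8 : (pr i).norm % 8 = 5 <;> rcases h0 t with h5 | h5
    · rw [if_pos h8, if_pos h8, h5, if_pos rfl, add_zero, if_neg e10]; ring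
    · rw [if_pos h8, if_pos h8, h5, if_neg e10, e11, if_pos rfl]; ring
    · rw [if_neg h8, if_neg h8, h5, if_pos rfl, add_zero, if_pos rfl]; ring
    · rw [if_neg h8, if_neg h8, h5, if_neg e10, zero_add, if_neg e10]; ring
  have h4 := unit_half h2 hn h3
  have e : (tc (pr i) - tc (mu (pr i) * c4 pr S e1 (pr i))) / (1 + I) =
      (tc (pr i) - 1) / (1 + I) + (1 - tc (mu (pr i) * c4 pr S e1 (pr i))) / (1 + I) := by
    rw [← add_div]
    congr 1
    ring
  rw [e]
  have h5 := h1.add h4
  rwa [zero_add] at h5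

include h2 in
/-- **the leading term**, from the leading terms of the combinations of values -/
theorem Mq_cg {G : ℂ → ℂ} {κ : ℂ} (h : IsLat L RG Ω) (hG : Lim8 G L Ω) (hp : PF pr)
    (hQ : ∀ (V : Finset ι) [Fintype (RQ (DD pr V))],
      Cg v (QG G Ω pr V / (1 + I) ^ V.card / κ) (uu (FF (wt pr) V)))
    {l : Finset ι → ℂ} (hl : ∀ S, Tendsto (RS (cqt pr S ∅)) (𝓝[>] 0) (𝓝 (l S))) (V : Finset ι) :
    Cg v (Mq Ω pr l V / κ) (uu ((1 + ∑ i ∈ V, wt pr i) * Dx (wt pr) (em pr) V)) := by
  induction V using Finset.strongInduction with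
  | H V ih =>
    have hfin := H385.he1_finite (DD_ne hp V)
    let _ := Fintype.ofFinite (RQ (DD pr V))
    have hrec := recur h hG hp hl V
    rw [← Finset.add_sum_erase V.powerset _ (Finset.mem_powerset_self V), Finset.sdiff_self,
      Finset.prod_empty, mul_one] at hrec
    have hMV : Mq Ω pr l V / κ = tc (mu (DD pr V)) * (QG G Ω pr V / (1 + I) ^ V.card / κ) -
        ∑ S ∈ V.powerset.erase V, (Mq Ω pr l S / κ) *
          ∏ i ∈ V \ S, ((tc (pr i) - tc (mu (pr i) * c4 pr S e1 (pr i))) / (1 + I)) := by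
      have e : ∀ S, (Mq Ω pr l S / κ) *
          ∏ i ∈ V \ S, ((tc (pr i) - tc (mu (pr i) * c4 pr S e1 (pr i))) / (1 + I)) =
          (Mq Ω pr l S *
            ∏ i ∈ V \ S, ((tc (pr i) - tc (mu (pr i) * c4 pr S e1 (pr i))) / (1 + I))) / κ := by
        intro S; ring
      simp_rw [e]
      rw [← Finset.sum_div, ← mul_div_assoc, ← mul_div_assoc, ← hrec]
      ring
    have hQ1 := (unit_cg h2 (mu_norm (DD pr V))).mul (hQ V)
    rw [one_mul] at hQ1
    have hterm : ∀ S ∈ V.powerset.erase V,
        Cg v ((Mq Ω pr l S / κ) *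
          ∏ i ∈ V \ S, ((tc (pr i) - tc (mu (pr i) * c4 pr S e1 (pr i))) / (1 + I)))
          (uu ((1 + ∑ i ∈ S, wt pr i) * Dx (wt pr) (em pr) S * Px (wt pr) (em pr) V S)) := by
      intro S hS
      rw [Finset.mem_erase, Finset.mem_powerset] at hS
      unfold Px
      rw [uu_mul, uu_prod]
      refine (ih S (Finset.ssubset_iff_subset_ne.2 ⟨hS.2, hS.1⟩)).mul
        (Cg.prod _ fun i hi => half_cg h2 hp (Finset.mem_sdiff.1 hi).2)
    have hsum := Cg.sum _ hterm
    have h3 := (uu_sum h2 (V.powerset.erase V) (fun S =>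
      (1 + ∑ i ∈ S, wt pr i) * Dx (wt pr) (em pr) S * Px (wt pr) (em pr) V S)).symm
    have h4 := hQ1.sub (hsum.trans h3)
    rw [hMV]
    refine h4.trans ?_
    have h5 := sum_FF (wt pr) (em pr) (em_self hp) (em_symm hp) V
    rw [← Finset.add_sum_erase V.powerset _ (Finset.mem_powerset_self V)] at h5
    have h6 : Px (wt pr) (em pr) V V = 1 := by
      unfold Px
      rw [Finset.sdiff_self, Finset.prod_empty]
    rw [h6, mul_one] at h5
    rw [← h5]
    set A := (1 + ∑ i ∈ V, wt pr i) * Dx (wt pr) (em pr) V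
    set B := ∑ S ∈ V.powerset.erase V,
      (1 + ∑ i ∈ S, wt pr i) * Dx (wt pr) (em pr) S * Px (wt pr) (em pr) V S
    have h7 := (uu_add h2 A B).sub (Cg.refl (v := v) (v_uu B))
    have e : uu A + uu B - uu B = uu A := by ring
    rwa [e] at h7

end val

/-- **non-vanishing** -/
theorem lim_ne {G : ℂ → ℂ} {κ : ℂ} (h : IsLat L RG Ω) (hG : Lim8 G L Ω) (hp : PF pr)
    {Γ : Type*} [LinearOrderedCommGroupWithZero Γ] {v : Valuation ℂ Γ} (h2 : v 2 < 1)
    (hQ : ∀ (V : Finset ι) [Fintype (RQ (DD pr V))],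
      Cg v (QG G Ω pr V / (1 + I) ^ V.card / κ) (uu (FF (wt pr) V)))
    {V : Finset ι} (hw : ∑ i ∈ V, wt pr i = 0)
    (hker : ∀ z : ι → ZMod 2, (∀ v ∈ V, ∑ u ∈ V, em pr u v * (z u + z v) + wt pr v * z v = 0) →
      ∀ v ∈ V, z v = 0) {l : ℂ}
    (hl : Tendsto (RS (cq pr V)) (𝓝[>] 0) (𝓝 l)) : l ≠ 0 := by
  choose f hf using exists_lim (ι := ι) h hG hp
  have h3 := Mq_cg h2 h hG hp hQ hf V
  rw [hw, Dx_one (wt pr) (em pr) (em_self hp) hker, add_zero, mul_one, uu_one] at h3
  have h4 : f V = l := by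
    have h5 := hf V
    rw [cqt_empty] at h5
    exact tendsto_nhds_unique h5 hl
  rintro rfl
  have h5 : Mq Ω pr f V = 0 := by
    unfold Mq
    rw [h4]
    simp
  rw [h5, zero_div] at h3
  have h6 := h3.s
  rw [zero_sub, Valuation.map_neg, map_one] at h6
  exact lt_irrefl _ h6

/-- existence of the limit -/
theorem exists_lim_cq {G : ℂ → ℂ} (h : IsLat L RG Ω) (hG : Lim8 G L Ω) (hp : PF pr) (V : Finset ι) :
    ∃ l : ℂ, Tendsto (RS (cq pr V)) (𝓝[>] 0) (𝓝 l) := by
  obtain ⟨l, hl⟩ := exists_lim h hG hp V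
  rw [cqt_empty] at hl
  exact ⟨l, hl⟩

end Pool.Agent.Run7.h135.Q4L
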