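import Pool.Agent.Run7.h135.Q4L2
import Pool.Agent.Run7.h26.CN.Br

/-!
The L-function of `y² = x³ + 2 m x` over the rational field.
-/

set_option autoImplicit false
set_option linter.unusedSectionVars false
set_option linter.unusedSimpArgs false

namespace Pool.Agent.Run7.h135.Q4L

open Pool.Agent.Y699
open H385 (ZI RQ im1 nrm)
open Pool.Agent.W164.RC (tc_mul tc_star two2 prim_iff_dvd unit_norm unit_cases Ip Ip_one Ip_three Ip_spec dg
  local_poly local_two ep_hecke)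
open Pool.Agent.H304R2.EC.A1 (prim prim_mul prim_cancel prim_one prim_norm_odd prim_star eq_one_of_prim
  norm_def' re_mul' im_mul' eq_of_dvd prim_ne_zero exists_prim)
open Pool.Agent.H304R3.HK (tc HC LH bH psi psi_apply uh_psi goodH bb ee UH tc_star_mul tc_ne_zero)

variable {ι : Type} [DecidableEq ι] {pr : ι → ZI}

open Classical in
/-- the local factor -/
noncomputable def loc4 (m : ℕ) (p : ℕ) (s : ℂ) : ℂ :=
  if ¬ p ∣ 2 * m then
    (1 - ((p : ℂ) - (Nat.card {q : ZMod p × ZMod p //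
      q.2 ^ 2 = q.1 ^ 3 + ((2 * (m : ℤ) : ℤ) : ZMod p) * q.1 + ((0 : ℤ) : ZMod p)} : ℂ))
      * (p : ℂ) ^ (-s) + (p : ℂ) ^ (1 - 2 * s))⁻¹
  else 1

lemma XQ_zero_of_dvd (hp : PF pr) (V : Finset ι) {z : ZI} (h : PP z) (hz : z ∣ DD pr V) :
    XQ hp V z = 0 := by
  by_contra h0
  have h1 := ((XQ_HC hp V).supp z).1 h0
  have h2 : z ∣ cnq pr V := hz.mul_left _
  exact h.pr.not_isUnit (h1.isUnit_of_dvd' dvd_rfl h2)

lemma XQ_pi1 (hp : PF pr) (V : Finset ι) : XQ hp V ⟨1, 1⟩ = 0 := by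
  rw [XQ_apply, un_even (by decide)]
  unfold tc
  simp

theorem local_eq (hp : PF pr) (V : Finset ι) (m : ℕ) (hm : DD pr V = (m : ZI)) (p : Nat.Primes) (s : ℂ) :
    (1 - bb (psi (XQ hp V)) (p : ℕ) * (((p : ℕ) : ℂ) ^ (-(s - 1 / 2))) +
      ee (psi (XQ hp V)) (p : ℕ) * (((p : ℕ) : ℂ) ^ (-(s - 1 / 2))) ^ 2)⁻¹ = loc4 m p s := by
  have H := XQ_HC hp V
  have hpp := p.2
  have : Fact (p : ℕ).Prime := ⟨hpp⟩
  by_cases h2 : (p : ℕ) = 2
  · rw [h2, local_two (uh_psi _ _ H), psi_apply _ (by decide), XQ_pi1, zero_mul, zero_mul]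
    unfold loc4
    rw [if_neg (by rw [not_not]; exact dvd_mul_right _ _)]
    simp
  rw [local_poly (uh_psi _ _ H) hpp h2]
  have h4 : (p : ℕ) % 4 = 1 ∨ (p : ℕ) % 4 = 3 := by
    rcases hpp.eq_two_or_odd with h | h
    · exact absurd h h2
    · omega
  have hPP : ∀ z ∈ Ip (p : ℕ), PP z := fun z hz => ⟨(Ip_spec hpp hz).2.1, (Ip_spec hpp hz).1⟩
  have hterm : ∏ z ∈ Ip (p : ℕ), (1 - psi (XQ hp V) z * (((p : ℕ) : ℂ) ^ (-(s - 1 / 2))) ^ dg (p : ℕ)) =
      ∏ z ∈ Ip (p : ℕ), (1 - XQ hp V z * tc z * (((p : ℕ) : ℂ) ^ (-s)) ^ dg (p : ℕ)) :=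
    Finset.prod_congr rfl fun z hz => by rw [_root_.Run7.h26.CN.psi_term (XQ hp V) hz]
  rw [hterm]
  by_cases hmp : (p : ℕ) ∣ m
  · unfold loc4
    rw [if_neg (by rw [not_not]; exact hmp.mul_left 2)]
    rw [Finset.prod_eq_one, inv_one]
    intro z hz
    have h5 : z ∣ DD pr V := by
      rw [hm]
      refine (Ip_spec hpp hz).2.2.2.trans ?_
      exact_mod_cast Nat.cast_dvd_cast (α := ZI) hmp
    rw [XQ_zero_of_dvd hp V (hPP z hz) h5]
    simp
  have hpm : ¬ (p : ℕ) ∣ 2 * m := by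
    intro h
    rcases (Nat.Prime.dvd_mul hpp).1 h with h | h
    · exact h2 ((Nat.prime_dvd_prime_iff_eq hpp Nat.prime_two).1 h)
    · exact hmp h
  unfold loc4
  rw [if_pos hpm, _root_.Run7.h26.CN.X_sq]
  congr 1
  -- no Gaussian prime above `p` divides `m`
  have hnd : ∀ z : ZI, PP z → ((p : ℕ) : ℤ) ∣ z.norm → ∀ n : ℤ, z ∣ (n : ZI) → ((p : ℕ) : ℤ) ∣ n := by
    intro z hz hzn n hd
    obtain ⟨c, hc⟩ := hd
    have h6 := congrArg Zsqrtd.norm hc
    rw [Zsqrtd.norm_mul, norm_def'] at h6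
    simp only [Zsqrtd.re_intCast, Zsqrtd.im_intCast] at h6
    have h7 : ((p : ℕ) : ℤ) ∣ n ^ 2 := by
      have : n ^ 2 = z.norm * c.norm := by rw [← h6]; ring
      rw [this]
      exact hzn.mul_right _
    exact (Nat.prime_iff_prime_int.1 hpp).dvd_of_dvd_pow h7
  have hnd2 : ∀ z : ZI, PP z → ((p : ℕ) : ℤ) ∣ z.norm → ¬ z ∣ 2 * (m : ZI) := by
    intro z hz hzn hd
    have h8 := hnd z hz hzn (2 * (m : ℤ)) (by push_cast; exact hd)
    exact hpm (by exact_mod_cast h8)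
  have hnd3 : ∀ z : ZI, PP z → ((p : ℕ) : ℤ) ∣ z.norm → ¬ z ∣ DD pr V := by
    intro z hz hzn hd
    rw [hm] at hd
    exact hnd2 z hz hzn (hd.mul_left _)
  rcases h4 with h1 | h3
  · obtain ⟨x, hne, hx, hxx, hn, hI⟩ := Ip_one hpp h1
    have hd : dg (p : ℕ) = 1 := by unfold dg; rw [if_pos h1]
    have hxn : x.norm = (p : ℕ) := by rw [← nrm_cast, hn]
    have hxs : (star x).norm = (p : ℕ) := by
      rw [Zsqrtd.norm_conj]; exact hxn
    have hxI : x ∈ Ip (p : ℕ) := by rw [hI]; simp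
    have hPx : PP x := hPP x hxI
    have hPs : PP (star x) := hPP _ (by rw [hI]; simp)
    set c := q4 x (-(2 * (m : ZI))) with hc
    have hv1 : XQ hp V x = (starRingEnd ℂ) (tc c) := XQ_q4 hp V hm hPx (hnd3 x hPx (by rw [hxn]))
    have hv2 : XQ hp V (star x) = tc c := by
      rw [XQ_q4 hp V hm hPs (hnd3 _ hPs (by rw [hxs]))]
      have e : -(2 * (m : ZI)) = star (-(2 * (m : ZI))) := by
        rw [star_neg, star_mul, star_natCast, star_ofNat, mul_comm]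
      rw [e, q4_star hPx, tc_star, Complex.conj_conj]
    have hcn : tc c * (starRingEnd ℂ) (tc c) = 1 := by
      have h9 := q4_norm hPx (a := -(2 * (m : ZI))) (fun h => hnd2 x hPx (by rw [hxn]) ((dvd_neg).1 h))
      rw [← hc] at h9
      have h10 := unit_star_mul h9
      have h11 := congrArg tc h10
      rw [tc_mul, tc_star, tc_one] at h11
      exact h11
    rw [hI, Finset.prod_pair hne, hd, pow_one, hv1, hv2]
    have hcd := card_split m h1 hPx hxI hxn (hnd2 x hPx (by rw [hxn]))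
    rw [← hc] at hcd
    have hcd' := congrArg tc hcd
    have htr : ((((p : ℕ) : ℂ)) - (Nat.card {q : ZMod p × ZMod p //
      q.2 ^ 2 = q.1 ^ 3 + ((2 * (m : ℤ) : ℤ) : ZMod p) * q.1 + ((0 : ℤ) : ZMod p)} : ℂ)) =
        (starRingEnd ℂ) (tc c) * tc x + tc c * tc (star x) := by
      have e1 : tc (star c * x + c * star x) = (starRingEnd ℂ) (tc c) * tc x + tc c * tc (star x) := by
        have e2 : ∀ a b : ZI, tc (a + b) = tc a + tc b := fun a b => map_add GaussianInt.toComplex a b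
        rw [e2, tc_mul, tc_mul, tc_star]
      rw [← e1, ← hcd']
      have e3 : ∀ n : ℤ, tc (n : ZI) = (n : ℂ) := fun n => map_intCast GaussianInt.toComplex n
      rw [e3]
      push_cast
      rfl
    rw [htr]
    have hpr : tc x * tc (star x) = ((p : ℕ) : ℂ) := by
      rw [← tc_mul, hxx]
      unfold tc
      simp
    set X := ((p : ℕ) : ℂ) ^ (-s) with hX
    linear_combination (X ^ 2 * tc c * (starRingEnd ℂ) (tc c)) * hpr + (((p : ℕ) : ℂ) * X ^ 2) * hcn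
  · have hd : dg (p : ℕ) = 2 := by unfold dg; rw [if_neg (by omega)]
    rw [Ip_three h3, Finset.prod_singleton, hd]
    have hP : PP (-((p : ℕ) : ZI)) := hPP _ (by rw [Ip_three h3]; simp)
    have hn : (-((p : ℕ) : ZI)).norm = ((p : ℕ) : ℤ) ^ 2 := by
      rw [norm_def']
      simp only [Zsqrtd.re_neg, Zsqrtd.im_neg, Zsqrtd.re_natCast, Zsqrtd.im_natCast]
      ring
    have hpd : ((p : ℕ) : ℤ) ∣ (-((p : ℕ) : ZI)).norm := by rw [hn]; exact dvd_pow_self _ two_ne_zero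
    have hv : XQ hp V (-((p : ℕ) : ZI)) = 1 := by
      rw [XQ_q4 hp V hm hP (hnd3 _ hP hpd)]
      have e : -(2 * (m : ZI)) = ((-(2 * (m : ℤ)) : ℤ) : ZI) := by push_cast; ring
      rw [e, q4_inert hpp h3 hP]
      · rw [tc_one, map_one]
      · intro h
        rw [dvd_neg] at h
        exact hpm (by exact_mod_cast h)
    rw [hv]
    have htc : tc (-((p : ℕ) : ZI)) = -((p : ℕ) : ℂ) := by
      unfold tc
      simp
    rw [htc]
    have hap := Pool.Agent.Y692.QN.ap_three (2 * (m : ℤ)) hpp h3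
    unfold Pool.Agent.Y19.QT.ap at hap
    have hap' : (((p : ℕ) : ℂ) - (Nat.card {q : ZMod p × ZMod p //
      q.2 ^ 2 = q.1 ^ 3 + ((2 * (m : ℤ) : ℤ) : ZMod p) * q.1 + ((0 : ℤ) : ZMod p)} : ℂ)) = 0 := by
      exact_mod_cast congrArg (Int.cast : ℤ → ℂ) hap
    rw [hap']
    ring

theorem hasProd_primes (hp : PF pr) (V : Finset ι) (m : ℕ) (hm : DD pr V = (m : ZI)) {s : ℂ}
    (hs : (3 : ℝ) / 2 < s.re) :
    HasProd (fun p : Nat.Primes => loc4 m p s) (LH (XQ hp V) (s - 1 / 2)) := by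
  obtain ⟨A, hA, hgood⟩ := goodH
  have H := XQ_HC hp V
  have hre : 1 < (s - 1 / 2).re := by
    have : (s - 1 / 2).re = s.re - 1 / 2 := by simp
    rw [this]; linarith
  have h1 := ep_hecke (uh_psi _ _ H) (s - 1 / 2) _ ((hgood _ _ H).2.1 _ hre)
  exact h1.congr_fun fun p => (local_eq hp V m hm p s).symm

theorem isLFun (hp : PF pr) (V : Finset ι) (m : ℕ) (hm : DD pr V = (m : ZI)) :
    Pool.Agent.Y19.QT.IsLFun (2 * (m : ℤ)) 0 (fun s => LH (XQ hp V) (s - 1 / 2)) := by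
  constructor
  · obtain ⟨A, hA, hgood⟩ := goodH
    have h1 := (hgood _ _ (XQ_HC hp V)).1
    exact h1.comp (differentiable_id.sub_const _)
  · intro s hs
    have h1 := hasProd_primes hp V m hm hs
    have h2 : HasProd (fun p : Nat.Primes => (fun p : ℕ => loc4 m p s) (p : ℕ))
        (LH (XQ hp V) (s - 1 / 2)) := h1
    have h3 : HasProd ({p : ℕ | p.Prime}.mulIndicator (fun p : ℕ => loc4 m p s))
        (LH (XQ hp V) (s - 1 / 2)) :=
      (hasProd_subtype_iff_mulIndicator (s := {p : ℕ | p.Prime})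
        (f := fun p : ℕ => loc4 m p s)).1 h2
    refine h3.congr_fun fun p => ?_
    by_cases hpp : p.Prime
    · rw [Set.mulIndicator_of_mem (show p ∈ {p : ℕ | p.Prime} from hpp)]
      have e : (p : ℤ) ∣ 2 * (-4 * (2 * (m : ℤ)) ^ 3 - 27 * 0 ^ 2) ↔ p ∣ 2 * m := by
        have e1 : (2 * (-4 * (2 * (m : ℤ)) ^ 3 - 27 * 0 ^ 2) : ℤ) = -((2 ^ 6 * m ^ 3 : ℕ) : ℤ) := by
          push_cast; ring
        rw [e1, dvd_neg, Int.natCast_dvd_natCast, Nat.Prime.dvd_mul hpp, Nat.Prime.dvd_mul hpp]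
        constructor
        · rintro (h | h)
          · exact Or.inl (hpp.dvd_of_dvd_pow h)
          · exact Or.inr (hpp.dvd_of_dvd_pow h)
        · rintro (h | h)
          · exact Or.inl (dvd_pow h (by norm_num))
          · exact Or.inr (dvd_pow h (by norm_num))
      unfold loc4
      by_cases hb : p ∣ 2 * m
      · have a1 : ¬ (p.Prime ∧ ¬ (p : ℤ) ∣ 2 * (-4 * (2 * (m : ℤ)) ^ 3 - 27 * 0 ^ 2)) := by
          rintro ⟨-, h⟩
          exact h (e.2 hb)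
        rw [if_neg a1, if_neg (not_not.2 hb)]
      · have a1 : p.Prime ∧ ¬ (p : ℤ) ∣ 2 * (-4 * (2 * (m : ℤ)) ^ 3 - 27 * 0 ^ 2) :=
          ⟨hpp, fun h => hb (e.1 h)⟩
        rw [if_pos a1, if_pos hb]
    · rw [Set.mulIndicator_of_notMem (show p ∉ {p : ℕ | p.Prime} from hpp), if_neg]
      exact fun h => hpp h.1

/-- **the L-function of `y² = x³ + 2 m x`**, given the central value -/
theorem Lfun4_of (m : ℕ) (hm : Squarefree m) (h1 : ∀ p ∈ m.primeFactors, p % 4 = 1)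
    (hne : LH (XQ (_root_.Run7.h26.CN.prm_PF m h1) Finset.univ) (1 / 2) ≠ 0) :
    ∃ F : ℂ → ℂ, Differentiable ℂ F ∧ F 1 ≠ 0 ∧ Pool.Agent.Y19.QT.IsLFun (2 * (m : ℤ)) 0 F := by
  have hL := isLFun (_root_.Run7.h26.CN.prm_PF m h1) Finset.univ m (_root_.Run7.h26.CN.prm_DD m h1 hm)
  refine ⟨_, hL.1, ?_, hL⟩
  have e : (1 : ℂ) - 1 / 2 = 1 / 2 := by norm_num
  show LH (XQ (_root_.Run7.h26.CN.prm_PF m h1) Finset.univ) (1 - 1 / 2) ≠ 0
  rw [e]
  exact hne

open Filter Topology in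
/-- **the L-function of `y² = x³ + 2 m x`**, given the limit of the regularised sums -/
theorem Lfun4 (m : ℕ) (hm : Squarefree m) (h1 : ∀ p ∈ m.primeFactors, p % 4 = 1) {l : ℂ}
    (hl : Tendsto (RS (cq (_root_.Run7.h26.CN.prm m h1) Finset.univ)) (𝓝[>] 0) (𝓝 l)) (h0 : l ≠ 0) :
    ∃ F : ℂ → ℂ, Differentiable ℂ F ∧ F 1 ≠ 0 ∧ Pool.Agent.Y19.QT.IsLFun (2 * (m : ℤ)) 0 F :=
  Lfun4_of m hm h1 (LQ_ne _ _ hl h0)

end Pool.Agent.Run7.h135.Q4L
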