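import Pool.Agent.Run7.h135.Q4B
import Pool.Agent.Run7.h135.Q4L3

/-!
The sum of the weights, and the L-function of `y² = x³ + 2 m x` from the two analytic facts.
-/

set_option autoImplicit false
set_option linter.unusedSectionVars false

open Filter Complex
open scoped Topology PeriodPair
open Pool.Agent.TH936.CM

namespace Pool.Agent.Run7.h135.Q4L

open Pool.Agent.Y699
open H385 (ZI RQ im1 nrm)
open Pool.Agent.H304R3.HK (tc)
open Pool.Agent.H304R2.EC.A1 (prim)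

variable {ι : Type} [Fintype ι] [DecidableEq ι] {pr : ι → ZI}

lemma wt_wq (hp : PF pr) (i : ι) : wt pr i = ((wq (pr i) : ℕ) : ZMod 2) := by
  have h1 := (hp.pp i).nrm_mod
  have h2 := nrm_cast (pr i)
  unfold wt wq
  by_cases h : (pr i).norm % 8 = 5
  · rw [if_pos h]
    obtain ⟨k, hk⟩ : ∃ k, nrm (pr i) / 4 = 2 * k + 1 := ⟨nrm (pr i) / 8, by omega⟩
    rw [hk]
    push_cast
    have : (2 : ZMod 2) = 0 := by decide
    rw [this]
    ring
  · rw [if_neg h]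
    obtain ⟨k, hk⟩ : ∃ k, nrm (pr i) / 4 = 2 * k := ⟨nrm (pr i) / 8, by omega⟩
    rw [hk]
    push_cast
    have : (2 : ZMod 2) = 0 := by decide
    rw [this]
    ring

lemma sum_wt_zero (hp : PF pr) (V : Finset ι) {m : ℕ} (hm : DD pr V = (m : ZI)) :
    ∑ i ∈ V, wt pr i = 0 := by
  rw [Finset.sum_congr rfl fun i _ => wt_wq hp i, ← Nat.cast_sum, ZMod.natCast_eq_zero_iff]
  exact Nat.dvd_of_mod_eq_zero (sum_wq_even hp V hm)

/-- **the L-function of `y² = x³ + 2 m x`** -/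
theorem Lfun_of {L : PeriodPair} {Ω : ℂ} {G : ℂ → ℂ} {κ : ℂ} {Γ : Type*}
    [LinearOrderedCommGroupWithZero Γ] {v : Valuation ℂ Γ} (h : IsLat L RG Ω) (hG : Lim8 G L Ω)
    (h2 : v 2 < 1)
    (hQ : ∀ {κ' : Type} [Fintype κ'] [DecidableEq κ'] {pr : κ' → ZI}, PF pr → ∀ (V : Finset κ')
      [Fintype (RQ (DD pr V))],
      Cg v (QG G Ω pr V / (1 + I) ^ V.card / κ) (uu (FF (wt pr) V)))
    (m : ℕ) (hm : Squarefree m) (h1 : ∀ p ∈ m.primeFactors, p % 4 = 1)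
    (hker : ∀ x : ℕ → ZMod 2, (∀ p ∈ m.primeFactors,
      ∑ q ∈ m.primeFactors, Pool.Agent.Y703.CQ.nr p q * (x q + x p) +
      (if p % 8 = 5 then 1 else 0) * x p = 0) → ∀ p ∈ m.primeFactors, x p = 0) :
    ∃ F : ℂ → ℂ, Differentiable ℂ F ∧ F 1 ≠ 0 ∧ Pool.Agent.Y19.QT.IsLFun (2 * (m : ℤ)) 0 F := by
  have hp := _root_.Run7.h26.CN.prm_PF m h1
  have hD := _root_.Run7.h26.CN.prm_DD m h1 hm
  obtain ⟨l, hl⟩ := exists_lim_cq h hG hp Finset.univ
  exact Lfun4 m hm h1 hl (lim_ne h hG hp h2 (hQ hp) (sum_wt_zero hp _ hD)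
    (_root_.Run7.h26.CN.bridge m h1 hker) hl)

end Pool.Agent.Run7.h135.Q4L
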