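import Pool.Agent.Y699.Qc

/-!
The Hecke character of `y² = x³ + 2 m x`, and its central value (after `Y699/Qc` and `Y699/Cen`).
-/

set_option autoImplicit false
set_option linter.unusedSectionVars false
set_option linter.unusedSimpArgs false

open Filter Complex MeasureTheory Set
open scoped Topology PeriodPair
open Pool.Agent.TH936.CM

namespace Pool.Agent.Run7.h135.Q4L

open Pool.Agent.Y699
open H385 (ZI RQ im1 nrm)
open Pool.Agent.H304R3.HK (tc HC LH bH TH FF Th th_psi chi_le)
open Pool.Agent.W164.RC (tc_mul tc_star two2 prim_iff_dvd unit_norm unit_cases)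
open Pool.Agent.H304R2.EC.A1 (prim prim_mul prim_cancel prim_one prim_norm_odd prim_star eq_one_of_prim
  norm_def' re_mul' im_mul' eq_of_dvd prim_ne_zero exists_prim)

variable {ι : Type} [DecidableEq ι] {pr : ι → ZI}

/-- the exponents equal to one -/
abbrev e1 {ι : Type} : ι → ℕ := fun _ => 1

/-- the symbol of minus two on primary elements -/
def mu (a : ZI) : ZI := im1 ^ ((a.im / 2) % 4).toNat

lemma mu_norm (a : ZI) : (mu a).norm = 1 := by
  unfold mu
  have : ∀ j : ℕ, (im1 ^ j : ZI).norm = 1 := by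
    intro j
    induction j with
    | zero => simp
    | succ j ih => rw [pow_succ, Zsqrtd.norm_mul, ih]; decide
  exact this _

lemma mu_one : mu 1 = 1 := by decide

lemma mu_eq_pow {a : ZI} {k : ℕ} (h : (a.im / 2) % 4 = (k : ℤ) % 4) : mu a = im1 ^ k := by
  unfold mu
  apply unit_pow_mod (by decide)
  omega

lemma mu_mul {a b : ZI} (ha : prim a) (hb : prim b) : mu (a * b) = mu a * mu b := by
  have e : mu a * mu b = im1 ^ (((a.im / 2) % 4).toNat + ((b.im / 2) % 4).toNat) := by
    rw [pow_add]; rfl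
  rw [e]
  apply mu_eq_pow
  obtain ⟨h1, h2⟩ := ha
  obtain ⟨h3, h4⟩ := hb
  obtain ⟨c, hc⟩ : ∃ c, a.im = 2 * c := ⟨a.im / 2, by omega⟩
  obtain ⟨d, hd⟩ : ∃ d, b.im = 2 * d := ⟨b.im / 2, by omega⟩
  obtain ⟨s, hs⟩ : ∃ s, a.re = 1 - 2 * c + 4 * s := ⟨(a.re - 1 + 2 * c) / 4, by omega⟩
  obtain ⟨t, ht⟩ : ∃ t, b.re = 1 - 2 * d + 4 * t := ⟨(b.re - 1 + 2 * d) / 4, by omega⟩
  have hi : (a * b).im = 2 * (c + d + 4 * (s * d + t * c - c * d)) := by
    rw [im_mul', hc, hd, hs, ht]; ring
  rw [hi, hc, hd]
  have q1 : (2 * (c + d + 4 * (s * d + t * c - c * d))) / 2 = c + d + 4 * (s * d + t * c - c * d) := by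
    omega
  have q2 : (2 * c) / 2 = c := by omega
  have q3 : (2 * d) / 2 = d := by omega
  rw [q1, q2, q3]
  push_cast
  rw [Int.toNat_of_nonneg (by omega), Int.toNat_of_nonneg (by omega)]
  omega

lemma mu_per {a b : ZI} (h : (8 : ZI) ∣ a - b) : mu a = mu b := by
  obtain ⟨c, hc⟩ := h
  have h1 := congrArg Zsqrtd.im hc
  rw [Zsqrtd.im_sub, im_mul'] at h1
  have q1 : (8 : ZI).re = 8 := rfl
  have q2 : (8 : ZI).im = 0 := rfl
  rw [q1, q2] at h1
  unfold mu
  congr 2
  omega

/-- the coefficients -/
noncomputable def cq (pr : ι → ZI) (V : Finset ι) (a : ZI) : ℂ :=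
  open Classical in if prim a then tc (mu a * c4 pr V e1 a) else 0

/-- the Hecke character -/
noncomputable def XQ (hp : PF pr) (V : Finset ι) : ZI →* ℂ where
  toFun a := tc (un a) * (starRingEnd ℂ) (tc (mu (un a * a) * c4 pr V e1 (un a * a)))
  map_one' := by
    rw [un_prim prim_one, one_mul, c4_one hp, mu_one, one_mul, tc_one]
    simp
  map_mul' := by
    intro a b
    have e : un (a * b) * (a * b) = (un a * a) * (un b * b) := by rw [un_mul]; ring
    by_cases ha : a.norm % 2 = 1
    · by_cases hb : b.norm % 2 = 1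
      · obtain ⟨u, hu⟩ := exists_Um ha
        obtain ⟨w, hw⟩ := exists_Um hb
        have h1 : prim (un a * a) := by rw [un_eq hu]; exact hu.2
        have h2 : prim (un b * b) := by rw [un_eq hw]; exact hw.2
        rw [e, c4_mul hp, mu_mul h1 h2, un_mul]
        simp only [tc_mul, map_mul]
        ring
      · rw [un_mul, un_even hb, mul_zero, tc_zero, zero_mul, zero_mul, mul_zero]
    · rw [un_mul, un_even ha, zero_mul, tc_zero, zero_mul, zero_mul, zero_mul]

lemma XQ_apply (hp : PF pr) (V : Finset ι) (a : ZI) :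
    XQ hp V a = tc (un a) * (starRingEnd ℂ) (tc (mu (un a * a) * c4 pr V e1 (un a * a))) := rfl

lemma XQ_prim (hp : PF pr) (V : Finset ι) {a : ZI} (ha : prim a) :
    XQ hp V a = (starRingEnd ℂ) (tc (mu a * c4 pr V e1 a)) := by
  rw [XQ_apply, un_prim ha, tc_one, one_mul, one_mul]

/-- the conductor -/
noncomputable def cnq (pr : ι → ZI) (V : Finset ι) : ZI := 8 * DD pr V

lemma eight_eq_pi : (8 : ZI) = pi1 ^ 6 * ⟨0, 1⟩ := by decide

lemma cop_cnq (hp : PF pr) (V : Finset ι) (a : ZI) : IsCoprime a (cnq pr V) ↔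
    a.norm % 2 = 1 ∧ ∀ i ∈ V, ¬ pr i ∣ a := by
  rw [← cop_cn4 hp]
  unfold cnq cn4
  have e : (8 : ZI) = 2 ^ 3 := by decide
  rw [IsCoprime.mul_right_iff, IsCoprime.mul_right_iff, e]
  refine and_congr ?_ Iff.rfl
  constructor
  · intro h
    exact h.of_isCoprime_of_dvd_right (dvd_pow_self _ (by norm_num))
  · exact fun h => h.pow_right

lemma two2_dvd_eight : two2 ∣ (8 : ZI) := ⟨⟨2, -2⟩, by decide⟩

/-- multipliers of congruent elements agree -/
lemma Um.eight {a b u w : ZI} (h : Um a u) (h' : Um b w) (hab : (8 : ZI) ∣ a - b) : w = u := by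
  have h1 : Um b u := by
    refine ⟨h.1, ?_⟩
    rw [prim_iff_dvd]
    have h2 := (prim_iff_dvd _).1 h.2
    have h3 : two2 ∣ u * (a - b) := (two2_dvd_eight.trans hab).mul_left u
    have := dvd_sub h2 h3
    have e : u * a - 1 - u * (a - b) = u * b - 1 := by ring
    rwa [e] at this
  exact Um.unique h' h1

lemma mu_c4_norm (hp : PF pr) (V : Finset ι) {a : ZI} (h : ∀ i ∈ V, ¬ pr i ∣ a) :
    (mu a * c4 pr V e1 a).norm = 1 := by
  rw [Zsqrtd.norm_mul, mu_norm, c4_norm hp V e1 h, one_mul]

theorem XQ_HC (hp : PF pr) (V : Finset ι) : HC (cnq pr V) (XQ hp V) where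
  q0 := mul_ne_zero (by decide) (DD_ne hp V)
  per := by
    intro a b hab
    have h1 : (8 : ZI) ∣ a - b := (dvd_mul_right _ _).trans hab
    have h2 : DD pr V ∣ a - b := (dvd_mul_left _ _).trans hab
    rw [XQ_apply, XQ_apply]
    by_cases ha : ∃ u, Um a u
    · obtain ⟨u, hu⟩ := ha
      have hbo : b.norm % 2 = 1 := by
        rw [norm_odd_iff]
        intro hb
        apply (norm_odd_iff a).1 hu.odd
        have h3 : pi1 ∣ a - b := (show pi1 ∣ (8 : ZI) from ⟨⟨4, -4⟩, by decide⟩).trans h1
        have := dvd_add h3 hb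
        rwa [sub_add_cancel] at this
      obtain ⟨w, hw⟩ := exists_Um hbo
      have hwu := Um.eight hu hw h1
      subst hwu
      have hc : c4 pr V e1 (w * a) = c4 pr V e1 (w * b) := by
        apply c4_per hp
        rw [← mul_sub]
        exact h2.mul_left _
      have hm : mu (w * a) = mu (w * b) := by
        apply mu_per
        rw [← mul_sub]
        exact h1.mul_left _
      rw [un_eq hu, un_eq hw, hc, hm]
    · have ha' : a.norm % 2 ≠ 1 := fun h => ha (exists_Um h)
      have hb' : b.norm % 2 ≠ 1 := by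
        intro hb
        apply ha'
        rw [norm_odd_iff] at hb ⊢
        intro h5
        apply hb
        have h3 : pi1 ∣ a - b := (show pi1 ∣ (8 : ZI) from ⟨⟨4, -4⟩, by decide⟩).trans h1
        have := dvd_sub h5 h3
        rwa [sub_sub_cancel] at this
      rw [un_even ha', un_even hb', tc_zero, zero_mul, zero_mul]
  supp := by
    intro a
    rw [cop_cnq hp V, XQ_apply]
    constructor
    · intro h
      have h1 : a.norm % 2 = 1 := by
        by_contra hc
        apply h
        rw [un_even hc, tc_zero, zero_mul]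
      refine ⟨h1, fun i hi hd => h ?_⟩
      rw [c4_zero e1 hi (hd.mul_left _), mul_zero, tc_zero, map_zero, mul_zero]
    · rintro ⟨h1, h2⟩
      obtain ⟨u, hu⟩ := exists_Um h1
      rw [un_eq hu]
      have hn := mu_c4_norm hp V (a := u * a) (fun i hi h => h2 i hi ((qr_unit_mul (hp.pp i) hu.1 a).1 h))
      intro h0
      have h3 := congrArg norm h0
      rw [norm_mul, unit_tc hu.1, RCLike.norm_conj, unit_tc hn, norm_zero] at h3
      norm_num at h3
  nrm := by
    intro a ha
    obtain ⟨h1, h2⟩ := (cop_cnq hp V a).1 ha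
    obtain ⟨u, hu⟩ := exists_Um h1
    have hn := mu_c4_norm hp V (a := u * a) (fun i hi h => h2 i hi ((qr_unit_mul (hp.pp i) hu.1 a).1 h))
    rw [XQ_apply, un_eq hu, norm_mul, unit_tc hu.1, one_mul, RCLike.norm_conj, unit_tc hn]
  unit := by
    have h1 : Um ⟨0, 1⟩ ⟨0, -1⟩ := by
      refine ⟨by decide, ?_⟩
      have : (⟨0, -1⟩ : ZI) * ⟨0, 1⟩ = 1 := by decide
      rw [this]
      exact prim_one
    rw [XQ_apply, un_eq h1]
    have e : (⟨0, -1⟩ : ZI) * ⟨0, 1⟩ = 1 := by decide
    rw [e, c4_one hp, mu_one, one_mul, tc_one, map_one, mul_one]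
    unfold tc
    simp
  prim := by
    intro d hd hnd
    by_cases hB : ∃ i ∈ V, ¬ pr i ∣ d
    · obtain ⟨i, hi, hid⟩ := hB
      have hDi : DD pr V = pr i * DD pr (V.erase i) := by
        unfold DD
        exact (Finset.mul_prod_erase V pr hi).symm
      set m := 8 * DD pr (V.erase i) with hm
      have hcop : IsCoprime (pr i) m := by
        rw [hm]
        refine IsCoprime.mul_right ?_ ?_
        · have e8 : (8 : ZI) = 2 ^ 3 := by decide
          rw [e8]
          exact (((hp.pp i).pr.irreducible.coprime_iff_not_dvd).2 (not_dvd_two (hp.pp i))).pow_right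
        · unfold DD
          rw [IsCoprime.prod_right_iff]
          intro j hj
          exact (hp.pp i).cop (hp.pp j) fun h => (Finset.mem_erase.1 hj).1 (hp.inj h).symm
      have hdm : d ∣ m := by
        have h1 : d ∣ pr i * m := by
          have e : pr i * m = cnq pr V := by
            unfold cnq
            rw [hDi, hm]
            ring
          rw [e]; exact hd
        have h2 : IsCoprime d (pr i) :=
          (((hp.pp i).pr.irreducible.coprime_iff_not_dvd).2 hid).symm
        exact h2.dvd_of_dvd_mul_left h1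
      -- an element with nontrivial symbol
      obtain ⟨b, hb⟩ : ∃ b, ¬ pr i ∣ b ∧ q4 (pr i) b ≠ 1 := by
        obtain ⟨b, hb⟩ := exists_nonres (hp.pp i)
        have hbn : ¬ pr i ∣ b := by
          intro h
          rw [qr_zero_iff.2 h] at hb
          norm_num at hb
        have h5 := q4_sq (hp.pp i) b
        rw [hb] at h5
        refine ⟨b, hbn, ?_⟩
        intro h10
        rw [h10] at h5
        exact absurd h5 (by decide)
      obtain ⟨x, y, hxy⟩ := hcop
      set a : ZI := x * pr i + b * (y * m) with ha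
      have ha1 : m ∣ a - 1 := ⟨b * y - y, by rw [ha]; linear_combination hxy⟩
      have ha2 : pr i ∣ a - b := ⟨x - b * x, by rw [ha]; linear_combination b * hxy⟩
      have ha8 : (8 : ZI) ∣ a - 1 := (dvd_mul_right _ _).trans ha1
      have hpa : prim a := by
        rw [prim_iff_dvd]
        exact two2_dvd_eight.trans ha8
      have hmu : mu a = 1 := by rw [mu_per ha8, mu_one]
      have hch : c4 pr V e1 a = q4 (pr i) b := by
        unfold c4
        rw [← Finset.mul_prod_erase V _ hi, fe_per (hp.pp i) _ ha2, Finset.prod_eq_one, mul_one]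
        · unfold fe
          rw [if_neg hb.1, pow_one]
        · intro j hj
          have h3 : pr j ∣ a - 1 := by
            refine (dvd_DD hj).trans ((dvd_mul_left _ _).trans ha1)
          rw [fe_per (hp.pp j) _ h3, fe_unit (hp.pp j) _ (by decide), one_pow]
      have hnz : ∀ j ∈ V, ¬ pr j ∣ a := by
        intro j hj hd'
        have h5 := c4_zero (pr := pr) e1 hj hd'
        rw [hch] at h5
        have h6 := q4_norm (hp.pp i) hb.1
        rw [h5] at h6
        exact absurd h6 (by decide)
      refine ⟨a, ?_, hdm.trans ha1, ?_⟩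
      · rw [cop_cnq hp V]
        exact ⟨prim_norm_odd hpa, hnz⟩
      · rw [XQ_prim hp V hpa, hmu, one_mul, hch]
        intro h5
        apply hb.2
        apply tc_inj
        rw [tc_one]
        have := congrArg (starRingEnd ℂ) h5
        rwa [Complex.conj_conj, map_one] at this
    · push Not at hB
      have hD1 : DD pr V ∣ d := by
        unfold DD
        refine Finset.prod_dvd_of_coprime ?_ hB
        intro i _ j _ hij
        exact (hp.pp i).cop (hp.pp j) fun h => hij (hp.inj h)
      obtain ⟨f, hf⟩ := hD1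
      have he2 : f ∣ 8 := by
        unfold cnq at hd
        rw [hf, mul_comm 8] at hd
        exact (mul_dvd_mul_iff_left (DD_ne hp V)).1 hd
      have he3 : ¬ (8 : ZI) ∣ f := by
        intro h
        apply hnd
        unfold cnq
        rw [hf, mul_comm 8]
        exact mul_dvd_mul_left _ h
      have he4 : f ∣ 4 * pi1 := by
        rw [eight_eq_pi] at he2
        have hu : IsUnit (⟨0, 1⟩ : ZI) := IsUnit.of_mul_eq_one ⟨0, -1⟩ (by decide)
        have he5 : f ∣ pi1 ^ 6 := (hu.dvd_mul_right).1 he2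
        obtain ⟨k, hk, hk2⟩ := (dvd_prime_pow pi1_prime 6).1 he5
        have hk3 : k ≠ 6 := by
          rintro rfl
          apply he3
          rw [eight_eq_pi]
          exact (hu.mul_right_dvd).2 hk2.symm.dvd
        have hk4 : pi1 ^ k ∣ pi1 ^ 5 := pow_dvd_pow _ (by omega)
        have e5 : (4 * pi1 : ZI) = pi1 ^ 5 * (-1) := by decide
        rw [e5]
        exact (hk2.dvd.trans hk4).mul_right _
      have hDp := DD_prim hp V
      set D := DD pr V with hD
      set a : ZI := 1 + 4 * pi1 * D with ha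
      have haD : D ∣ a - 1 := ⟨4 * pi1, by rw [ha]; ring⟩
      have hpa : prim a := by
        rw [prim_iff_dvd]
        have : two2 ∣ 4 * pi1 := ⟨2, by decide⟩
        have e : a - 1 = 4 * pi1 * D := by rw [ha]; ring
        rw [e]
        exact this.mul_right _
      have hmu : mu a = -1 := by
        have e : (-1 : ZI) = im1 ^ 2 := by decide
        rw [e]
        apply mu_eq_pow
        obtain ⟨h1, h2⟩ := hDp
        have q4 : a.im = 4 * (D.re + D.im) := by
          rw [ha]
          simp only [Zsqrtd.re_add, Zsqrtd.im_add, im_mul', re_mul', pi1, Zsqrtd.im_one]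
          have q1 : (4 : ZI).re = 4 := rfl
          have q2 : (4 : ZI).im = 0 := rfl
          rw [q1, q2]
          ring
        omega
      have hX : XQ hp V a = -1 := by
        rw [XQ_prim hp V hpa, hmu, c4_per hp V e1 (b := 1) haD, c4_one hp, mul_one, tc_neg, tc_one]
        simp
      refine ⟨a, ?_, ?_, ?_⟩
      · rw [cop_cnq hp V]
        refine ⟨prim_norm_odd hpa, fun j hj hd' => ?_⟩
        have h4 : pr j ∣ a - 1 := (dvd_DD hj).trans haD
        have h5 := dvd_sub hd' h4
        rw [sub_sub_cancel] at h5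
        exact (hp.pp j).pr.not_isUnit (isUnit_of_dvd_one h5)
      · obtain ⟨g, hg⟩ := he4
        rw [hf]
        exact ⟨g, by rw [ha]; linear_combination D * hg⟩
      · rw [hX]
        norm_num

theorem sum_XQ (hp : PF pr) (V : Finset ι) {δ : ℝ} (hδ : 0 < δ) :
    ∑' a : ZI, XQ hp V a * (starRingEnd ℂ) (fd δ (tc a)) =
      4 * (starRingEnd ℂ) (RS (cq pr V) δ) := by
  classical
  obtain ⟨L, Ω, hGL⟩ := exists_lat
  have H := XQ_HC hp V
  have hs : Summable (fun a : ZI => XQ hp V a * (starRingEnd ℂ) (fd δ (tc a))) := by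
    refine Summable.of_norm_bounded (summ_tc hGL.lat hδ).norm fun a => ?_
    rw [norm_mul, RCLike.norm_conj]
    exact mul_le_of_le_one_left (norm_nonneg _) (chi_le _ _ H a)
  rw [sum_units hs]
  · congr 1
    unfold RS
    rw [Complex.conj_tsum]
    refine tsum_congr fun a => ?_
    by_cases ha : prim a
    · have h1 : cq pr V a = tc (mu a * c4 pr V e1 a) := by
        unfold cq
        rw [if_pos ha]
      rw [if_pos ha, XQ_prim hp V ha, map_mul, h1]
    · have h1 : cq pr V a = 0 := by
        unfold cq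
        rw [if_neg ha]
      rw [if_neg ha, h1, zero_mul, map_zero]
  · intro a
    have h1 : XQ hp V im1 = -I := H.unit
    rw [map_mul, h1, tc_mul, tc_im1, fd_mul]
    have h2 : Complex.normSq I = 1 := by simp
    rw [h2, mul_one, map_mul, map_inv₀, Complex.conj_I]
    have h3 : (-I : ℂ)⁻¹ = I := by
      rw [inv_neg, Complex.inv_I, neg_neg]
    rw [h3]
    linear_combination (-(XQ hp V a * (starRingEnd ℂ) (fd δ (tc a)))) * I_sq
  · intro a ha
    rw [XQ_apply, un_even ha, tc_zero]
    simp

/-- the central value is the conjugate of the limit -/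
theorem LQ_eq (hp : PF pr) (V : Finset ι) {l : ℂ} (hl : Tendsto (RS (cq pr V)) (𝓝[>] 0) (𝓝 l)) :
    LH (XQ hp V) (1 / 2) = (starRingEnd ℂ) l := by
  have h1 := center (XQ_HC hp V)
  have h2 : Tendsto (fun δ : ℝ => 4 * (starRingEnd ℂ) (RS (cq pr V) (Real.pi * δ))) (𝓝[>] 0)
      (𝓝 (4 * (starRingEnd ℂ) l)) := by
    have h3 := tendsto_scale hl Real.pi_pos
    have h4 := (Complex.continuous_conj.tendsto l).comp h3
    have h5 := h4.const_mul 4
    refine h5.congr fun δ => ?_
    simp only [Function.comp_apply]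
    rw [mul_comm δ]
  have h3 := tendsto_nhds_unique h1 (h2.congr' (by
    filter_upwards [self_mem_nhdsWithin] with δ (hδ : 0 < δ)
    exact (sum_XQ hp V (by positivity)).symm))
  exact mul_left_cancel₀ (by norm_num) h3

theorem LQ_ne (hp : PF pr) (V : Finset ι) {l : ℂ} (hl : Tendsto (RS (cq pr V)) (𝓝[>] 0) (𝓝 l))
    (h : l ≠ 0) : LH (XQ hp V) (1 / 2) ≠ 0 := by
  rw [LQ_eq hp V hl]
  exact (map_ne_zero _).2 h

end Pool.Agent.Run7.h135.Q4L
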