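import Pool.Agent.Run7.h135.Q4L1
import Pool.Agent.Y699.Qe
import Pool.Agent.Run7.h26.CN.Lq
import Pool.Agent.Y153.QN3.Two

/-!
The quartic symbol of `-2 m` at the primary primes, and the point counts of `y² = x³ + 2 m x`.
-/

set_option autoImplicit false
set_option linter.unusedSectionVars false
set_option linter.unusedSimpArgs false

namespace Pool.Agent.Run7.h135.Q4L

open NumberField IsDedekindDomain
open Pool.Agent.Y699
open H385 (ZI RQ im1 nrm)
open Pool.Agent.W164.RC (tc_mul tc_star two2 prim_iff_dvd unit_norm unit_cases Ip Ip_one Ip_three Ip_spec dg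
  local_poly local_two ep_hecke)
open Pool.Agent.H304R2.EC.A1 (prim prim_mul prim_cancel prim_one prim_norm_odd prim_star eq_one_of_prim
  norm_def' re_mul' im_mul' eq_of_dvd prim_ne_zero exists_prim)
open Pool.Agent.H304R3.HK (tc HC LH bH psi psi_apply uh_psi goodH bb ee UH tc_star_mul tc_ne_zero)
open Pool.Agent.H304R2.EC.Pts (SS SS_scale aE_eq_SS qc)
open Pool.Agent.H304R2.EC (PS PS_split an aE aE_eq)

/-! ### The Jacobi sums -/

/-- the field of fractions of the Gaussian integers -/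
abbrev K4 : Type := CyclotomicField 4 ℚ

instance : NeZero ((4 : ℕ) : ℚ) := ⟨by norm_num⟩

instance instCyc : IsCyclotomicExtension {4} ℚ K4 := CyclotomicField.isCyclotomicExtension 4 ℚ

/-- the fourth root of unity -/
noncomputable def z4 : K4 := IsCyclotomicExtension.zeta 4 ℚ K4

theorem z4_spec : IsPrimitiveRoot z4 4 := IsCyclotomicExtension.zeta_spec 4 ℚ K4

theorem z4_sq : z4 * z4 = -1 := by
  have h1 : z4 ^ 4 = 1 := z4_spec.pow_eq_one
  have h2 : z4 ^ 2 ≠ 1 := z4_spec.pow_ne_one_of_pos_of_lt (by norm_num) (by norm_num)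
  have h3 : (z4 ^ 2 - 1) * (z4 * z4 + 1) = 0 := by linear_combination h1
  rcases mul_eq_zero.1 h3 with h | h
  · exact absurd (sub_eq_zero.1 h) h2
  · linear_combination h

/-- the embedding of the Gaussian integers -/
noncomputable def emb : GaussianInt →+* K4 :=
  Zsqrtd.lift ⟨z4, by rw [z4_sq]; norm_num⟩

theorem emb_apply (z : GaussianInt) : emb z = z.re + z.im * z4 := rfl

theorem emb_inj : Function.Injective emb := by
  refine Zsqrtd.lift_injective _ ?_
  intro n h
  nlinarith [mul_self_nonneg n]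

theorem z4_integral : IsIntegral ℤ z4 := z4_spec.isIntegral (by norm_num)

theorem emb_integral (z : GaussianInt) : IsIntegral ℤ (emb z) := by
  rw [emb_apply]
  exact IsIntegral.add (isIntegral_algebraMap (R := ℤ) (x := z.re))
    (IsIntegral.mul (isIntegral_algebraMap (R := ℤ) (x := z.im)) z4_integral)

theorem emb_surj {x : K4} (hx : IsIntegral ℤ x) : ∃ z, emb z = x := by
  have h1 := IsCyclotomicExtension.Rat.isIntegralClosure_adjoin_singleton (n := 4) (K := K4) z4_spec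
  obtain ⟨y, hy⟩ := h1.isIntegral_iff.1 hx
  have h2 : Algebra.adjoin ℤ ({z4} : Set K4) ≤ (emb.toIntAlgHom).range := by
    refine Algebra.adjoin_le ?_
    intro u hu
    rw [Set.mem_singleton_iff] at hu
    rw [hu]
    exact ⟨⟨0, 1⟩, by simp [emb_apply]⟩
  obtain ⟨z, hz⟩ := h2 y.2
  exact ⟨z, by rw [← hy]; exact hz⟩

/-- the Gaussian integers are the ring of integers of `K4` -/
noncomputable def eK : ZI ≃+* 𝓞 K4 :=
  RingEquiv.ofBijective
    (emb.codRestrict (integralClosure ℤ K4).toSubring emb_integral : GaussianInt →+* 𝓞 K4)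
    ⟨fun a b h => emb_inj (congrArg Subtype.val h), fun x => by
      obtain ⟨z, hz⟩ := emb_surj x.2
      exact ⟨z, Subtype.ext hz⟩⟩

theorem JJ_all : JJ := JJ_of eK

/-! ### The residue field of a split prime -/

lemma res_split {z : ZI} (h : PP z) {p : ℕ} [Fact p.Prime] (hn : z.norm = p) :
    ∃ ρ : ZI →+* ZMod p, Res z (ZMod p) ρ := by
  classical
  have hpp : p.Prime := Fact.out
  have := fin_RQ h
  let i2 := Fintype.ofFinite (RQ z)
  have hc : Fintype.card (RQ z) = p := by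
    rw [card_fin h]
    have := nrm_cast z
    rw [hn] at this
    exact_mod_cast this
  set f := ZMod.ringEquivOfPrime (RQ z) hpp hc with hf
  refine ⟨(f.symm : RQ z →+* ZMod p).comp (Ideal.Quotient.mk (Ideal.span {z})), h, ?_, ?_, ?_⟩
  · intro x
    obtain ⟨y, hy⟩ := Ideal.Quotient.mk_surjective (f x)
    refine ⟨y, ?_⟩
    show f.symm (Ideal.Quotient.mk _ y) = x
    rw [hy, RingEquiv.symm_apply_apply]
  · intro a
    show f.symm (Ideal.Quotient.mk _ a) = 0 ↔ _
    rw [map_eq_zero_iff _ f.symm.injective]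
    exact mk_eq_zero a
  · rw [ZMod.card]
    have := nrm_cast z
    rw [hn] at this
    exact_mod_cast this.symm

/-- the symbol of two -/
lemma q4_two {z : ZI} (h : PP z) {p : ℕ} [Fact p.Prime] (h1 : p % 4 = 1) (hn : z.norm = p) :
    q4 z 2 = im1 ^ ((z.re * z.im / 2) % 4).toNat := by
  obtain ⟨ρ, hR⟩ := res_split h hn
  have hnn : nrm z = p := by
    have := nrm_cast z
    rw [hn] at this
    exact_mod_cast this
  set r := ρ im1 with hr
  have hr2 : r ^ 2 = -1 := by
    rw [hr, ← map_pow, im1_sq, map_neg, map_one]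
  have hz : z = (z.re : ZI) + (z.im : ZI) * im1 := by
    apply Zsqrtd.ext
    · simp [im1, re_mul']
    · simp [im1, im_mul']
  have h0 : ρ z = 0 := (hR.ker z).2 dvd_rfl
  rw [hz, map_add, map_mul, map_intCast, map_intCast, ← hr] at h0
  have hba : ((z.im : ℤ) : ZMod p) = r * ((z.re : ℤ) : ZMod p) := by
    linear_combination (-r) * h0 + ((z.im : ℤ) : ZMod p) * hr2
  have hnorm : z.re * z.re + z.im * z.im = (p : ℤ) := by
    rw [← hn, norm_def']; ring
  have hm := Pool.Agent.Y153.QN3.two_main h1 z.re z.im h.re_odd h.im_even hnorm r hba hr2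
  have h4 : ∀ w : ℤ, r ^ (4 * w) = 1 := by
    intro w
    rw [zpow_mul]
    have : r ^ (4 : ℤ) = 1 := by
      have : r ^ (4 : ℤ) = (r ^ 2) ^ 2 := by
        rw [← pow_mul]; norm_cast
      rw [this, hr2]; ring
    rw [this, one_zpow]
  have hr0 : r ≠ 0 := by
    intro h00
    rw [h00] at hr2
    have : (1 : ZMod p) = 0 := by linear_combination hr2
    exact one_ne_zero this
  apply q4_eq h
  · exact Val4.pow (Or.inr im1_norm) _
  · rw [← hR.ker, map_sub, map_pow, map_pow, map_ofNat, hnn, ← hr]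
    have e1 : p / 4 = (p - 1) / 4 := by omega
    rw [e1, hm]
    set w := z.re * z.im / 2 with hw
    have e2 : w = 4 * (w / 4) + ((w % 4).toNat : ℤ) := by
      rw [Int.toNat_of_nonneg (by omega)]
      omega
    have e3 : r ^ w = r ^ ((w % 4).toNat) := by
      conv_lhs => rw [e2]
      rw [zpow_add₀ hr0, h4, one_mul, zpow_natCast]
    rw [e3, sub_self]

/-- the symbol of minus two at a split prime -/
lemma q4_neg_two_split {z : ZI} (h : PP z) {p : ℕ} [Fact p.Prime] (h1 : p % 4 = 1)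
    (hn : z.norm = p) : q4 z (-2) = mu z := by
  have e0 : (-2 : ZI) = (-1) * 2 := by decide
  have hnn : nrm z = p := by
    have := nrm_cast z
    rw [hn] at this
    exact_mod_cast this
  rw [e0, q4_mul h, q4_neg_one h, q4_two h h1 hn]
  have e1 : (-1 : ZI) = im1 ^ 2 := by decide
  rw [e1, ← pow_mul, ← pow_add]
  symm
  apply mu_eq_pow
  obtain ⟨g1, g2⟩ := h.prm
  obtain ⟨c, hc⟩ : ∃ c, z.im = 2 * c := ⟨z.im / 2, by omega⟩
  obtain ⟨s, hs⟩ : ∃ s, z.re = 1 - 2 * c + 4 * s := ⟨(z.re - 1 + 2 * c) / 4, by omega⟩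
  obtain ⟨w, hw⟩ : ∃ w, (2 * s - c) * (1 - c + 2 * s) = 2 * w := by
    have h0 : (2 * s - c) * (2 * s - c + 1) % 2 = 0 := by
      rw [Int.mul_emod, Int.add_emod]
      rcases Int.emod_two_eq_zero_or_one (2 * s - c) with h | h <;> rw [h] <;> norm_num
    exact ⟨(2 * s - c) * (2 * s - c + 1) / 2, by
      have e : (2 * s - c) * (1 - c + 2 * s) = (2 * s - c) * (2 * s - c + 1) := by ring
      rw [e]; omega⟩
  have hnorm : (p : ℤ) = z.re * z.re + z.im * z.im := by
    rw [← hn, norm_def']; ring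
  have hp4 : (p : ℤ) = 1 + 4 * (2 * w + c * c) := by
    rw [hnorm, hc, hs]
    linear_combination 4 * hw
  have hn4 : (((nrm z / 4 : ℕ)) : ℤ) = 2 * w + c * c := by
    rw [hnn]
    push_cast
    omega
  have hre : z.re * z.im = 2 * (c - 2 * (c * c) + 4 * (s * c)) := by
    rw [hc, hs]; ring
  have q1 : z.re * z.im / 2 = c - 2 * (c * c) + 4 * (s * c) := by
    rw [hre]; omega
  have q2 : z.im / 2 = c := by omega
  rw [q1, q2]
  push_cast
  rw [Int.toNat_of_nonneg (by omega)]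
  have hn4' : ((nrm z : ℤ)) / 4 = 2 * w + c * c := by
    have := hn4
    push_cast at this
    exact this
  rw [hn4']
  set t := s * c
  set u := c * c
  omega

/-- the symbol of a rational integer at an inert prime -/
lemma q4_inert {q : ℕ} (hq : q.Prime) (h3 : q % 4 = 3) (h : PP (-(q : ZI))) {n : ℤ}
    (hn : ¬ (q : ℤ) ∣ n) : q4 (-(q : ZI)) (n : ZI) = 1 := by
  have : Fact q.Prime := ⟨hq⟩
  apply q4_eq h (Or.inr (by decide))
  obtain ⟨k, hk, hk2⟩ := inert_quarter h3
  have e1 : (4 * k + 2) = q - 1 := by omega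
  rw [nrm_inert, hk2, e1, pow_mul]
  rw [neg_dvd]
  have h4 : ((n : ZMod q)) ^ (q - 1) = 1 := by
    apply ZMod.pow_card_sub_one_eq_one
    intro h0
    rw [ZMod.intCast_zmod_eq_zero_iff_dvd] at h0
    exact hn h0
  have h5 : (q : ℤ) ∣ (n ^ (q - 1)) ^ (k + 1) - 1 := by
    rw [← ZMod.intCast_zmod_eq_zero_iff_dvd]
    push_cast
    rw [h4, one_pow, sub_self]
  have h6 := Int.cast_dvd_cast (α := ZI) _ _ h5
  push_cast at h6
  exact h6

/-- the symbol of minus two at all primary primes -/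
lemma q4_neg_two {z : ZI} (h : PP z) : q4 z (-2) = mu z := by
  rcases h.cases with ⟨p, hp, hp4, hpn⟩ | ⟨p, hp, hp4, hpn⟩
  · have : Fact p.Prime := ⟨hp⟩
    exact q4_neg_two_split h hp4 hpn
  · subst hpn
    have e : (-2 : ZI) = ((-2 : ℤ) : ZI) := by simp
    rw [e, q4_inert hp hp4 h]
    · unfold mu
      simp
    · intro hd
      have h2 : (p : ℤ) ∣ 2 := (dvd_neg).1 hd
      have h3 : p ∣ 2 := by exact_mod_cast h2
      have := (Nat.prime_dvd_prime_iff_eq hp Nat.prime_two).1 h3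
      omega

variable {ι : Type} [DecidableEq ι] {pr : ι → ZI}

/-- the total weight is even for rational products -/
lemma sum_wq_even (hp : PF pr) (V : Finset ι) {m : ℕ} (hm : DD pr V = (m : ZI)) :
    (∑ i ∈ V, wq (pr i)) % 2 = 0 := by
  have h1 : ∀ W : Finset ι, (DD pr W).norm % 8 = (1 + 4 * ((∑ i ∈ W, wq (pr i) : ℕ) : ℤ)) % 8 := by
    intro W
    unfold DD
    induction W using Finset.induction_on with
    | empty => simp
    | insert a s ha ih =>
      rw [Finset.prod_insert ha, Finset.sum_insert ha, Zsqrtd.norm_mul, Int.mul_emod, ih]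
      have h2 : (pr a).norm = 1 + 4 * (wq (pr a) : ℤ) := by
        have h3 := (hp.pp a).nrm_mod
        have h4 := nrm_cast (pr a)
        unfold wq
        omega
      rw [h2, ← Int.mul_emod]
      push_cast
      have e : (1 + 4 * (wq (pr a) : ℤ)) * (1 + 4 * (∑ i ∈ s, (wq (pr i) : ℤ))) =
        1 + 4 * ((wq (pr a) : ℤ) + ∑ i ∈ s, (wq (pr i) : ℤ)) +
          8 * (2 * (wq (pr a) : ℤ) * ∑ i ∈ s, (wq (pr i) : ℤ)) := by ring
      rw [e, Int.add_mul_emod_self_left]
  have h2 := h1 V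
  have h3 := prim_norm_odd (DD_prim hp V)
  rw [hm] at h2 h3
  have e : ((m : ZI)).norm = (m : ℤ) * m := by
    rw [norm_def']
    simp only [Zsqrtd.re_natCast, Zsqrtd.im_natCast]
    ring
  rw [e] at h2 h3
  have h4 : (m : ℤ) % 2 = 1 := by
    rcases Int.emod_two_eq_zero_or_one (m : ℤ) with h | h
    · rw [Int.mul_emod, h] at h3
      norm_num at h3
    · exact h
  have h5 : (m : ℤ) * m % 8 = 1 := by
    have h8 : (m : ℤ) % 8 = 1 ∨ (m : ℤ) % 8 = 3 ∨ (m : ℤ) % 8 = 5 ∨ (m : ℤ) % 8 = 7 := by omega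
    rcases h8 with h | h | h | h <;> rw [Int.mul_emod, h] <;> norm_num
  omega

/-- **reciprocity**: the character at the primary primes -/
theorem q4_rec_prod (hp : PF pr) (V : Finset ι) {m : ℕ} (hm : DD pr V = (m : ZI)) {z : ZI}
    (hz : PP z) (hzD : ¬ z ∣ DD pr V) :
    q4 z (-(2 * (m : ZI))) = mu z * c4 pr V e1 z := by
  have hne : ∀ i ∈ V, z ≠ pr i := by
    intro i hi h
    exact hzD (h ▸ dvd_DD hi)
  have e0 : -(2 * (m : ZI)) = (-2) * DD pr V := by rw [hm]; ring
  have e2 : q4 z (DD pr V) = ∏ i ∈ V, q4 z (pr i) := by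
    unfold DD
    exact q4_prod hz V pr
  have e3 : ∏ i ∈ V, q4 z (pr i) = (∏ i ∈ V, q4 (pr i) z) * (-1) ^ (wq z * ∑ i ∈ V, wq (pr i)) := by
    rw [Finset.mul_sum, ← Finset.prod_pow_eq_pow_sum, ← Finset.prod_mul_distrib]
    exact Finset.prod_congr rfl fun i hi => q4_rec JJ_all hz (hp.pp i) (hne i hi)
  have e4 : (-1 : ZI) ^ (wq z * ∑ i ∈ V, wq (pr i)) = 1 := by
    apply Even.neg_one_pow
    obtain ⟨k, hk⟩ : ∃ k, ∑ i ∈ V, wq (pr i) = 2 * k := ⟨(∑ i ∈ V, wq (pr i)) / 2, by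
      have := sum_wq_even hp V hm
      omega⟩
    rw [hk]
    exact ⟨wq z * k, by ring⟩
  rw [e0, q4_mul hz, q4_neg_two hz, e2, e3, e4, mul_one]
  congr 1
  exact (c4_one_exp hp V z).symm

theorem XQ_q4 (hp : PF pr) (V : Finset ι) {m : ℕ} (hm : DD pr V = (m : ZI)) {z : ZI}
    (hz : PP z) (hzD : ¬ z ∣ DD pr V) :
    XQ hp V z = (starRingEnd ℂ) (tc (q4 z (-(2 * (m : ZI))))) := by
  rw [XQ_prim hp V hz.prm, q4_rec_prod hp V hm hz hzD]

/-- the sum for the base curve over a prime field -/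
lemma base_split {p : ℕ} [Fact p.Prime] (h1 : p % 4 = 1) {z : ZI} (hz : PP z) (hzp : z ∈ Ip p) :
    ∑ x : ZMod p, quadraticChar (ZMod p) (x ^ 3 - x) = -2 * z.re := by
  have hpp : p.Prime := Fact.out
  have h2 : p ≠ 2 := by rintro rfl; omega
  obtain ⟨a, b, hb0, hb, hab, hn', hPS⟩ := PS_split p hpp h1
  have hx' : z = ⟨a, b⟩ ∨ z = ⟨a, -b⟩ := by
    unfold Ip at hzp
    rw [if_pos h1, hPS, Finset.image_insert, Finset.image_singleton, Finset.mem_insert,
      Finset.mem_singleton] at hzp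
    exact hzp
  have ha : an p = 2 * a := by
    unfold an
    rw [hPS, Finset.sum_pair]
    · ring
    · intro heq
      rw [Prod.mk.injEq] at heq
      omega
  have hre : z.re = a := by rcases hx' with rfl | rfl <;> rfl
  have h4 : aE p = an p := aE_eq p hpp h2
  have h5 : aE p = - SS (1 : ZMod p) := aE_eq_SS h2
  have h6 : ∑ x : ZMod p, quadraticChar (ZMod p) (x ^ 3 - x) = SS (1 : ZMod p) := by
    unfold SS
    refine Finset.sum_congr rfl fun x _ => ?_
    congr 1
    ring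
  rw [h6, hre]
  linarith

/-- **the trace at a split prime** -/
theorem card_split (m : ℕ) {p : ℕ} [Fact p.Prime] (h1 : p % 4 = 1) {z : ZI} (hz : PP z)
    (hzp : z ∈ Ip p) (hn : z.norm = p) (hzm : ¬ z ∣ 2 * (m : ZI)) :
    ((((p : ℤ) - (Nat.card {q : ZMod p × ZMod p //
      q.2 ^ 2 = q.1 ^ 3 + ((2 * (m : ℤ) : ℤ) : ZMod p) * q.1 + ((0 : ℤ) : ZMod p)} : ℤ) : ℤ)) : ZI) =
      star (q4 z (-(2 * (m : ZI)))) * z + q4 z (-(2 * (m : ZI))) * star z := by
  have h2 : p ≠ 2 := by rintro rfl; omega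
  obtain ⟨ρ, hR⟩ := res_split hz hn
  have hJ := hR.J_eq (base_split h1 hz hzp)
  have hne : ρ (-(2 * (m : ZI))) ≠ 0 := by
    intro h0
    exact hzm ((dvd_neg).1 ((hR.ker _).1 h0))
  have h3 := hR.sum_twist hne
  rw [hR.chi_map, hJ] at h3
  rw [Pool.Agent.Y691.QT.card_eq p h2]
  have h4 : ∑ x : ZMod p, quadraticChar (ZMod p)
      (x ^ 3 + ((2 * (m : ℤ) : ℤ) : ZMod p) * x + ((0 : ℤ) : ZMod p)) =
      ∑ x : ZMod p, quadraticChar (ZMod p) (x ^ 3 - ρ (-(2 * (m : ZI))) * x) := by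
    refine Finset.sum_congr rfl fun x _ => ?_
    congr 1
    rw [map_neg, map_mul, map_ofNat, map_natCast]
    push_cast
    ring
  rw [h4]
  have e : (((p : ℤ) - ((p : ℤ) + ∑ x : ZMod p, quadraticChar (ZMod p)
      (x ^ 3 - ρ (-(2 * (m : ZI))) * x)) : ℤ) : ZI) =
      -((∑ x : ZMod p, quadraticChar (ZMod p) (x ^ 3 - ρ (-(2 * (m : ZI))) * x) : ℤ) : ZI) := by
    push_cast
    ring
  rw [e, h3, star_neg]
  ring

end Pool.Agent.Run7.h135.Q4L
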