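import Pool.Agent.Run7.h135.R2Rng
import Pool.Agent.Y698.Ld

/-!
# The lattice with complex multiplication by `√-2` (after `Y698/Lat`)
-/

set_option autoImplicit false
set_option linter.unusedSectionVars false

open Filter
open scoped Topology PeriodPair

namespace Pool.Agent.Run7.h135.R2

open H667R3 Pool.Agent.W192.HK Pool.Agent.TH936.CM Pool.Agent.TH936.PU
open Pool.Agent.W245.EB (scL mem_scL wpExcept_eq)
open Pool.Agent.Y698 (isLat_neg_mem dwp_half root_half)

variable {L : PeriodPair} {Ω : ℂ}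

lemma lR_nu : ¬ IsUnit lR := fun h => by
  have := nR_of_isUnit h
  rw [nR_lR] at this
  norm_num at this

lemma not_dvd_one {a : RR} (h : ¬ IsUnit a) : (1 : RR) ∉ sp a := by
  intro h1
  apply h
  rw [Ideal.mem_span_singleton'] at h1
  obtain ⟨b, hb⟩ := h1
  exact IsUnit.of_mul_eq_one b (by rw [mul_comm]; exact hb)

/-- the point of order `√-2` -/
noncomputable def tT (Ω : ℂ) : ℂ := Ω / lm

lemma tT_mem (hL : IsLat L RR Ω) : lm * tT Ω ∈ L.lattice := by
  have : lm * tT Ω = Ω * (1 : RR) := by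
    unfold tT
    have := lm_ne
    push_cast
    field_simp
  rw [this]
  exact hL.mem_mul _

lemma tT_notMem (hL : IsLat L RR Ω) : tT Ω ∉ L.lattice := by
  have h1 := div_mem_iff hL lR_ne 1
  have h2 : tT Ω = Ω * ((1 : RR) : ℂ) / (lR : ℂ) := by
    unfold tT
    rw [lR_coe]
    push_cast
    ring
  rw [h2, h1]
  exact not_dvd_one lR_nu

lemma two_tT (hL : IsLat L RR Ω) : 2 * tT Ω ∈ L.lattice := by
  have h := hL.mul (-lR) _ (tT_mem hL)
  have e : ((-lR : RR) : ℂ) * (lm * tT Ω) = 2 * tT Ω := by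
    push_cast
    rw [lR_coe]
    linear_combination (-tT Ω) * lm_sq
  rwa [e] at h

lemma mem_mul_lm (hL : IsLat L RR Ω) {z : ℂ} (hz : z ∈ L.lattice) : lm * z ∈ L.lattice := by
  have := hL.mul lR _ hz
  rwa [lR_coe] at this

/-- parity -/
lemma mem_lR_iff (r : RR) : r ∈ sp lR ↔ cX r % 2 = 0 := by
  rw [Ideal.mem_span_singleton']
  constructor
  · rintro ⟨a, rfl⟩
    simp only [cX_mul, cX_lR, cY_lR]
    omega
  · intro h
    refine ⟨mk (cY r) (-(cX r / 2)), ?_⟩
    apply RR_ext
    · simp only [cX_mul, cX_lR, cY_lR, cX_mk, cY_mk]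
      omega
    · simp only [cY_mul, cX_lR, cY_lR, cX_mk, cY_mk]
      omega

/-- the elements killed by `√-2` -/
lemma ker_lm (hL : IsLat L RR Ω) {l : ℂ} (h : lm * l ∈ L.lattice) :
    l ∈ L.lattice ∨ l - tT Ω ∈ L.lattice := by
  obtain ⟨r, hr⟩ := (hL.mem _).1 h
  have hl : l = Ω * r / lm := by
    rw [← hr]
    have := lm_ne
    field_simp
  rcases Int.even_or_odd (cX r) with hk | hk
  · left
    rw [hl]
    have := (div_mem_iff hL lR_ne r).2 ((mem_lR_iff r).2 (Int.even_iff.1 hk))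
    rwa [lR_coe] at this
  · right
    have h5 : r - 1 ∈ sp lR := by
      rw [mem_lR_iff, cX_sub, cX_one]
      have := Int.odd_iff.1 hk
      omega
    have := (div_mem_iff hL lR_ne (r - 1)).2 h5
    rw [lR_coe] at this
    convert this using 1
    rw [hl]
    unfold tT
    push_cast
    ring

/-- multiplication by `√-2` -/
theorem mul_lm (hL : IsLat L RR Ω) {z : ℂ} (hz : lm * z ∉ L.lattice) :
    lm ^ 2 * ℘[L] (lm * z) = ℘[L] z + ℘[L] (z - tT Ω) - ℘[L] (tT Ω) := by
  have htA := tT_notMem hL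
  have hper : ∀ z w : ℂ, z - w ∈ L.lattice → ℘[L] z = ℘[L] w := fun z w h => wp_per h
  set g : ℂ → ℂ := fun z => lm ^ 2 * ℘[L] (lm * z) - ℘[L] z - ℘[L] (z - tT Ω) with hg
  set G₀ : ℂ → ℂ := fun z => lm ^ 2 * ℘[L - (0 : ℂ)] (lm * z) - ℘[L - (0 : ℂ)] z -
    ℘[L] (z - tT Ω) with hG₀
  have hnot : ∀ z : ℂ, z ∉ (scL L lm lm_ne).lattice → lm * z ∉ L.lattice ∧ z ∉ L.lattice ∧
      z - tT Ω ∉ L.lattice := by
    intro z hz
    have h1 : lm * z ∉ L.lattice := fun h => hz (mem_scL.2 h)
    refine ⟨h1, fun h => h1 ?_, fun h => h1 ?_⟩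
    · exact mem_mul_lm hL h
    · have h2 := mem_mul_lm hL h
      rw [mul_sub] at h2
      have h3 := add_mem h2 (tT_mem hL)
      rwa [sub_add_cancel] at h3
  have hdG : DifferentiableAt ℂ G₀ 0 := by
    have h4 := (L.analyticAt_weierstrassPExcept 0).differentiableAt
    apply DifferentiableAt.sub
    · apply DifferentiableAt.sub
      · apply DifferentiableAt.const_mul
        have h5 : DifferentiableAt ℂ ℘[L - (0 : ℂ)] (lm * 0) := by rw [mul_zero]; exact h4
        exact DifferentiableAt.comp (0 : ℂ) h5 (by fun_prop)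
      · exact h4
    · have h6 : (0 : ℂ) - tT Ω ∉ L.lattice := by
        rw [zero_sub]
        exact fun h => htA (isLat_neg_mem h)
      exact DifferentiableAt.comp (0 : ℂ) (f := fun z => z - tT Ω)
        (hasDerivAt_weierstrassP L h6).differentiableAt (by fun_prop)
  have hev : ∀ᶠ z in 𝓝[≠] (0 : ℂ), z ∉ (scL L lm lm_ne).lattice := by
    filter_upwards [self_mem_nhdsWithin, mem_nhdsWithin_of_mem_nhds
      ((scL L lm lm_ne).compl_lattice_sdiff_singleton_mem_nhds 0)] with w hw hw'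
    simp_all
  have heq : ∀ᶠ z in 𝓝[≠] (0 : ℂ), g z = G₀ z := by
    filter_upwards [self_mem_nhdsWithin] with z hz0
    have hz0' : z ≠ 0 := hz0
    simp only [hg, hG₀]
    rw [wpExcept_eq (mul_ne_zero lm_ne hz0'), wpExcept_eq hz0']
    have := lm_ne
    field_simp
    ring
  have hconst := eq_of_periodic (scL L lm lm_ne) g ?_ ?_ G₀ hdG heq
  · have hzs : z ∉ (scL L lm lm_ne).lattice := fun h => hz (mem_scL.1 h)
    have hlim1 : Tendsto G₀ (𝓝[≠] 0) (𝓝 (G₀ 0)) :=
      (hdG.continuousAt.tendsto).mono_left nhdsWithin_le_nhds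
    have hlim2 : Tendsto G₀ (𝓝[≠] 0) (𝓝 (g z)) := by
      refine tendsto_const_nhds.congr' ?_
      filter_upwards [hev, heq] with w hw1 hw2
      rw [← hw2]
      exact hconst z w hzs hw1
    have h1 := tendsto_nhds_unique hlim2 hlim1
    simp only [hg, hG₀, mul_zero, zero_sub, L.weierstrassPExcept_zero, L.weierstrassP_neg] at h1
    linear_combination h1
  · intro z hz
    obtain ⟨h1, h2, h3⟩ := hnot z hz
    apply DifferentiableAt.sub
    · apply DifferentiableAt.sub
      · apply DifferentiableAt.const_mul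
        exact DifferentiableAt.comp z (hasDerivAt_weierstrassP L h1).differentiableAt (by fun_prop)
      · exact (hasDerivAt_weierstrassP L h2).differentiableAt
    · exact DifferentiableAt.comp z (f := fun z => z - tT Ω)
        (hasDerivAt_weierstrassP L h3).differentiableAt (by fun_prop)
  · intro z hz l hl
    have hl' : lm * l ∈ L.lattice := mem_scL.1 hl
    simp only [hg]
    have e1 : ℘[L] (lm * (z + l)) = ℘[L] (lm * z) := hper _ _ (by rwa [mul_add, add_sub_cancel_left])
    rw [e1]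
    rcases ker_lm hL hl' with h | h
    · have e2 : ℘[L] (z + l) = ℘[L] z := hper _ _ (by rwa [add_sub_cancel_left])
      have e3 : ℘[L] (z + l - tT Ω) = ℘[L] (z - tT Ω) := hper _ _ (by
        have e : z + l - tT Ω - (z - tT Ω) = l := by ring
        rwa [e])
      rw [e2, e3]
    · have e2 : ℘[L] (z + l) = ℘[L] (z - tT Ω) := hper _ _ (by
        have e : z + l - (z - tT Ω) = (l - tT Ω) + 2 * tT Ω := by ring
        rw [e]
        exact add_mem h (two_tT hL))
      have e3 : ℘[L] (z + l - tT Ω) = ℘[L] z := hper _ _ (by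
        have e : z + l - tT Ω - z = l - tT Ω := by ring
        rwa [e])
      rw [e2, e3]
      ring

/-! ### The coordinate -/

/-- the coordinate `x` -/
noncomputable def xx (L : PeriodPair) (Ω z : ℂ) : ℂ := ℘[L] z - ℘[L] (tT Ω)

/-- the coefficient `a` of `y² = x (x² + a x + b)` -/
noncomputable def cA (L : PeriodPair) (Ω : ℂ) : ℂ := 3 * ℘[L] (tT Ω)

/-- the coefficient `b` -/
noncomputable def cB (L : PeriodPair) (Ω : ℂ) : ℂ := 3 * ℘[L] (tT Ω) ^ 2 - L.g₂ / 4

lemma xx_per {z w : ℂ} (h : z - w ∈ L.lattice) : xx L Ω z = xx L Ω w := by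
  unfold xx
  rw [wp_per h]

lemma xx_neg (z : ℂ) : xx L Ω (-z) = xx L Ω z := by
  unfold xx
  rw [L.weierstrassP_neg]

lemma g3_eq (hL : IsLat L RR Ω) : L.g₃ = 4 * ℘[L] (tT Ω) ^ 3 - L.g₂ * ℘[L] (tT Ω) := by
  have h := root_half (tT_notMem hL) (two_tT hL)
  linear_combination -h

lemma ode_x (hL : IsLat L RR Ω) {z : ℂ} (hz : z ∉ L.lattice) :
    ℘'[L] z ^ 2 = 4 * xx L Ω z * (xx L Ω z ^ 2 + cA L Ω * xx L Ω z + cB L Ω) := by
  rw [Pool.Agent.TH936.PU.ode hz, g3_eq hL]
  unfold xx cA cB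
  ring

/-- not killed by `√-2` -/
lemma notMem_of_lm (hL : IsLat L RR Ω) {z : ℂ} (hz : lm * z ∉ L.lattice) :
    z ∉ L.lattice ∧ z - tT Ω ∉ L.lattice ∧ z + tT Ω ∉ L.lattice := by
  refine ⟨fun h => hz (mem_mul_lm hL h), fun h => hz ?_, fun h => hz ?_⟩
  · have h2 := mem_mul_lm hL h
    rw [mul_sub] at h2
    have h3 := add_mem h2 (tT_mem hL)
    rwa [sub_add_cancel] at h3
  · have h2 := mem_mul_lm hL h
    rw [mul_add] at h2
    have h3 := sub_mem h2 (tT_mem hL)
    rwa [add_sub_cancel_right] at h3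

lemma xx_ne (hL : IsLat L RR Ω) {z : ℂ} (hz : lm * z ∉ L.lattice) : xx L Ω z ≠ 0 := by
  obtain ⟨h1, h2, h3⟩ := notMem_of_lm hL hz
  unfold xx
  rw [sub_ne_zero, Ne, wp_eq_iff L h1 (tT_notMem hL)]
  tauto

/-- translation by the point of order `√-2` -/
theorem xx_add (hL : IsLat L RR Ω) {z : ℂ} (hz : lm * z ∉ L.lattice) :
    xx L Ω (z - tT Ω) * xx L Ω z = cB L Ω := by
  obtain ⟨hz0, hzm, hzp⟩ := notMem_of_lm hL hz
  have hne : ℘[L] z - ℘[L] (tT Ω) ≠ 0 := xx_ne hL hz
  have e3 : ℘[L] (z + tT Ω) = ℘[L] (z - tT Ω) := wp_per (by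
    have e : z + tT Ω - (z - tT Ω) = 2 * tT Ω := by ring
    rw [e]
    exact two_tT hL)
  have hval : 2 * ℘[L] (z - tT Ω) * (℘[L] z - ℘[L] (tT Ω)) ^ 2 =
      (℘[L] z + ℘[L] (tT Ω)) * (2 * ℘[L] z * ℘[L] (tT Ω) - L.g₂ / 2) - L.g₃ := by
    by_cases h2z : 2 * z ∈ L.lattice
    · have hz' : ℘'[L] z = 0 := dwp_half h2z
      have hcub := root_half hz0 h2z
      have h2z' : 2 * (z - tT Ω) ∈ L.lattice := by
        rw [mul_sub]
        exact sub_mem h2z (two_tT hL)
      have hcub' := root_half hzm h2z'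
      have hA := root_half (tT_notMem hL) (two_tT hL)
      have nz : ℘[L] z ≠ ℘[L] (z - tT Ω) := by
        intro h5
        rcases (wp_eq_iff L hz0 hzm).1 h5 with h6 | h6
        · apply tT_notMem hL
          have := sub_mem h2z h6
          convert this using 1
          ring
        · apply tT_notMem hL
          convert h6 using 1
          ring
      have nA : ℘[L] (tT Ω) ≠ ℘[L] (z - tT Ω) := by
        intro h5
        rcases (wp_eq_iff L (tT_notMem hL) hzm).1 h5 with h6 | h6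
        · apply hz0
          convert h6 using 1
          ring
        · apply hz0
          have := sub_mem (two_tT hL) h6
          convert this using 1
          ring
      set a := ℘[L] (tT Ω)
      set b := ℘[L] z
      set c := ℘[L] (z - tT Ω)
      have k1 : 4 * (b ^ 2 + b * a + a ^ 2) = L.g₂ := by
        apply mul_left_cancel₀ hne
        linear_combination hcub - hA
      have k2 : 4 * (b ^ 2 + b * c + c ^ 2) = L.g₂ := by
        apply mul_left_cancel₀ (sub_ne_zero.2 nz)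
        linear_combination hcub - hcub'
      have k3 : a + b + c = 0 := by
        apply mul_left_cancel₀ (sub_ne_zero.2 nA)
        linear_combination (1 / 4 : ℂ) * (k1 - k2)
      have k4 : c = -a - b := by linear_combination k3
      have k5 : L.g₃ = 4 * a ^ 3 - L.g₂ * a := by linear_combination -hA
      rw [k4, k5, ← k1]
      ring
    · have := wp_sum h2z (tT_notMem hL) hzp hzm
      rw [e3] at this
      linear_combination this
  rw [g3_eq hL] at hval
  unfold xx cB
  apply mul_right_cancel₀ (mul_ne_zero two_ne_zero hne)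
  linear_combination hval

/-- multiplication by `√-2` in terms of `x` -/
theorem xx_lm (hL : IsLat L RR Ω) {z : ℂ} (hz : lm * z ∉ L.lattice) :
    -2 * xx L Ω (lm * z) = xx L Ω z + cA L Ω + cB L Ω / xx L Ω z := by
  have h1 := mul_lm hL hz
  have h2 := xx_add hL hz
  have h3 := xx_ne hL hz
  have h4 : cB L Ω / xx L Ω z = xx L Ω (z - tT Ω) := by
    rw [div_eq_iff h3]
    exact h2.symm
  rw [h4]
  rw [lm_sq] at h1
  unfold xx cA
  linear_combination h1

end Pool.Agent.Run7.h135.R2
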