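import Pool.Agent.Run7.h135.R2Lat

/-!
# The period lattice of `y² = x³ + 4 x² + 2 x`
-/

set_option autoImplicit false
set_option linter.unusedSectionVars false

open Filter
open scoped Topology PeriodPair

namespace Pool.Agent.Run7.h135.R2

open H667R3 Pool.Agent.W192.HK Pool.Agent.TH936.CM Pool.Agent.TH936.PU
open Pool.Agent.Y698 (isLat_neg_mem dwp_half root_half wp_lat)

variable {L : PeriodPair} {Ω : ℂ}

lemma xx_addp (hL : IsLat L RR Ω) {z : ℂ} (hz : lm * z ∉ L.lattice) :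
    xx L Ω (z + tT Ω) * xx L Ω z = cB L Ω := by
  rw [← xx_add hL hz]
  congr 1
  apply xx_per
  have e : z + tT Ω - (z - tT Ω) = 2 * tT Ω := by ring
  rw [e]
  exact two_tT hL

lemma lm_four : lm ^ 4 = 4 := by
  have : lm ^ 4 = (lm ^ 2) ^ 2 := by ring
  rw [this, lm_sq]
  norm_num

/-- the relation between the coefficients -/
theorem cA_sq (hL : IsLat L RR Ω) : cA L Ω ^ 2 = 8 * cB L Ω ∧ cB L Ω ≠ 0 := by
  have hl := lm_ne
  set ρ := Ω / lm ^ 3 with hρ
  have m1 : lm * ρ = -(Ω / 2) := by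
    rw [hρ]
    have h2 : lm ^ 3 = lm * lm ^ 2 := by ring
    rw [h2, lm_sq]
    field_simp
  have m2 : lm * (lm * ρ) = tT Ω := by
    rw [hρ]
    unfold tT
    field_simp
  have n2 : lm * (lm * ρ) ∉ L.lattice := by rw [m2]; exact tT_notMem hL
  have n1 : lm * ρ ∉ L.lattice := fun h => n2 (mem_mul_lm hL h)
  have e1 : xx L Ω (ρ - tT Ω) = xx L Ω ρ := by
    rw [← xx_neg ρ]
    apply xx_per
    have e : ρ - tT Ω - -ρ = Ω * ((lR : RR) : ℂ) := by
      rw [lR_coe, hρ]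
      unfold tT
      field_simp
      linear_combination (-Ω) * lm_four - Ω * lm_sq
    rw [e]
    exact hL.mem_mul _
  have h1 := xx_add hL n1
  rw [e1] at h1
  have h2 := xx_lm hL n1
  have hne := xx_ne hL n1
  have h3 : cB L Ω / xx L Ω ρ = xx L Ω ρ := by
    rw [div_eq_iff hne]
    exact h1.symm
  rw [h3] at h2
  have h4 : 2 * (lm * ρ) ∈ L.lattice := by
    have e : 2 * (lm * ρ) = Ω * ((-1 : RR) : ℂ) := by
      rw [m1]
      push_cast
      ring
    rw [e]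
    exact hL.mem_mul _
  have h5 := ode_x hL n1
  rw [dwp_half h4] at h5
  have h6 := xx_ne hL n2
  have h7 : xx L Ω (lm * ρ) ^ 2 + cA L Ω * xx L Ω (lm * ρ) + cB L Ω = 0 := by
    apply mul_left_cancel₀ (mul_ne_zero (by norm_num : (4 : ℂ) ≠ 0) h6)
    linear_combination -h5
  constructor
  · have h8 : xx L Ω (lm * ρ) = -xx L Ω ρ - cA L Ω / 2 := by linear_combination (-1 / 2 : ℂ) * h2
    rw [h8] at h7
    linear_combination (-4 : ℂ) * h7 + 4 * h1
  · rw [← h1]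
    exact mul_ne_zero hne hne

/-- the lattice with the normalization -/
structure LN (L : PeriodPair) (Ω : ℂ) : Prop where
  lat : IsLat L RR Ω
  e : ℘[L] (tT Ω) = 4 / 3

lemma LN.cA (h : LN L Ω) : cA L Ω = 4 := by
  unfold R2.cA
  rw [h.e]
  norm_num

lemma LN.cB (h : LN L Ω) : cB L Ω = 2 := by
  have h1 := (cA_sq h.lat).1
  rw [h.cA] at h1
  linear_combination (-1 / 8 : ℂ) * h1

theorem exists_LN : ∃ (L : PeriodPair) (Ω : ℂ), LN L Ω := by
  have hL1 := mkL_isLat (ω := lm) (Ω := 1) qr one_ne_zero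
  set w : ℂ := ℘[mkL lm 1 qr.im one_ne_zero] (tT 1) with hw
  have hw0 : w ≠ 0 := by
    intro h0
    obtain ⟨h1, h2⟩ := cA_sq hL1
    apply h2
    unfold R2.cA at h1
    rw [← hw, h0] at h1
    linear_combination (-1 / 8 : ℂ) * h1
  obtain ⟨Ω, hΩ⟩ := IsAlgClosed.exists_pow_nat_eq (3 * w / 4) (n := 2) (by norm_num)
  have hΩ0 : Ω ≠ 0 := by
    rintro rfl
    rw [zero_pow two_ne_zero] at hΩ
    apply hw0
    linear_combination (-4 / 3 : ℂ) * hΩ
  refine ⟨mkL lm Ω qr.im hΩ0, Ω, ⟨mkL_isLat qr hΩ0, ?_⟩⟩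
  have hsc : ∀ (Ω : ℂ) (h0 : Ω ≠ 0), ℘[mkL lm Ω qr.im h0] (Ω * (1 / lm)) =
      (Ω ^ 2)⁻¹ * ∑' r : RR, (1 / (1 / lm - r) ^ 2 - 1 / (r : ℂ) ^ 2) := by
    intro Ω h0
    have hL := mkL_isLat (ω := lm) qr h0
    unfold PeriodPair.weierstrassP
    rw [← (latE hL).tsum_eq, ← tsum_mul_left]
    refine tsum_congr fun r => ?_
    rw [latE_coe]
    have h1 : Ω * (1 / lm) - Ω * r = Ω * (1 / lm - r) := by ring
    rw [h1, mul_pow, mul_pow]
    simp only [one_div, mul_inv]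
    ring
  have e1 := hsc 1 one_ne_zero
  have e2 := hsc Ω hΩ0
  have e3 : (1 : ℂ) * (1 / lm) = tT 1 := by unfold tT; ring
  have e4 : Ω * (1 / lm) = tT Ω := by unfold tT; ring
  rw [e3, ← hw] at e1
  rw [e4] at e2
  rw [e2]
  have e5 : ∑' r : RR, (1 / (1 / lm - r) ^ 2 - 1 / (r : ℂ) ^ 2) = w := by
    rw [e1]
    norm_num
  rw [e5, hΩ]
  field_simp

section

variable (h : LN L Ω)

include h

/-- multiplication by `√-2` in terms of `x` -/
lemma LN.mul {z : ℂ} (hz : lm * z ∉ L.lattice) :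
    -2 * xx L Ω (lm * z) = xx L Ω z + 4 + 2 / xx L Ω z := by
  have := xx_lm h.lat hz
  rwa [h.cA, h.cB] at this

lemma LN.mul' {z : ℂ} (hz : lm * z ∉ L.lattice) :
    xx L Ω z ^ 2 + 4 * xx L Ω z + 2 = -2 * xx L Ω (lm * z) * xx L Ω z := by
  have h1 := h.mul hz
  have h2 := xx_ne h.lat hz
  rw [h1]
  field_simp

lemma LN.add {z : ℂ} (hz : lm * z ∉ L.lattice) : xx L Ω (z + tT Ω) * xx L Ω z = 2 := by
  rw [xx_addp h.lat hz, h.cB]

lemma LN.ode {z : ℂ} (hz : z ∉ L.lattice) :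
    ℘'[L] z ^ 2 = 4 * xx L Ω z * (xx L Ω z ^ 2 + 4 * xx L Ω z + 2) := by
  rw [ode_x h.lat hz, h.cA, h.cB]

end

/-- the function `- y / x` -/
noncomputable def hh (L : PeriodPair) (Ω z : ℂ) : ℂ := -℘'[L] z / (2 * xx L Ω z)

lemma hh_per {z w : ℂ} (h : z - w ∈ L.lattice) : hh L Ω z = hh L Ω w := by
  unfold hh
  rw [xx_per h, dwp_per h]

lemma hh_neg (z : ℂ) : hh L Ω (-z) = -hh L Ω z := by
  unfold hh
  rw [xx_neg, L.derivWeierstrassP_neg]
  ring

lemma LN.hh_sq (h : LN L Ω) {z : ℂ} (hz : lm * z ∉ L.lattice) :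
    hh L Ω z ^ 2 = -2 * xx L Ω (lm * z) := by
  have h1 := h.ode (notMem_of_lm h.lat hz).1
  have h2 := h.mul' hz
  have h3 := xx_ne h.lat hz
  unfold hh
  rw [div_pow, neg_sq, h1, h2]
  field_simp
  ring

/-- the limit of the differences -/
theorem lim_hh (hL : IsLat L RR Ω) {w : ℂ} (hw : lm * w ∉ L.lattice) :
    Tendsto (fun δ : ℝ => EE RR Ω δ w - EE RR Ω δ (w + tT Ω)) (𝓝[>] 0) (𝓝 (hh L Ω w)) := by
  obtain ⟨h1, h2, h3⟩ := notMem_of_lm hL hw
  have h4 := (lim_Dd hL h1 (tT_notMem hL) h3 h2).const_mul (-(1 / 2 : ℂ))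
  have e : -(1 / 2 : ℂ) * Dd L w (tT Ω) = hh L Ω w := by
    unfold Dd hh xx
    rw [← xx]
    have := xx_ne hL hw
    field_simp
  rw [e] at h4
  refine h4.congr' ?_
  filter_upwards [self_mem_nhdsWithin] with δ (hδ : 0 < δ)
  have e2 : EE RR Ω δ (w - tT Ω) = EE RR Ω δ (w + tT Ω) := by
    apply EE_per hL
    have e3 : w - tT Ω - (w + tT Ω) = -(2 * tT Ω) := by ring
    rw [e3]
    exact neg_mem (two_tT hL)
  rw [e2]
  ring

lemma hh_add (hL : IsLat L RR Ω) {w : ℂ} (hw : lm * w ∉ L.lattice) :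
    hh L Ω (w + tT Ω) = -hh L Ω w := by
  have hw' : lm * (w + tT Ω) ∉ L.lattice := by
    intro h
    apply hw
    rw [mul_add] at h
    have := sub_mem h (tT_mem hL)
    rwa [add_sub_cancel_right] at this
  have h1 := lim_hh hL hw'
  have h2 := (lim_hh hL hw).neg
  refine tendsto_nhds_unique h1 (h2.congr fun δ => ?_)
  have e2 : EE RR Ω δ (w + tT Ω + tT Ω) = EE RR Ω δ w := by
    apply EE_per hL
    have e3 : w + tT Ω + tT Ω - w = 2 * tT Ω := by ring
    rw [e3]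
    exact two_tT hL
  rw [e2]
  ring

/-- the second difference -/
noncomputable def FF (L : PeriodPair) (Ω τ u : ℂ) : ℂ :=
  Dd L τ u - Dd L (τ + tT Ω) u + 2 * hh L Ω τ

/-- **the formula for the second difference** -/
theorem LN.FF_eq (h : LN L Ω) {τ u : ℂ} (hτ : lm * τ ∉ L.lattice) (hu : lm * u ∉ L.lattice)
    (h1 : lm * τ + lm * u ∉ L.lattice) (h2 : lm * τ - lm * u ∉ L.lattice) :
    FF L Ω τ u = hh L Ω τ * (xx L Ω u - 2 / xx L Ω u) / (xx L Ω (lm * τ) - xx L Ω (lm * u)) := by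
  have hL := h.lat
  have hx := xx_ne hL hτ
  have hX := xx_ne hL hu
  obtain ⟨a1, a2, a3⟩ := notMem_of_lm hL hτ
  obtain ⟨b1, b2, b3⟩ := notMem_of_lm hL hu
  have hτ' : lm * (τ + tT Ω) ∉ L.lattice := by
    intro h
    apply hτ
    rw [mul_add] at h
    have := sub_mem h (tT_mem hL)
    rwa [add_sub_cancel_right] at this
  have hx' := xx_ne hL hτ'
  have k1 := h.add hτ
  have k2 := hh_add hL hτ
  have m1 := h.mul hτ
  have m2 := h.mul hu
  -- the points are different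
  have d1 : xx L Ω τ - xx L Ω u ≠ 0 := by
    intro h0
    have h3 : ℘[L] τ = ℘[L] u := by
      unfold xx at h0
      linear_combination h0
    rcases (wp_eq_iff L a1 b1).1 h3 with h4 | h4
    · apply h1
      have := mem_mul_lm hL h4
      rwa [mul_add] at this
    · apply h2
      have := mem_mul_lm hL h4
      rwa [mul_sub] at this
  have d2 : xx L Ω (τ + tT Ω) - xx L Ω u ≠ 0 := by
    intro h0
    have h3 : ℘[L] (τ + tT Ω) = ℘[L] u := by
      unfold xx at h0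
      linear_combination h0
    rcases (wp_eq_iff L a3 b1).1 h3 with h4 | h4
    · apply h1
      have := sub_mem (mem_mul_lm hL h4) (tT_mem hL)
      convert this using 1
      ring
    · apply h2
      have := sub_mem (mem_mul_lm hL h4) (tT_mem hL)
      convert this using 1
      ring
  have p1 : Dd L τ u = ℘'[L] τ / (xx L Ω τ - xx L Ω u) := by
    unfold Dd xx
    congr 1
    ring
  have p2 : Dd L (τ + tT Ω) u = ℘'[L] (τ + tT Ω) / (xx L Ω (τ + tT Ω) - xx L Ω u) := by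
    unfold Dd xx
    congr 1
    ring
  have q1 : ℘'[L] τ = -2 * xx L Ω τ * hh L Ω τ := by
    unfold hh
    field_simp
  have q2 : ℘'[L] (τ + tT Ω) = 2 * xx L Ω (τ + tT Ω) * hh L Ω τ := by
    have : ℘'[L] (τ + tT Ω) = -2 * xx L Ω (τ + tT Ω) * hh L Ω (τ + tT Ω) := by
      conv_rhs => unfold hh
      field_simp
    rw [this, k2]
    ring
  have k3 : xx L Ω (τ + tT Ω) = 2 / xx L Ω τ := by
    rw [eq_div_iff hx]
    exact k1
  unfold FF
  rw [p1, p2, q1, q2]
  rw [k3] at d2 ⊢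
  set x := xx L Ω τ
  set X := xx L Ω u
  have e1 : xx L Ω (lm * τ) = -(x + 4 + 2 / x) / 2 := by linear_combination (-1 / 2 : ℂ) * m1
  have e2 : xx L Ω (lm * u) = -(X + 4 + 2 / X) / 2 := by linear_combination (-1 / 2 : ℂ) * m2
  rw [e1, e2]
  have d3 : -(x + 4 + 2 / x) / 2 - -(X + 4 + 2 / X) / 2 = (X - x) * (x * X - 2) / (2 * (x * X)) := by
    field_simp
    ring
  have d4 : x * X - 2 ≠ 0 := by
    intro h0
    apply d2
    field_simp
    linear_combination -h0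
  have d5 : X - x ≠ 0 := by
    intro h0
    apply d1
    linear_combination -h0
  have d6 : 2 / x - X = -(x * X - 2) / x := by
    field_simp
    ring
  have d7 : x - X = -(X - x) := by ring
  rw [d3, d6, d7]
  field_simp
  ring

end Pool.Agent.Run7.h135.R2
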