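import Pool.Agent.W192.HK.Defs

/-!
# The ring `ℤ[√-2]` as a subring of the complex numbers (after `Y698/Rng`)
-/

set_option autoImplicit false

namespace Pool.Agent.Run7.h135.R2

open Pool.Agent.W192.HK

lemma sq_one_cases {A : Type*} [CommRing A] [IsDomain A] {x : A} (h : x ^ 2 = 1) :
    x = 1 ∨ x = -1 := by
  have h1 : (x - 1) * (x + 1) = 0 := by linear_combination h
  rcases mul_eq_zero.1 h1 with h2 | h2
  · exact Or.inl (sub_eq_zero.1 h2)
  · exact Or.inr (eq_neg_of_add_eq_zero_left h2)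

/-- `√-2` -/
noncomputable def lm : ℂ := Complex.I * (Real.sqrt 2 : ℂ)

lemma lm_sq : lm ^ 2 = -2 := by
  unfold lm
  rw [mul_pow, Complex.I_sq, ← Complex.ofReal_pow, Real.sq_sqrt (by norm_num)]
  norm_num

lemma lm_ne : lm ≠ 0 := by
  intro h
  have := lm_sq
  rw [h] at this
  norm_num at this

lemma lm_re : lm.re = 0 := by
  unfold lm
  simp

lemma lm_im : lm.im = Real.sqrt 2 := by
  unfold lm
  simp

lemma lm_im_pos : 0 < lm.im := by
  rw [lm_im]
  exact Real.sqrt_pos.2 (by norm_num)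

/-- the ring `ℤ[√-2]` -/
noncomputable def RR : Subring ℂ where
  carrier := {z | ∃ x y : ℤ, z = x + y * lm}
  zero_mem' := ⟨0, 0, by simp⟩
  one_mem' := ⟨1, 0, by simp⟩
  add_mem' := by
    rintro _ _ ⟨x, y, rfl⟩ ⟨x', y', rfl⟩
    exact ⟨x + x', y + y', by push_cast; ring⟩
  neg_mem' := by
    rintro _ ⟨x, y, rfl⟩
    exact ⟨-x, -y, by push_cast; ring⟩
  mul_mem' := by
    rintro _ _ ⟨x, y, rfl⟩ ⟨x', y', rfl⟩
    refine ⟨x * x' - 2 * y * y', x * y' + y * x', ?_⟩
    push_cast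
    linear_combination (y * y' : ℂ) * lm_sq

lemma mem_RR (z : ℂ) : z ∈ RR ↔ ∃ x y : ℤ, z = x + y * lm := Iff.rfl

/-- the element with given coordinates -/
noncomputable def mk (x y : ℤ) : RR := ⟨(x : ℂ) + y * lm, ⟨x, y, rfl⟩⟩

lemma mk_coe (x y : ℤ) : ((mk x y : RR) : ℂ) = x + y * lm := rfl

/-- the coordinates -/
noncomputable def cX (r : RR) : ℤ := Classical.choose ((mem_RR _).1 r.2)

/-- the coordinates -/
noncomputable def cY (r : RR) : ℤ := Classical.choose (Classical.choose_spec ((mem_RR _).1 r.2))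

lemma co (r : RR) : (r : ℂ) = cX r + cY r * lm :=
  Classical.choose_spec (Classical.choose_spec ((mem_RR _).1 r.2))

lemma co_uniq {x y x' y' : ℤ} (h : (x : ℂ) + y * lm = x' + y' * lm) : x = x' ∧ y = y' := by
  have h1 := congrArg Complex.im h
  have h2 := congrArg Complex.re h
  simp only [Complex.add_im, Complex.add_re, Complex.intCast_im, Complex.intCast_re,
    Complex.mul_im, Complex.mul_re, zero_mul, add_zero, zero_add, sub_zero] at h1 h2
  have h3 : (y : ℝ) = y' := mul_right_cancel₀ lm_im_pos.ne' h1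
  have h4 : y = y' := by exact_mod_cast h3
  subst h4
  refine ⟨?_, rfl⟩
  have h5 : (x : ℝ) = x' := by linarith
  exact_mod_cast h5

lemma cXY_of {r : RR} {x y : ℤ} (h : (r : ℂ) = x + y * lm) : cX r = x ∧ cY r = y := by
  rw [co r] at h
  exact co_uniq h

lemma RR_ext {r t : RR} (h1 : cX r = cX t) (h2 : cY r = cY t) : r = t := by
  apply Subtype.ext
  rw [co r, co t, h1, h2]

@[simp] lemma cX_mk (x y : ℤ) : cX (mk x y) = x := (cXY_of (mk_coe x y)).1
@[simp] lemma cY_mk (x y : ℤ) : cY (mk x y) = y := (cXY_of (mk_coe x y)).2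

lemma mk_eta (r : RR) : mk (cX r) (cY r) = r := RR_ext (cX_mk _ _) (cY_mk _ _)

lemma cXY_add (r t : RR) : cX (r + t) = cX r + cX t ∧ cY (r + t) = cY r + cY t := by
  apply cXY_of
  push_cast
  rw [co r, co t]
  ring

@[simp] lemma cX_add (r t : RR) : cX (r + t) = cX r + cX t := (cXY_add r t).1
@[simp] lemma cY_add (r t : RR) : cY (r + t) = cY r + cY t := (cXY_add r t).2

lemma cXY_mul (r t : RR) : cX (r * t) = cX r * cX t - 2 * cY r * cY t ∧
    cY (r * t) = cX r * cY t + cY r * cX t := by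
  apply cXY_of
  push_cast
  rw [co r, co t]
  linear_combination (cY r * cY t : ℂ) * lm_sq

@[simp] lemma cX_mul (r t : RR) : cX (r * t) = cX r * cX t - 2 * cY r * cY t := (cXY_mul r t).1
@[simp] lemma cY_mul (r t : RR) : cY (r * t) = cX r * cY t + cY r * cX t := (cXY_mul r t).2

@[simp] lemma cX_one : cX (1 : RR) = 1 := (cXY_of (x := 1) (y := 0) (by simp)).1
@[simp] lemma cY_one : cY (1 : RR) = 0 := (cXY_of (x := 1) (y := 0) (by simp)).2
@[simp] lemma cX_zero : cX (0 : RR) = 0 := (cXY_of (x := 0) (y := 0) (by simp)).1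
@[simp] lemma cY_zero : cY (0 : RR) = 0 := (cXY_of (x := 0) (y := 0) (by simp)).2

lemma cXY_neg (r : RR) : cX (-r) = -cX r ∧ cY (-r) = -cY r := by
  apply cXY_of
  push_cast
  rw [co r]
  ring

@[simp] lemma cX_neg (r : RR) : cX (-r) = -cX r := (cXY_neg r).1
@[simp] lemma cY_neg (r : RR) : cY (-r) = -cY r := (cXY_neg r).2

@[simp] lemma cX_sub (r t : RR) : cX (r - t) = cX r - cX t := by rw [sub_eq_add_neg]; simp; ring
@[simp] lemma cY_sub (r t : RR) : cY (r - t) = cY r - cY t := by rw [sub_eq_add_neg]; simp; ring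

@[simp] lemma cX_int (n : ℤ) : cX (n : RR) = n := (cXY_of (x := n) (y := 0) (by simp)).1
@[simp] lemma cY_int (n : ℤ) : cY (n : RR) = 0 := (cXY_of (x := n) (y := 0) (by simp)).2
@[simp] lemma cX_nat (n : ℕ) : cX (n : RR) = n := (cXY_of (x := n) (y := 0) (by simp)).1
@[simp] lemma cY_nat (n : ℕ) : cY (n : RR) = 0 := (cXY_of (x := n) (y := 0) (by simp)).2

/-- the element `√-2` -/
noncomputable def lR : RR := mk 0 1

lemma lR_coe : (lR : ℂ) = lm := by
  unfold lR
  rw [mk_coe]
  simp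

@[simp] lemma cX_lR : cX lR = 0 := cX_mk _ _
@[simp] lemma cY_lR : cY lR = 1 := cY_mk _ _

lemma two_coe : ((2 : RR) : ℂ) = 2 := by
  rw [show (2 : RR) = 1 + 1 by norm_num]
  push_cast
  norm_num

lemma lR_sq : lR ^ 2 = -2 := by
  apply Subtype.ext
  push_cast
  rw [lR_coe]
  exact lm_sq

lemma lR_ne : lR ≠ 0 := by
  intro h
  have := lR_coe
  rw [h] at this
  exact lm_ne (by simpa using this.symm)

/-- evaluation of the elements of `R` -/
noncomputable def ev {S : Type*} [CommRing S] (a : S) (ha : a ^ 2 = -2) : RR →+* S where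
  toFun r := (cX r : S) + (cY r : S) * a
  map_one' := by simp
  map_zero' := by simp
  map_add' r t := by
    rw [cX_add, cY_add]
    push_cast
    ring
  map_mul' r t := by
    rw [cX_mul, cY_mul]
    push_cast
    linear_combination -(cY r * cY t : S) * ha

lemma ev_apply {S : Type*} [CommRing S] (a : S) (ha : a ^ 2 = -2) (r : RR) :
    ev a ha r = (cX r : S) + (cY r : S) * a := rfl

/-- the norm -/
noncomputable def nR (r : RR) : ℤ := cX r ^ 2 + 2 * cY r ^ 2

lemma normSq_coe (r : RR) : Complex.normSq (r : ℂ) = nR r := by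
  rw [co r, Complex.normSq_apply]
  simp only [Complex.add_im, Complex.add_re, Complex.intCast_im, Complex.intCast_re,
    Complex.mul_im, Complex.mul_re, zero_mul, add_zero, zero_add, sub_zero]
  rw [lm_re, lm_im]
  unfold nR
  push_cast
  have := Real.sq_sqrt (show (0 : ℝ) ≤ 2 by norm_num)
  linear_combination ((cY r : ℝ) ^ 2) * this

lemma nR_mul (r t : RR) : nR (r * t) = nR r * nR t := by
  unfold nR
  rw [cX_mul, cY_mul]
  ring

@[simp] lemma nR_one : nR 1 = 1 := by unfold nR; simp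
@[simp] lemma nR_zero : nR 0 = 0 := by unfold nR; simp
@[simp] lemma nR_neg (r : RR) : nR (-r) = nR r := by unfold nR; simp
@[simp] lemma nR_int (n : ℤ) : nR (n : RR) = n ^ 2 := by unfold nR; simp
@[simp] lemma nR_nat (n : ℕ) : nR (n : RR) = (n : ℤ) ^ 2 := by unfold nR; simp
lemma nR_lR : nR lR = 2 := by unfold nR; simp
lemma nR_mk (x y : ℤ) : nR (mk x y) = x ^ 2 + 2 * y ^ 2 := by unfold nR; simp

lemma nR_nonneg (r : RR) : 0 ≤ nR r := by
  unfold nR
  positivity

lemma nR_eq_zero {r : RR} : nR r = 0 ↔ r = 0 := by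
  constructor
  · intro h
    have h1 : Complex.normSq (r : ℂ) = 0 := by rw [normSq_coe, h]; simp
    exact Subtype.ext (Complex.normSq_eq_zero.1 h1)
  · rintro rfl
    exact nR_zero

lemma nR_pos {r : RR} (h : r ≠ 0) : 0 < nR r :=
  lt_of_le_of_ne (nR_nonneg r) (fun h' => h (nR_eq_zero.1 h'.symm))

/-- the conjugate -/
noncomputable def cj : RR →+* RR := ev (-lR) (by rw [neg_sq]; exact lR_sq)

@[simp] lemma cX_cj (r : RR) : cX (cj r) = cX r := by
  unfold cj
  rw [ev_apply]
  simp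

@[simp] lemma cY_cj (r : RR) : cY (cj r) = -cY r := by
  unfold cj
  rw [ev_apply]
  simp

lemma cj_coe (r : RR) : ((cj r : RR) : ℂ) = (starRingEnd ℂ) (r : ℂ) := by
  have h1 : (starRingEnd ℂ) lm = -lm := by
    apply Complex.ext
    · rw [Complex.conj_re, Complex.neg_re, lm_re]; norm_num
    · rw [Complex.conj_im, Complex.neg_im]
  rw [co (cj r), co r, cX_cj, cY_cj, map_add, map_mul, h1]
  simp

lemma mul_cj (r : RR) : r * cj r = (nR r : RR) := by
  apply Subtype.ext
  push_cast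
  rw [cj_coe, Complex.mul_conj, normSq_coe]
  push_cast
  rfl

lemma cj_cj (r : RR) : cj (cj r) = r := by
  apply RR_ext <;> simp

lemma nR_cj (r : RR) : nR (cj r) = nR r := by
  unfold nR
  simp

/-- Euclidean division -/
lemma exists_div (a b : RR) (hb : b ≠ 0) : ∃ q : RR, nR (a - q * b) < nR b := by
  have hb0 : (b : ℂ) ≠ 0 := fun h => hb (Subtype.ext h)
  set z : ℂ := (a : ℂ) / b with hz
  set y : ℤ := round (z.im / lm.im) with hy
  set x : ℤ := round z.re with hx
  have hmem : (x : ℂ) + y * lm ∈ RR := ⟨x, y, rfl⟩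
  refine ⟨⟨(x : ℂ) + y * lm, hmem⟩, ?_⟩
  have h1 : ((a - ⟨(x : ℂ) + y * lm, hmem⟩ * b : RR) : ℂ) = (z - (x + y * lm)) * b := by
    push_cast
    rw [hz]
    field_simp
  have h2 : (nR (a - ⟨(x : ℂ) + y * lm, hmem⟩ * b) : ℝ) < nR b := by
    rw [← normSq_coe, ← normSq_coe, h1, Complex.normSq_mul]
    have hbp : 0 < Complex.normSq (b : ℂ) := Complex.normSq_pos.2 hb0
    have h3 : Complex.normSq (z - (x + y * lm)) < 1 := by
      rw [Complex.normSq_apply]
      have e1 : (z - (x + y * lm)).re = z.re - x := by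
        simp only [Complex.add_re, Complex.sub_re, Complex.intCast_im, Complex.intCast_re,
          Complex.mul_re, zero_mul, sub_zero]
        rw [lm_re]
        ring
      have e2 : (z - (x + y * lm)).im = (z.im / lm.im - y) * lm.im := by
        simp only [Complex.add_im, Complex.sub_im, Complex.intCast_im, Complex.intCast_re,
          Complex.mul_im, zero_mul, add_zero, zero_add]
        have := lm_im_pos.ne'
        field_simp
      rw [e1, e2]
      have b1 := abs_sub_round z.re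
      have b2 := abs_sub_round (z.im / lm.im)
      rw [← hx] at b1
      rw [← hy] at b2
      have c1 : (z.re - x) ^ 2 ≤ (1 / 2) ^ 2 := sq_le_sq' (by linarith [abs_le.1 b1]) (abs_le.1 b1).2
      have c2 : (z.im / lm.im - y) ^ 2 ≤ (1 / 2) ^ 2 := sq_le_sq' (by linarith [abs_le.1 b2]) (abs_le.1 b2).2
      have c3 : lm.im ^ 2 = 2 := by
        rw [lm_im, Real.sq_sqrt (by norm_num)]
      nlinarith
    nlinarith
  exact_mod_cast h2

instance RR_pid : IsPrincipalIdealRing RR := by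
  refine ⟨fun I => ?_⟩
  by_cases hI : I = ⊥
  · subst hI
    exact ⟨⟨0, by simp⟩⟩
  obtain ⟨a0, ha0, ha0'⟩ := (Submodule.ne_bot_iff I).1 hI
  obtain ⟨b, ⟨hbI, hb0⟩, hmin⟩ : ∃ b : RR, (b ∈ I ∧ b ≠ 0) ∧ ∀ c : RR, c ∈ I → c ≠ 0 → nR b ≤ nR c := by
    have hne : ∃ n : ℕ, ∃ c : RR, (c ∈ I ∧ c ≠ 0) ∧ nR c = n :=
      ⟨(nR a0).toNat, a0, ⟨ha0, ha0'⟩, by rw [Int.toNat_of_nonneg (nR_nonneg a0)]⟩
    classical
    obtain ⟨b, hb, hb'⟩ := Nat.find_spec hne
    refine ⟨b, hb, fun c hc hc0 => ?_⟩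
    rw [hb']
    have h1 := Nat.find_min' hne (m := (nR c).toNat) ⟨c, ⟨hc, hc0⟩, by
      rw [Int.toNat_of_nonneg (nR_nonneg c)]⟩
    have h2 : ((nR c).toNat : ℤ) = nR c := Int.toNat_of_nonneg (nR_nonneg c)
    have h3 : ((Nat.find hne : ℕ) : ℤ) ≤ ((nR c).toNat : ℤ) := by exact_mod_cast h1
    rw [h2] at h3
    exact h3
  refine ⟨⟨b, ?_⟩⟩
  apply le_antisymm
  · intro a ha
    obtain ⟨q, hq⟩ := exists_div a b hb0
    have h1 : a - q * b ∈ I := I.sub_mem ha (I.mul_mem_left q hbI)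
    by_cases h2 : a - q * b = 0
    · rw [Ideal.submodule_span_eq, Ideal.mem_span_singleton']
      exact ⟨q, by linear_combination -h2⟩
    · exact absurd (hmin _ h1 h2) (not_le.2 hq)
  · rw [Ideal.submodule_span_eq, Ideal.span_singleton_le_iff_mem]
    exact hbI

instance RR_ded : IsDedekindDomain RR := inferInstance

lemma qr : QR RR lm := ⟨lm_im_pos, mem_RR, inferInstance⟩

lemma isUnit_of_nR {u : RR} (h : nR u = 1) : IsUnit u := by
  refine IsUnit.of_mul_eq_one (cj u) ?_
  rw [mul_cj, h]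
  norm_num

lemma nR_of_isUnit {u : RR} (h : IsUnit u) : nR u = 1 := by
  obtain ⟨w, hw⟩ := h.exists_right_inv
  have h1 : nR u * nR w = 1 := by rw [← nR_mul, hw, nR_one]
  have h2 := nR_nonneg u
  rcases Int.eq_one_or_neg_one_of_mul_eq_one h1 with h | h
  · exact h
  · omega

/-- the units -/
lemma isUnit_iff {u : RR} : IsUnit u ↔ u = 1 ∨ u = -1 := by
  constructor
  · intro h
    have h4 := nR_of_isUnit h
    unfold nR at h4
    have hy : cY u = 0 := by
      by_contra hy
      have : 1 ≤ cY u ^ 2 := by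
        have := Int.one_le_abs hy
        nlinarith [sq_abs (cY u)]
      nlinarith [sq_nonneg (cX u)]
    rw [hy] at h4
    have hx : cX u = 1 ∨ cX u = -1 := by
      have h5 : cX u ^ 2 = 1 := by nlinarith
      exact sq_one_cases h5
    rcases hx with hx | hx
    · left
      apply RR_ext <;> simp [hx, hy]
    · right
      apply RR_ext <;> simp [hx, hy]
  · rintro (rfl | rfl)
    · exact isUnit_one
    · exact isUnit_one.neg

end Pool.Agent.Run7.h135.R2
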